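import Pool.Agent.Lib.H87N.Defs
import Pool.Agent.Lib.H69.Tdlc.Top

/-!
# A01: the class of t.d.l.c.s.c. groups

* `exists_cos`: van Dantzig (from `H69.Tdlc.Top`, `exists_compact_open_subgroup`; see also
  `exists_invariant` there).
* `Tdlcsc.subgroup`: closed subgroups. (`IsClosed.isClosedEmbedding_subtypeVal`, instances.)
* `Tdlcsc.quotient`: quotients by closed normal subgroups. Locally compact and second countable are
  instances, Hausdorff: `QuotientGroup.instT3Space` or similar for closed `N`. Totally disconnected:
  if `x ≠ 1` in `G ⧸ N`, choose by van Dantzig a compact open subgroup `V` of `G` with `g ∉ V N`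
  (`x = g N`; the complement of `g⁻¹`-translate ... `g N` is closed and does not contain `1`, and
  `{v | v ∉ g N}` is an open neighbourhood of `1`, take `V` in it); the image of `V` in `G ⧸ N` is an
  open, hence clopen, subgroup not containing `x`. Translate.
* `Tdlcsc.congr`: topological isomorphisms.
* `res..`: see B01.
-/

set_option autoImplicit false

namespace Pool.H87N

open Topology Pointwise

/-- van Dantzig -/
theorem exists_cos {G : Type} [Group G] [TopologicalSpace G] (hG : Tdlcsc G) {O : Set G}
    (hO : O ∈ 𝓝 (1 : G)) :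
    ∃ V : Subgroup G, IsOpen (V : Set G) ∧ IsCompact (V : Set G) ∧ (V : Set G) ⊆ O := by
  have := hG.tg; have := hG.t2; have := hG.lc; have := hG.td
  exact Pool.Agent.Lib.H69.Tdlc.exists_compact_open_subgroup hO

theorem Tdlcsc.subgroup {G : Type} [Group G] [TopologicalSpace G] (hG : Tdlcsc G)
    (H : Subgroup G) (hH : IsClosed (H : Set G)) : Tdlcsc H := by
  have := hG.tg; have := hG.t2; have := hG.lc; have := hG.td; have := hG.sc
  have hce : IsClosedEmbedding (Subtype.val : H → G) := hH.isClosedEmbedding_subtypeVal
  exact ⟨inferInstance, inferInstance, hce.locallyCompactSpace,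
    inferInstanceAs (TotallyDisconnectedSpace {x : G // x ∈ H}),
    hce.isEmbedding.secondCountableTopology⟩

theorem Tdlcsc.quotient {G : Type} [Group G] [TopologicalSpace G] (hG : Tdlcsc G)
    (N : Subgroup G) [N.Normal] (hN : IsClosed (N : Set G)) : Tdlcsc (G ⧸ N) := by
  have := hG.tg; have := hG.t2; have := hG.lc; have := hG.td; have := hG.sc
  have := hN
  have ht3 : T3Space (G ⧸ N) := QuotientGroup.instT3Space N
  refine ⟨inferInstance, inferInstance, inferInstance, ?_, inferInstance⟩
  have hts : TotallySeparatedSpace (G ⧸ N) := by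
    rw [totallySeparatedSpace_iff_exists_isClopen]
    intro x y hxy
    have hO : {g : G | (QuotientGroup.mk' N g) ≠ x⁻¹ * y} ∈ 𝓝 (1 : G) := by
      have hopen : IsOpen {q : G ⧸ N | q ≠ x⁻¹ * y} := isOpen_ne
      have hc : Continuous (QuotientGroup.mk' N) := QuotientGroup.continuous_mk
      refine (hopen.preimage hc).mem_nhds ?_
      intro h
      apply hxy
      have h1 : (1 : G ⧸ N) = x⁻¹ * y := by
        rw [← h]; exact (map_one (QuotientGroup.mk' N)).symm
      calc x = x * 1 := (mul_one x).symm
        _ = x * (x⁻¹ * y) := by rw [← h1]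
        _ = y := by group
    obtain ⟨V, hVo, -, hV⟩ := exists_cos hG hO
    let W : Subgroup (G ⧸ N) := V.map (QuotientGroup.mk' N)
    have hWo : IsOpen (W : Set (G ⧸ N)) := by
      have h1 : (W : Set (G ⧸ N)) = (QuotientGroup.mk' N) '' (V : Set G) := by
        simp [W]
      rw [h1]
      exact QuotientGroup.isOpenMap_coe _ hVo
    have hWc : IsClosed (W : Set (G ⧸ N)) := W.isClosed_of_isOpen hWo
    refine ⟨(fun q => x⁻¹ * q) ⁻¹' (W : Set (G ⧸ N)), ⟨hWc.preimage (by fun_prop),
      hWo.preimage (by fun_prop)⟩, ?_, ?_⟩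
    · change x⁻¹ * x ∈ W
      rw [inv_mul_cancel]; exact W.one_mem
    · change ¬ (x⁻¹ * y ∈ W)
      rintro ⟨v, hv, hvx⟩
      exact hV hv hvx
  infer_instance

theorem Tdlcsc.congr {G H : Type} [Group G] [TopologicalSpace G] [Group H] [TopologicalSpace H]
    (e : G ≃ₜ* H) (hG : Tdlcsc G) : Tdlcsc H := by
  have := hG.tg; have := hG.t2; have := hG.lc; have := hG.td; have := hG.sc
  let e' : G ≃ₜ H := e.toHomeomorph
  have hmul : ∀ a b : G, e' (a * b) = e' a * e' b := fun a b => map_mul e a b
  have hinv : ∀ a : G, e' a⁻¹ = (e' a)⁻¹ := fun a => map_inv e a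
  have htg : IsTopologicalGroup H := by
    have h1 : ContinuousMul H := by
      constructor
      have : (fun p : H × H => p.1 * p.2) = fun p => e' (e'.symm p.1 * e'.symm p.2) := by
        ext p
        rw [hmul]; simp
      rw [this]
      fun_prop
    have h2 : ContinuousInv H := by
      constructor
      have : (fun p : H => p⁻¹) = fun p => e' (e'.symm p)⁻¹ := by
        ext p
        rw [hinv]; simp
      rw [this]
      fun_prop
    exact { }
  refine ⟨htg, e'.t2Space, ?_, ?_, ?_⟩
  · exact e'.symm.isClosedEmbedding.locallyCompactSpace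
  · have h1 := e'.symm.isEmbedding.isTotallyDisconnected_range
    exact h1.mp (isTotallyDisconnected_of_totallyDisconnectedSpace _)
  · exact e'.symm.isEmbedding.secondCountableTopology

end Pool.H87N
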