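import Pool.Agent.Lib.H87N.A01

/-!
# A02: compactly generated groups

* `cg_iff`: a subgroup `A` of `G` is compactly generated iff `A` is generated by a compact subset of
  `G` (image of a compact subset of `↥A`, resp. preimage: `IsCompact` in the subtype, use
  `Subtype.isCompact_iff` / `isCompact_iff` for the embedding and `Subgroup.map_subtype...`,
  `Subgroup.closure_preimage...`; generating subsets are contained in `A`).
* `CG.surj`: images under surjective continuous homomorphisms.
* `cg_map`, `cg_sup`, `cg_compact`: from `cg_iff`.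
* `CG.exists_finite_cover`: if `G` is compactly generated and `V` an open subgroup there are finitely
  many `f` with `G = ⟨V, f⟩`; if `D` is a dense subset the `f` may be chosen in `D` (a compact
  generating set `K` is covered by the open sets `f V`, `f ∈ D`: for `c ∈ K` the open set `c V`
  meets `D` in some `f`, and then `c ∈ f V`).
-/

set_option autoImplicit false

namespace Pool.H87N

open Topology Pointwise

theorem cg_iff {G : Type} [Group G] [TopologicalSpace G] (A : Subgroup G) :
    CG A ↔ ∃ K : Set G, IsCompact K ∧ Subgroup.closure K = A := by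
  constructor
  · rintro ⟨K, hK, hKt⟩
    refine ⟨A.subtype '' K, hK.image continuous_subtype_val, ?_⟩
    rw [← MonoidHom.map_closure, hKt, ← MonoidHom.range_eq_map, Subgroup.range_subtype]
  · rintro ⟨K, hK, hKt⟩
    have hKA : K ⊆ (A : Set G) := by rw [← hKt]; exact Subgroup.subset_closure
    refine ⟨A.subtype ⁻¹' K, ?_, ?_⟩
    · rw [Subtype.isCompact_iff]
      have : (Subtype.val : A → G) '' (A.subtype ⁻¹' K) = K := by
        apply Set.image_preimage_eq_of_subset
        intro x hx
        exact ⟨⟨x, hKA hx⟩, rfl⟩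
      rw [this]; exact hK
    · apply Subgroup.map_injective A.subtype_injective
      rw [MonoidHom.map_closure, ← MonoidHom.range_eq_map, Subgroup.range_subtype]
      have : A.subtype '' (A.subtype ⁻¹' K) = K := by
        apply Set.image_preimage_eq_of_subset
        intro x hx
        exact ⟨⟨x, hKA hx⟩, rfl⟩
      rw [this]; exact hKt

theorem CG.surj {G H : Type} [Group G] [TopologicalSpace G] [Group H] [TopologicalSpace H]
    (f : G →* H) (hf : Continuous f) (hs : Function.Surjective f) (hG : CG G) : CG H := by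
  obtain ⟨K, hK, hKt⟩ := hG
  refine ⟨f '' K, hK.image hf, ?_⟩
  rw [← MonoidHom.map_closure, hKt, Subgroup.map_top_of_surjective f hs]

theorem cg_map {G H : Type} [Group G] [TopologicalSpace G] [Group H] [TopologicalSpace H]
    (f : G →* H) (hf : Continuous f) (A : Subgroup G) (hA : CG A) : CG (A.map f) := by
  rw [cg_iff] at hA ⊢
  obtain ⟨K, hK, hKt⟩ := hA
  refine ⟨f '' K, hK.image hf, ?_⟩
  rw [← MonoidHom.map_closure, hKt]

theorem cg_sup {G : Type} [Group G] [TopologicalSpace G] (A B : Subgroup G) (hA : CG A)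
    (hB : CG B) : CG (A ⊔ B : Subgroup G) := by
  rw [cg_iff] at hA hB ⊢
  obtain ⟨K, hK, hKt⟩ := hA
  obtain ⟨L, hL, hLt⟩ := hB
  refine ⟨K ∪ L, hK.union hL, ?_⟩
  rw [Subgroup.closure_union, hKt, hLt]

theorem cg_compact {G : Type} [Group G] [TopologicalSpace G] (A : Subgroup G)
    (hA : IsCompact (A : Set G)) : CG A := by
  rw [cg_iff]
  exact ⟨A, hA, Subgroup.closure_eq A⟩

theorem CG.exists_finite {G : Type} [Group G] [TopologicalSpace G] [IsTopologicalGroup G]
    (hG : CG G) (V : Subgroup G) (hV : IsOpen (V : Set G)) (D : Set G) (hD : Dense D) :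
    ∃ F : Finset G, (F : Set G) ⊆ D ∧ Subgroup.closure ((V : Set G) ∪ (F : Set G)) = ⊤ := by
  classical
  obtain ⟨K, hK, hKt⟩ := hG
  have hcov : K ⊆ ⋃ f : D, {x : G | (f : G)⁻¹ * x ∈ V} := by
    intro c _
    have ho : IsOpen {x : G | c⁻¹ * x ∈ V} := hV.preimage (by fun_prop)
    obtain ⟨f, hf, hfD⟩ := hD.inter_open_nonempty _ ho ⟨c, by
      change c⁻¹ * c ∈ V
      rw [inv_mul_cancel]; exact V.one_mem⟩
    rw [Set.mem_iUnion]
    refine ⟨⟨f, hfD⟩, ?_⟩
    change f⁻¹ * c ∈ V
    have h1 : c⁻¹ * f ∈ V := hf
    have h2 := V.inv_mem h1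
    rw [mul_inv_rev, inv_inv] at h2
    exact h2
  have hop : ∀ f : D, IsOpen {x : G | (f : G)⁻¹ * x ∈ V} := fun f =>
    hV.preimage (by fun_prop)
  obtain ⟨t, ht⟩ := hK.elim_finite_subcover _ hop hcov
  refine ⟨t.image (fun f : D => (f : G)), ?_, ?_⟩
  · intro x hx
    rw [Finset.mem_coe, Finset.mem_image] at hx
    obtain ⟨f, -, rfl⟩ := hx
    exact f.2
  · rw [eq_top_iff, ← hKt, Subgroup.closure_le]
    intro x hx
    have := ht hx
    rw [Set.mem_iUnion₂] at this
    obtain ⟨f, hft, hfx⟩ := this
    have h1 : (f : G) ∈ Subgroup.closure ((V : Set G) ∪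
        ((t.image (fun f : D => (f : G)) : Finset G) : Set G)) := by
      apply Subgroup.subset_closure
      right
      rw [Finset.mem_coe, Finset.mem_image]
      exact ⟨f, hft, rfl⟩
    have h2 : (f : G)⁻¹ * x ∈ Subgroup.closure ((V : Set G) ∪
        ((t.image (fun f : D => (f : G)) : Finset G) : Set G)) := by
      apply Subgroup.subset_closure
      left
      exact hfx
    have h3 := mul_mem h1 h2
    rw [mul_inv_cancel_left] at h3
    exact h3

end Pool.H87N
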