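import Pool.Agent.Lib.H87N.A02

/-!
# A03: compact generation of `A` from that of `A U`

`A` closed subgroup, `U` compact open subgroup normalising `A`, `A U` compactly generated. Then `A`
is compactly generated.

Proof. `A ⊔ U = A U` (as `U` normalises `A`). By `cg_iff` a compact set `K` generates `A ⊔ U`; each
`c ∈ K` is in some `r U` with `r ∈ A`, these sets are open, so there are finitely many
`r_1, …, r_m ∈ A` with `K ⊆ ⋃ r_i U` and `A ⊔ U = ⟨U, r_1, …, r_m⟩`. Put
`C = (U ∩ A) ∪ {u r_i u⁻¹ : u ∈ U, i}`, a compact subset of `A`, and `A₀ = ⟨C⟩ ≤ A`. `U`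
normalises `A₀` (it maps `C` to `C`), so `A₀ U` is a subgroup containing `U` and the `r_i`, hence
`A₀ U = A ⊔ U`. If `a ∈ A`, then `a = a₀ u` with `a₀ ∈ A₀ ≤ A`, so `u ∈ U ∩ A ⊆ A₀` and
`a ∈ A₀`. So `A = A₀`.
-/

set_option autoImplicit false

namespace Pool.H87N

open Topology Pointwise

theorem a03_mem_sup {G : Type} [Group G] (A U : Subgroup G)
    (hUA : U ≤ Subgroup.normalizer (A : Set G)) (x : G) (hx : x ∈ A ⊔ U) :
    ∃ a ∈ A, ∃ u ∈ U, a * u = x := by
  have h1 : ((A ⊔ U : Subgroup G) : Set G) = (A : Set G) * (U : Set G) :=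
    Subgroup.coe_mul_of_right_le_normalizer_left A U hUA
  have h2 : x ∈ (A : Set G) * (U : Set G) := by rw [← h1]; exact hx
  obtain ⟨a, ha, u, hu, h⟩ := Set.mem_mul.mp h2
  exact ⟨a, ha, u, hu, h⟩

theorem cg_of_sup {G : Type} [Group G] [TopologicalSpace G] [IsTopologicalGroup G] [T2Space G]
    (A U : Subgroup G) (hA : IsClosed (A : Set G)) (hUo : IsOpen (U : Set G))
    (hUc : IsCompact (U : Set G)) (hUA : U ≤ Subgroup.normalizer (A : Set G))
    (h : CG (A ⊔ U : Subgroup G)) : CG A := by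
  classical
  rw [cg_iff] at h ⊢
  obtain ⟨K, hK, hKt⟩ := h
  have hmem : ∀ x ∈ A ⊔ U, ∃ a ∈ A, ∃ u ∈ U, a * u = x := by
    intro x hx
    have := a03_mem_sup A U hUA x hx
    exact this
  have hop : ∀ r : A, IsOpen {x : G | (r : G)⁻¹ * x ∈ U} := fun r =>
    hUo.preimage (by fun_prop)
  have hcov : K ⊆ ⋃ r : A, {x : G | (r : G)⁻¹ * x ∈ U} := by
    intro c hc
    have hc' : c ∈ A ⊔ U := by rw [← hKt]; exact Subgroup.subset_closure hc
    obtain ⟨a, ha, u, hu, hau⟩ := hmem c hc'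
    rw [Set.mem_iUnion]
    refine ⟨⟨a, ha⟩, ?_⟩
    change a⁻¹ * c ∈ U
    rw [← hau, inv_mul_cancel_left]; exact hu
  obtain ⟨t, ht⟩ := hK.elim_finite_subcover _ hop hcov
  let C : Set G := ((U ⊓ A : Subgroup G) : Set G) ∪ ⋃ r ∈ t, (fun u : G => u * (r : G) * u⁻¹) '' (U : Set G)
  have hCc : IsCompact C := by
    refine IsCompact.union ?_ ?_
    · rw [Subgroup.coe_inf]; exact hUc.inter_right hA
    · exact t.finite_toSet.isCompact_biUnion (fun r _ => hUc.image (by fun_prop))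
  have hCA : C ⊆ (A : Set G) := by
    rintro x (hx | hx)
    · exact hx.2
    · rw [Set.mem_iUnion₂] at hx
      obtain ⟨r, -, u, hu, rfl⟩ := hx
      exact (Subgroup.mem_normalizer_iff.mp (hUA hu) r).mp r.2
  have hUC : ∀ u ∈ U, ∀ x ∈ C, u * x * u⁻¹ ∈ C := by
    rintro u hu x (hx | hx)
    · left
      exact ⟨U.mul_mem (U.mul_mem hu hx.1) (U.inv_mem hu),
        (Subgroup.mem_normalizer_iff.mp (hUA hu) x).mp hx.2⟩
    · right
      rw [Set.mem_iUnion₂] at hx ⊢
      obtain ⟨r, hr, v, hv, rfl⟩ := hx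
      refine ⟨r, hr, u * v, U.mul_mem hu hv, ?_⟩
      change (u * v) * (r : G) * (u * v)⁻¹ = u * (v * (r : G) * v⁻¹) * u⁻¹
      group
  refine ⟨C, hCc, le_antisymm ((Subgroup.closure_le A).mpr hCA) ?_⟩
  set A₀ : Subgroup G := Subgroup.closure C with hA₀
  have hUA₀ : U ≤ Subgroup.normalizer (A₀ : Set G) := by
    intro u hu
    rw [Subgroup.mem_normalizer_iff]
    have key : ∀ v ∈ U, ∀ x ∈ A₀, v * x * v⁻¹ ∈ A₀ := by
      intro v hv x hx
      have h1 : A₀ ≤ A₀.comap (MulAut.conj v).toMonoidHom := by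
        rw [hA₀, Subgroup.closure_le]
        intro y hy
        change v * y * v⁻¹ ∈ Subgroup.closure C
        exact Subgroup.subset_closure (hUC v hv y hy)
      exact h1 hx
    intro x
    constructor
    · exact key u hu x
    · intro hx
      have := key u⁻¹ (U.inv_mem hu) _ hx
      have e : u⁻¹ * (u * x * u⁻¹) * u⁻¹⁻¹ = x := by group
      rwa [e] at this
  have hle : A ⊔ U ≤ A₀ ⊔ U := by
    rw [← hKt, Subgroup.closure_le]
    intro c hc
    have := ht hc
    rw [Set.mem_iUnion₂] at this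
    obtain ⟨r, hr, hrc⟩ := this
    have h1 : (r : G) ∈ A₀ ⊔ U := by
      apply Subgroup.mem_sup_left
      apply Subgroup.subset_closure
      right
      rw [Set.mem_iUnion₂]
      exact ⟨r, hr, 1, U.one_mem, by group⟩
    have h2 : (r : G)⁻¹ * c ∈ A₀ ⊔ U := Subgroup.mem_sup_right hrc
    have h3 := mul_mem h1 h2
    rw [mul_inv_cancel_left] at h3
    exact h3
  intro a ha
  obtain ⟨a₀, ha₀, u, hu, hau⟩ := a03_mem_sup A₀ U hUA₀ a (hle (Subgroup.mem_sup_left ha))
  have hA₀A : A₀ ≤ A := (Subgroup.closure_le A).mpr hCA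
  have hu2 : u = a₀⁻¹ * a := by rw [← hau, inv_mul_cancel_left]
  have huA : u ∈ A := by rw [hu2]; exact A.mul_mem (A.inv_mem (hA₀A ha₀)) ha
  rw [← hau]
  exact A₀.mul_mem ha₀ (Subgroup.subset_closure (Or.inl ⟨hu, huA⟩))

/-- In a Noetherian group a closed subgroup normalised by an open subgroup is compactly
generated. (Take a compact open subgroup inside `U` by `exists_cos`.) -/
theorem cg_of_noeth {G : Type} [Group G] [TopologicalSpace G] (hG : Tdlcsc G) (hN : Noeth G)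
    (A U : Subgroup G) (hA : IsClosed (A : Set G)) (hUo : IsOpen (U : Set G))
    (hUA : U ≤ Subgroup.normalizer (A : Set G)) : CG A := by
  have := hG.tg; have := hG.t2
  obtain ⟨V, hVo, hVc, hV⟩ := exists_cos hG (hUo.mem_nhds U.one_mem)
  have hVU : V ≤ U := hV
  refine cg_of_sup A V hA hVo hVc (hVU.trans hUA) (hN _ ?_)
  exact Subgroup.isOpen_mono (le_sup_right : V ≤ A ⊔ V) hVo

end Pool.H87N
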