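import Pool.Agent.Lib.H87N.A02

/-!
# B01: the residual `Res G`

* `res_normal`, `res_closed` (open subgroups are closed), `map_mem_res` (preimages of open normal
  subgroups under continuous homomorphisms are open normal).
* `res_eq_bot_of_injective`: from `map_mem_res`.
* `res_eq_bot_of_compact`: for `x ≠ 1` van Dantzig gives an open subgroup `V` with `x ∉ V`, it has
  finite index (`Subgroup.quotient_finite_of_isOpen`), its normal core is open (finite intersection
  of conjugates; or `H69.Tdlc.exists_invariant` with `U = ⊤`; or `ProfiniteGrp...`).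
* `res_eq_bot_of_discrete`: `⊥` is open normal.
* `res_quotient`: open normal subgroups of `G` contain `Res G`, and their images in `G ⧸ Res G` are
  open normal with preimage the given subgroup.
-/

set_option autoImplicit false

namespace Pool.H87N

open Topology Pointwise

section

variable {G H : Type} [Group G] [TopologicalSpace G] [Group H] [TopologicalSpace H]

instance res_normal : (Res G).Normal := by
  refine ⟨fun n hn g => ?_⟩
  unfold Res at hn ⊢
  rw [Subgroup.mem_sInf] at hn ⊢
  exact fun N hN => hN.1.conj_mem n (hn N hN) g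

theorem res_le (N : Subgroup G) (hn : N.Normal) (ho : IsOpen (N : Set G)) : Res G ≤ N :=
  sInf_le ⟨hn, ho⟩

theorem map_mem_res (f : G →* H) (hf : Continuous f) (x : G) (hx : x ∈ Res G) : f x ∈ Res H := by
  unfold Res
  rw [Subgroup.mem_sInf]
  rintro N ⟨hN, hNo⟩
  exact res_le (N.comap f) (hN.comap f) (hNo.preimage hf) hx

theorem res_closed [IsTopologicalGroup G] : IsClosed (Res G : Set G) := by
  unfold Res
  rw [Subgroup.coe_sInf]
  exact isClosed_biInter fun N hN => N.isClosed_of_isOpen hN.2

theorem res_eq_bot_of_injective (f : G →* H) (hf : Continuous f) (hi : Function.Injective f)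
    (h : Res H = ⊥) : Res G = ⊥ := by
  rw [Subgroup.eq_bot_iff_forall]
  intro x hx
  have h1 := map_mem_res f hf x hx
  rw [h, Subgroup.mem_bot] at h1
  exact hi (h1.trans (map_one f).symm)

theorem res_eq_bot_of_compact (hG : Tdlcsc G) (hc : CompactSpace G) : Res G = ⊥ := by
  have := hG.tg; have := hG.t2; have := hG.lc; have := hG.td
  rw [Subgroup.eq_bot_iff_forall]
  intro x hx
  by_contra hx1
  have hO : ({x}ᶜ : Set G) ∈ 𝓝 (1 : G) :=
    isOpen_compl_singleton.mem_nhds (fun h : (1 : G) = x => hx1 h.symm)
  obtain ⟨V, hVo, hVc, hV⟩ := exists_cos hG hO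
  have : Finite (G ⧸ V) := Subgroup.quotient_finite_of_isOpen V hVo
  have hfi : V.FiniteIndex := Subgroup.finiteIndex_of_finite_quotient
  have hVcl : IsClosed (V : Set G) := V.isClosed_of_isOpen hVo
  have hcc : IsClosed (V.normalCore : Set G) := V.normalCore_isClosed hVcl
  have hco : IsOpen (V.normalCore : Set G) :=
    V.normalCore.isOpen_of_isClosed_of_finiteIndex hcc
  have h1 := res_le V.normalCore inferInstance hco hx
  exact hV (V.normalCore_le h1) rfl

theorem res_eq_bot_of_discrete (hd : DiscreteTopology G) : Res G = ⊥ :=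
  le_bot_iff.1 (res_le ⊥ inferInstance (isOpen_discrete _))

theorem res_quotient [IsTopologicalGroup G] : Res (G ⧸ Res G) = ⊥ := by
  rw [Subgroup.eq_bot_iff_forall]
  intro q hq
  obtain ⟨g, rfl⟩ := QuotientGroup.mk'_surjective (Res G) q
  rw [QuotientGroup.mk'_apply, QuotientGroup.eq_one_iff]
  unfold Res
  rw [Subgroup.mem_sInf]
  rintro N ⟨hN, hNo⟩
  have hle : Res G ≤ N := res_le N hN hNo
  have h1 : (N.map (QuotientGroup.mk' (Res G))).Normal :=
    hN.map _ (QuotientGroup.mk'_surjective _)
  have h2 : IsOpen ((N.map (QuotientGroup.mk' (Res G)) : Subgroup (G ⧸ Res G)) :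
      Set (G ⧸ Res G)) := by
    rw [Subgroup.coe_map]
    exact QuotientGroup.isOpenMap_coe _ hNo
  obtain ⟨n, hn, hng⟩ := res_le _ h1 h2 hq
  have h3 : n⁻¹ * g ∈ Res G := by
    rw [← QuotientGroup.eq]
    exact hng
  have h4 := N.mul_mem hn (hle h3)
  rwa [mul_inv_cancel_left] at h4

end

end Pool.H87N
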