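import Pool.Agent.Lib.H87N.B01

/-!
# B02: groups with `Res G = G`

* `finiteIndex_eq_top`: if `Res G = ⊤`, every open subgroup `D` of finite index is `⊤`: its normal
  core is open (finite intersection of conjugates of open subgroups: `Subgroup.normalCore` of an
  open = closed subgroup of finite index is closed of finite index, hence open,
  `Subgroup.normalCore_isClosed`, `Subgroup.isOpen_of_isClosed_of_finiteIndex`) and normal.
* `open_normal_eq_top`: open normal subgroups are `⊤`.
* `compact_quotient_eq_top`: if `N` is closed normal and `G ⧸ N` compact, then `N = ⊤`: for `g ∉ N`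
  the group `G ⧸ N` is compact t.d.l.c.s.c., `Res (G ⧸ N) = ⊥` by B01, so by `map_mem_res`
  (`G → G ⧸ N`) every `g ∈ Res G = ⊤` is in `N`.
-/

set_option autoImplicit false

namespace Pool.H87N

open Topology Pointwise

variable {G : Type} [Group G] [TopologicalSpace G]

theorem open_normal_eq_top (h : Res G = ⊤) (N : Subgroup G) (hn : N.Normal)
    (ho : IsOpen (N : Set G)) : N = ⊤ :=
  top_le_iff.mp (h ▸ res_le N hn ho)

theorem finiteIndex_eq_top [IsTopologicalGroup G] (h : Res G = ⊤) (D : Subgroup G)
    (ho : IsOpen (D : Set G)) (hf : D.index ≠ 0) : D = ⊤ := by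
  have hfi : D.FiniteIndex := ⟨hf⟩
  have h1 : IsClosed (D.normalCore : Set G) :=
    D.normalCore_isClosed (D.isClosed_of_isOpen ho)
  have h2 : D.normalCore.FiniteIndex := Subgroup.finiteIndex_normalCore D
  have h3 : IsOpen (D.normalCore : Set G) := D.normalCore.isOpen_of_isClosed_of_finiteIndex h1
  have h4 := open_normal_eq_top h D.normalCore inferInstance h3
  rw [eq_top_iff, ← h4]
  exact D.normalCore_le

theorem compact_quotient_eq_top (hG : Tdlcsc G) (h : Res G = ⊤) (N : Subgroup G) [N.Normal]
    (hN : IsClosed (N : Set G)) (hc : CompactSpace (G ⧸ N)) : N = ⊤ := by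
  have := hG.tg
  have hT := hG.quotient N hN
  have h1 := res_eq_bot_of_compact hT hc
  rw [eq_top_iff]
  intro x _
  have hx : x ∈ Res G := by rw [h]; exact Subgroup.mem_top x
  have h2 := map_mem_res (QuotientGroup.mk' N) QuotientGroup.continuous_mk x hx
  rw [h1, Subgroup.mem_bot] at h2
  exact (QuotientGroup.eq_one_iff x).mp h2

end Pool.H87N
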