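import Mathlib

/-!
# H87N: definitions for MP_14eb16_al (Noetherian t.d.l.c.s.c. groups and S-well-foundedness)

All groups live in `Type`. For subgroups `A ≤ B` of a group `G` with `A` normal in `B` the quotient
group `B / A` is the type `↥B ⧸ A.subgroupOf B`.
-/

set_option autoImplicit false

namespace Pool.H87N

/-- `G` is compactly generated. -/
def CG (G : Type) [Group G] [TopologicalSpace G] : Prop :=
  ∃ K : Set G, IsCompact K ∧ Subgroup.closure K = ⊤

/-- `G` is a totally disconnected, locally compact, second countable Hausdorff group. -/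
structure Tdlcsc (G : Type) [Group G] [TopologicalSpace G] : Prop where
  /-- `G` is a topological group. -/
  tg : IsTopologicalGroup G
  /-- `G` is Hausdorff. -/
  t2 : T2Space G
  /-- `G` is locally compact. -/
  lc : LocallyCompactSpace G
  /-- `G` is totally disconnected. -/
  td : TotallyDisconnectedSpace G
  /-- `G` is second countable. -/
  sc : SecondCountableTopology G

/-- The class `𝒮` of nondiscrete, compactly generated, topologically simple t.d.l.c.s.c. groups. -/
structure ClassS (G : Type) [Group G] [TopologicalSpace G] : Prop where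
  /-- `G` is t.d.l.c.s.c. -/
  tdlcsc : Tdlcsc G
  /-- `G` is not discrete (in particular not trivial). -/
  nondiscrete : ¬ DiscreteTopology G
  /-- `G` is compactly generated. -/
  cg : CG G
  /-- The only closed normal subgroups of `G` are the trivial one and `G`. -/
  simple : ∀ N : Subgroup G, N.Normal → IsClosed (N : Set G) → N = ⊥ ∨ N = ⊤

/-- The intersection of all open normal subgroups of `G`. -/
def Res (G : Type) [Group G] [TopologicalSpace G] : Subgroup G :=
  sInf {N : Subgroup G | N.Normal ∧ IsOpen (N : Set G)}

/-- `ξ(G) ≤ n` for a natural number `n`, by the three rules of the problem. -/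
def XiLE : ℕ → ∀ (G : Type) [Group G] [TopologicalSpace G], Prop
  | 0, _, _, _ => False
  | n + 1, G, _, _ =>
      Subsingleton G ∨
      (CG G ∧ XiLE n (Res G)) ∨
      (¬ CG G ∧ ∀ O : Subgroup G, IsOpen (O : Set G) → CG O → XiLE n (Res O))

/-- The class of elementary groups: the least class of t.d.l.c.s.c. groups which contains the
profinite and the discrete ones and is closed under extensions and under unions of increasing
chains of open subgroups. -/
inductive Elementary : ∀ (G : Type) [Group G] [TopologicalSpace G], Prop
  | profinite (G : Type) [Group G] [TopologicalSpace G] (hG : Tdlcsc G) (hc : CompactSpace G) :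
      Elementary G
  | discrete (G : Type) [Group G] [TopologicalSpace G] (hG : Tdlcsc G)
      (hd : DiscreteTopology G) : Elementary G
  | extension (G : Type) [Group G] [TopologicalSpace G] (hG : Tdlcsc G) (N : Subgroup G)
      [N.Normal] (hN : IsClosed (N : Set G)) (h1 : Elementary N) (h2 : Elementary (G ⧸ N)) :
      Elementary G
  | union (G : Type) [Group G] [TopologicalSpace G] (hG : Tdlcsc G) (ι : Type) [LinearOrder ι]
      (O : ι → Subgroup G) (hm : Monotone O) (ho : ∀ i, IsOpen (O i : Set G))
      (hu : ∀ g, ∃ i, g ∈ O i) (h : ∀ i, Elementary (O i)) : Elementary G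

/-- `G` is elementary and `ξ(G) < ω`. -/
def FinRank (G : Type) [Group G] [TopologicalSpace G] : Prop :=
  Elementary G ∧ ∃ n, XiLE n G

section Relative

variable {G : Type} [Group G] [TopologicalSpace G]

/-- `A` is a normal subgroup of `B` and `B / A` is elementary of finite rank. -/
def FRQ (A B : Subgroup G) : Prop :=
  ∃ _ : (A.subgroupOf B).Normal, FinRank (↥B ⧸ A.subgroupOf B)

/-- `R` is `Res^ω(K)`: the smallest closed normal subgroup of `K` such that the quotient is
elementary of rank `< ω`. -/
structure IsResOmega (K R : Subgroup G) : Prop where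
  /-- `R` is a subgroup of `K`. -/
  le : R ≤ K
  /-- `R` is closed. -/
  closed : IsClosed (R : Set G)
  /-- `R` is normal in `K` and the quotient is elementary of finite rank. -/
  frq : FRQ R K
  /-- `R` is the smallest such subgroup. -/
  least : ∀ R' : Subgroup G, R' ≤ K → IsClosed (R' : Set G) → FRQ R' K → R ≤ R'

/-- `N` is a closed normal subgroup of `R` and `R / N` is in `𝒮`. -/
structure SKer (R N : Subgroup G) : Prop where
  /-- `N` is a subgroup of `R`. -/
  le : N ≤ R
  /-- `N` is closed. -/
  closed : IsClosed (N : Set G)
  /-- `N` is normal in `R` and the quotient is in `𝒮`. -/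
  quot : ∃ _ : (N.subgroupOf R).Normal, ClassS (↥R ⧸ N.subgroupOf R)

/-- The relation `H ≪ K`. -/
structure LL (H K : Subgroup G) : Prop where
  /-- `K` is not compact. -/
  noncompact : ¬ IsCompact (K : Set G)
  /-- `H` is a subgroup of `K`. -/
  le : H ≤ K
  /-- The conditions (a) and (b). -/
  ab : ∃ RH RK : Subgroup G, IsResOmega H RH ∧ IsResOmega K RK ∧
    IsCompact (closure ((fun x : ↥K => (x : ↥K ⧸ RK.subgroupOf K)) '' (H.subgroupOf K : Set ↥K))) ∧
    ∀ N : Subgroup G, SKer RK N → (Subgroup.normalizer (N : Set G)).relIndex K ≠ 0 → RH ≤ N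

variable (G)

/-- The compactly generated open subgroups. -/
def Oc : Type := {H : Subgroup G // IsOpen (H : Set G) ∧ CG H}

/-- `G` is Noetherian: every open subgroup is compactly generated. -/
def Noeth : Prop := ∀ O : Subgroup G, IsOpen (O : Set G) → CG O

/-- `G` is `𝒮`-well-founded. -/
def SWF : Prop := WellFounded (fun H K : Oc G => LL H.1 K.1)

end Relative

end Pool.H87N
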