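import Pool.Agent.Lib.H87N.A02

/-!
# E01: invariance of `Elementary` under topological isomorphisms

Induction on `h : Elementary G` (for all `H` and `e : G ≃ₜ* H`).
* profinite, discrete: `Tdlcsc.congr`, compactness / discreteness along the homeomorphism.
* extension: `N' = N.map e`, closed and normal in `H`; `e` restricts to `N ≃ₜ* N'` and induces
  `G ⧸ N ≃ₜ* H ⧸ N'` (`QuotientGroup.congr`; continuity of both directions by
  `QuotientGroup` lift continuity / quotient maps).
* union: `O' i = (O i).map e`.
-/

set_option autoImplicit false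

namespace Pool.H87N

open Topology Pointwise

/-- The isomorphism of quotients induced by a topological isomorphism. -/
theorem nonempty_quot_congr {G H : Type} [Group G] [TopologicalSpace G] [Group H]
    [TopologicalSpace H] (e : G ≃ₜ* H) (N : Subgroup G) [N.Normal] (N' : Subgroup H) [N'.Normal]
    (h : N.map (e : G →* H) = N') : Nonempty ((G ⧸ N) ≃ₜ* (H ⧸ N')) := by
  have h' : N.map ((e : G ≃* H) : G →* H) = N' := h
  let φ : (G ⧸ N) ≃* (H ⧸ N') := QuotientGroup.congr N N' (e : G ≃* H) h'
  have h1 : Continuous φ := by
    refine isQuotientMap_quotient_mk'.continuous_iff.2 ?_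
    have h2 : Continuous fun x : G => (QuotientGroup.mk (e x) : H ⧸ N') :=
      continuous_quotient_mk'.comp e.continuous
    exact h2
  have h3 : Continuous φ.symm := by
    refine isQuotientMap_quotient_mk'.continuous_iff.2 ?_
    have h2 : Continuous fun x : H => (QuotientGroup.mk (e.symm x) : G ⧸ N) :=
      continuous_quotient_mk'.comp e.symm.continuous
    exact h2
  exact ⟨{ φ with continuous_toFun := h1, continuous_invFun := h3 }⟩


/-- The isomorphism of subgroups induced by a topological isomorphism. -/
theorem nonempty_sub_congr {G H : Type} [Group G] [TopologicalSpace G] [Group H]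
    [TopologicalSpace H] (e : G ≃ₜ* H) (N : Subgroup G) (N' : Subgroup H)
    (h : N.map (e : G →* H) = N') : Nonempty (N ≃ₜ* N') := by
  subst h
  let φ : N ≃* (N.map (e : G →* H)) := (e : G ≃* H).subgroupMap N
  have h1 : Continuous φ := by
    have h2 : Continuous fun x : N => (⟨e x.1, ⟨x.1, x.2, rfl⟩⟩ : N.map (e : G →* H)) :=
      Continuous.subtype_mk (e.continuous.comp continuous_subtype_val) _
    exact h2
  have h3 : Continuous φ.symm := by
    have h2 : ∀ y : N.map (e : G →* H), ((φ.symm y : N) : G) = e.symm y.1 := by
      intro y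
      apply e.injective
      rw [ContinuousMulEquiv.apply_symm_apply]
      have h4 : ((φ (φ.symm y) : N.map (e : G →* H)) : H) = e ((φ.symm y : N) : G) := rfl
      rw [← h4, φ.apply_symm_apply]
    rw [continuous_induced_rng]
    have h5 : (Subtype.val ∘ φ.symm) = fun y : N.map (e : G →* H) => e.symm y.1 := funext h2
    rw [h5]
    exact e.symm.continuous.comp continuous_subtype_val
  exact ⟨{ φ with continuous_toFun := h1, continuous_invFun := h3 }⟩


theorem e01_aux (G : Type) [Group G] [TopologicalSpace G] (hG : Elementary G) :
    ∀ (H : Type) [Group H] [TopologicalSpace H], (G ≃ₜ* H) → Elementary H := by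
  induction hG with
  | profinite G hG hc =>
    intro H _ _ e
    exact Elementary.profinite H (hG.congr e) e.toHomeomorph.compactSpace
  | discrete G hG hd =>
    intro H _ _ e
    exact Elementary.discrete H (hG.congr e) e.toHomeomorph.discreteTopology
  | extension G hG N hN h1 h2 ih1 ih2 =>
    intro H _ _ e
    haveI : (N.map (e : G →* H)).Normal := Subgroup.Normal.map inferInstance _ e.surjective
    have hcl : IsClosed ((N.map (e : G →* H) : Subgroup H) : Set H) := by
      rw [Subgroup.coe_map]
      exact e.toHomeomorph.isClosedMap _ hN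
    obtain ⟨e1⟩ := nonempty_sub_congr e N (N.map (e : G →* H)) rfl
    obtain ⟨e2⟩ := nonempty_quot_congr e N (N.map (e : G →* H)) rfl
    exact Elementary.extension H (hG.congr e) (N.map (e : G →* H)) hcl (ih1 _ e1) (ih2 _ e2)
  | union G hG ι O hm ho hu h ih =>
    intro H _ _ e
    refine Elementary.union H (hG.congr e) ι (fun i => (O i).map (e : G →* H))
      (fun i j hij => Subgroup.map_mono (hm hij)) (fun i => ?_) (fun g => ?_) (fun i => ?_)
    · rw [Subgroup.coe_map]
      exact e.toHomeomorph.isOpenMap _ (ho i)
    · obtain ⟨i, hi⟩ := hu (e.symm g)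
      exact ⟨i, e.symm g, hi, e.apply_symm_apply g⟩
    · obtain ⟨e1⟩ := nonempty_sub_congr e (O i) ((O i).map (e : G →* H)) rfl
      exact ih i _ e1

theorem Elementary.congr {G H : Type} [Group G] [TopologicalSpace G] [Group H]
    [TopologicalSpace H] (e : G ≃ₜ* H) (hG : Elementary G) : Elementary H := by
  exact e01_aux G hG H e


end Pool.H87N
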