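import Pool.Agent.Lib.H87N.F01
import Pool.Agent.Lib.H87N.E01

/-!
# E02: groups with trivial residual are elementary

* `elementary_of_res_bot_cg`. Let `F` be the set of open normal subgroups (nonempty, directed,
  closed), `sInf F = Res Γ = ⊥`. With a compact open subgroup `V` (`exists_cos`) the filter lemma
  (F01) gives an open normal `N` such that `N ⊓ (V ⊔ ⊥) = N ⊓ V` is normal. This is a compact open
  normal subgroup `L` of `Γ`. `L` is profinite and `Γ ⧸ L` is discrete, so `Γ` is elementary by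
  `Elementary.extension` (`Tdlcsc.subgroup`, `Tdlcsc.quotient`).
* `elementary_of_res_bot`: without compact generation. Let `V` be a compact open subgroup. `Γ ⧸ V`
  is countable (`Γ` is second countable and the cosets are open and disjoint). Let `g 0, g 1, …` be
  a sequence of elements which meets all cosets, `O n = ⟨V, g 0, …, g (n - 1)⟩`. These are open
  compactly generated subgroups (`cg_iff` with the compact set `V ∪ {g i : i < n}`), increasing with
  union `Γ`. `Res (O n) = ⊥` by `res_eq_bot_of_injective`, so `O n` is elementary by the first part,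
  and `Γ` by `Elementary.union` with `ι = ℕ`.
-/

set_option autoImplicit false

namespace Pool.H87N

open Topology Pointwise

theorem elementary_of_res_bot_cg {Γ : Type} [Group Γ] [TopologicalSpace Γ] (hΓ : Tdlcsc Γ)
    (hcg : CG Γ) (h : Res Γ = ⊥) : Elementary Γ := by
  haveI := hΓ.tg
  obtain ⟨V, hVo, hVc, -⟩ := exists_cos hΓ (O := Set.univ) Filter.univ_mem
  obtain ⟨N, ⟨hNn, hNo⟩, hN⟩ := filter_lemma hΓ hcg V hVo hVc
    {N : Subgroup Γ | N.Normal ∧ IsOpen (N : Set Γ)}
    ⟨⊤, inferInstance, isOpen_univ⟩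
    (fun A hA B hB => ⟨A ⊓ B, ⟨haveI := hA.1; haveI := hB.1; inferInstance,
      hA.2.inter hB.2⟩, le_rfl⟩)
    (fun A hA => A.isClosed_of_isOpen hA.2) (fun A hA => hA.1)
  have h1 : sInf {N : Subgroup Γ | N.Normal ∧ IsOpen (N : Set Γ)} = ⊥ := h
  rw [h1, sup_bot_eq] at hN
  have hLo : IsOpen ((N ⊓ V : Subgroup Γ) : Set Γ) := hNo.inter hVo
  have hLc : IsCompact ((N ⊓ V : Subgroup Γ) : Set Γ) :=
    hVc.inter_left (N.isClosed_of_isOpen hNo)
  have hLcl : IsClosed ((N ⊓ V : Subgroup Γ) : Set Γ) := (N ⊓ V).isClosed_of_isOpen hLo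
  haveI := hN
  exact Elementary.extension Γ hΓ (N ⊓ V) hLcl
    (Elementary.profinite _ (hΓ.subgroup _ hLcl) (isCompact_iff_compactSpace.1 hLc))
    (Elementary.discrete _ (hΓ.quotient _ hLcl) (QuotientGroup.discreteTopology hLo))


theorem elementary_of_res_bot {Γ : Type} [Group Γ] [TopologicalSpace Γ] (hΓ : Tdlcsc Γ)
    (h : Res Γ = ⊥) : Elementary Γ := by
  haveI := hΓ.tg
  haveI := hΓ.sc
  obtain ⟨V, hVo, hVc, -⟩ := exists_cos hΓ (O := Set.univ) Filter.univ_mem
  let g : ℕ → Γ := TopologicalSpace.denseSeq Γ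
  have hg : DenseRange g := TopologicalSpace.denseRange_denseSeq Γ
  let S : ℕ → Set Γ := fun n => (V : Set Γ) ∪ g '' {i | i < n}
  let O : ℕ → Subgroup Γ := fun n => Subgroup.closure (S n)
  have hVO : ∀ n, V ≤ O n := fun n x hx => Subgroup.subset_closure (Or.inl hx)
  have hOo : ∀ n, IsOpen (O n : Set Γ) := fun n => Subgroup.isOpen_mono (hVO n) hVo
  have hSc : ∀ n, IsCompact (S n) := fun n =>
    hVc.union ((Set.finite_lt_nat n).image g).isCompact
  have hm : Monotone O := by
    intro m n hmn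
    refine Subgroup.closure_mono (Set.union_subset_union_right _ (Set.image_mono ?_))
    intro i hi
    exact lt_of_lt_of_le hi hmn
  refine Elementary.union Γ hΓ ℕ O hm hOo (fun x => ?_) (fun n => ?_)
  · have h1 : IsOpen ((fun y => x⁻¹ * y) ⁻¹' (V : Set Γ)) := hVo.preimage (continuous_const_mul x⁻¹)
    obtain ⟨n, hn⟩ := hg.exists_mem_open h1 ⟨x, by simp⟩
    refine ⟨n + 1, ?_⟩
    have h2 : x⁻¹ * g n ∈ O (n + 1) := hVO _ hn
    have h3 : g n ∈ O (n + 1) :=
      Subgroup.subset_closure (Or.inr ⟨n, Nat.lt_succ_self n, rfl⟩)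
    have h4 : x = g n * (x⁻¹ * g n)⁻¹ := by group
    rw [h4]
    exact (O (n + 1)).mul_mem h3 ((O (n + 1)).inv_mem h2)
  · refine elementary_of_res_bot_cg (hΓ.subgroup _ ((O n).isClosed_of_isOpen (hOo n)))
      ((cg_iff _).2 ⟨S n, hSc n, rfl⟩) ?_
    exact res_eq_bot_of_injective (O n).subtype continuous_subtype_val
      (O n).subtype_injective h


end Pool.H87N
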