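import Pool.Agent.Lib.H87N.E01

/-!
# E03: isomorphism theorems for topological groups

`D ≤ R` normal subgroups of a topological group `G`.
* `nonempty_iso_map`: the subgroup `R / D = R.map (mk' D)` of `G / D` is topologically isomorphic to
  `↥R ⧸ D.subgroupOf R`. The map `R → R.map (mk' D)` is continuous, surjective with kernel
  `D.subgroupOf R`, and open: an open subset of `R` is `R ∩ W` with `W` open in `G`; the image of
  `R ∩ W` in `G / D` is the intersection of the image of `W` (open, `QuotientGroup.isOpenMap_coe`)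
  with the image of `R`, because `R` is saturated (`D ≤ R`).
  So the induced bijection is a homeomorphism.
* `nonempty_iso_third`: `(G / D) / (R / D)` is topologically isomorphic to `G / R`
  (`QuotientGroup.quotientQuotientEquivQuotient`; continuity in both directions by the quotient
  topology).
-/

set_option autoImplicit false

namespace Pool.H87N

open Topology Pointwise

theorem nonempty_iso_map {G : Type} [Group G] [TopologicalSpace G] [IsTopologicalGroup G]
    (D R : Subgroup G) [D.Normal] [(D.subgroupOf R).Normal] (h : D ≤ R) :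
    Nonempty ((↥R ⧸ D.subgroupOf R) ≃ₜ* (R.map (QuotientGroup.mk' D))) := by
  let f : R →* (R.map (QuotientGroup.mk' D)) := (QuotientGroup.mk' D).subgroupMap R
  have hfs : Function.Surjective f := MonoidHom.subgroupMap_surjective _ R
  have hfval : ∀ x : R, ((f x : R.map (QuotientGroup.mk' D)) : G ⧸ D) = (x.1 : G ⧸ D) :=
    fun x => rfl
  have hker : D.subgroupOf R ≤ f.ker := by
    intro x hx
    rw [MonoidHom.mem_ker]
    apply Subtype.ext
    rw [hfval]
    exact (QuotientGroup.eq_one_iff x.1).2 hx
  let φ : (R ⧸ D.subgroupOf R) →* (R.map (QuotientGroup.mk' D)) := QuotientGroup.lift _ f hker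
  have hφ : ∀ x : R, φ (QuotientGroup.mk x) = f x := fun x => rfl
  have hφi : Function.Injective φ := by
    rw [injective_iff_map_eq_one]
    intro q hq
    obtain ⟨x, rfl⟩ := QuotientGroup.mk_surjective q
    rw [hφ] at hq
    rw [QuotientGroup.eq_one_iff]
    have h1 : ((f x : R.map (QuotientGroup.mk' D)) : G ⧸ D) = 1 := by rw [hq]; rfl
    rw [hfval] at h1
    exact (QuotientGroup.eq_one_iff x.1).1 h1
  have hφs : Function.Surjective φ := fun y => by
    obtain ⟨x, hx⟩ := hfs y
    exact ⟨QuotientGroup.mk x, hx⟩
  have hfc : Continuous f := by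
    rw [continuous_induced_rng]
    exact continuous_quotient_mk'.comp continuous_subtype_val
  have hφc : Continuous φ := isQuotientMap_quotient_mk'.continuous_iff.2 hfc
  have hfo : IsOpenMap f := by
    intro U hU
    obtain ⟨W, hW, rfl⟩ := isOpen_induced_iff.1 hU
    have h1 : f '' (Subtype.val ⁻¹' W) =
        Subtype.val ⁻¹' ((QuotientGroup.mk : G → G ⧸ D) '' W) := by
      ext y
      constructor
      · rintro ⟨x, hx, rfl⟩
        exact ⟨x.1, hx, (hfval x).symm⟩
      · rintro ⟨w, hw, hwy⟩
        obtain ⟨x, rfl⟩ := hfs y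
        rw [hfval] at hwy
        have h2 : w⁻¹ * x.1 ∈ D := QuotientGroup.eq.1 hwy
        have h3 : w ∈ R := by
          have h4 : w = x.1 * (w⁻¹ * x.1)⁻¹ := by group
          rw [h4]
          exact R.mul_mem x.2 (R.inv_mem (h h2))
        refine ⟨⟨w, h3⟩, hw, ?_⟩
        apply Subtype.ext
        rw [hfval, hfval]
        exact hwy
    rw [h1]
    exact (QuotientGroup.isOpenMap_coe W hW).preimage continuous_subtype_val
  have hφo : IsOpenMap φ := by
    intro U hU
    have h1 : φ '' U = f '' ((QuotientGroup.mk : R → R ⧸ D.subgroupOf R) ⁻¹' U) := by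
      ext y
      constructor
      · rintro ⟨q, hq, rfl⟩
        obtain ⟨x, rfl⟩ := QuotientGroup.mk_surjective q
        exact ⟨x, hq, rfl⟩
      · rintro ⟨x, hx, rfl⟩
        exact ⟨QuotientGroup.mk x, hx, rfl⟩
    rw [h1]
    exact hfo _ (hU.preimage continuous_quotient_mk')
  let e : (R ⧸ D.subgroupOf R) ≃* (R.map (QuotientGroup.mk' D)) :=
    MulEquiv.ofBijective φ ⟨hφi, hφs⟩
  let e' := e.toEquiv.toHomeomorphOfContinuousOpen hφc hφo
  exact ⟨{ e with continuous_toFun := hφc, continuous_invFun := e'.symm.continuous }⟩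


theorem nonempty_iso_third {G : Type} [Group G] [TopologicalSpace G] [IsTopologicalGroup G]
    (D R : Subgroup G) [D.Normal] [R.Normal] [(R.map (QuotientGroup.mk' D)).Normal] (h : D ≤ R) :
    Nonempty (((G ⧸ D) ⧸ (R.map (QuotientGroup.mk' D))) ≃ₜ* (G ⧸ R)) := by
  let φ : (G ⧸ D) ⧸ (R.map (QuotientGroup.mk' D)) ≃* (G ⧸ R) :=
    QuotientGroup.quotientQuotientEquivQuotient D R h
  have h1 : Continuous φ := by
    refine isQuotientMap_quotient_mk'.continuous_iff.2 ?_
    refine isQuotientMap_quotient_mk'.continuous_iff.2 ?_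
    have h2 : Continuous fun x : G => (QuotientGroup.mk x : G ⧸ R) := continuous_quotient_mk'
    exact h2
  have h3 : Continuous φ.symm := by
    refine isQuotientMap_quotient_mk'.continuous_iff.2 ?_
    have h2 : Continuous fun x : G =>
        (QuotientGroup.mk (QuotientGroup.mk x : G ⧸ D) : (G ⧸ D) ⧸ (R.map (QuotientGroup.mk' D))) :=
      continuous_quotient_mk'.comp continuous_quotient_mk'
    exact h2
  exact ⟨{ φ with continuous_toFun := h1, continuous_invFun := h3 }⟩


end Pool.H87N
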