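import Pool.Agent.Lib.H87N.X02

/-!
# X03: the rank of an extension

`xile_ker`: `φ : G → Q` a continuous homomorphism of t.d.l.c.s.c. groups with
`ξ(ker φ) ≤ n`, `ξ(Q) ≤ m`. Then `ξ(G) ≤ n + m`.

Proof by induction on `m` for all `G, Q, φ`. `m = 0`: `XiLE 0` is false. Step `m + 1`:
* `Q` trivial: then `ker φ = ⊤` and `G → ker φ` is a continuous injective homomorphism, so
  `ξ(G) ≤ n` by `xile_mono` (`ker φ` is closed, so t.d.l.c.s.c.), and `xile_le`.
* otherwise we show `ξ(G) ≤ (n + m) + 1` by the second or third rule: let `O = ⊤` (if `G` is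
  compactly generated), or `O ≤ G` open and compactly generated (if `G` is not). We must show
  `ξ(Res O) ≤ n + m` (for the first case `ξ(Res G) ≤ n + m`). It is convenient to treat both cases
  at once: let `O` be a compactly generated t.d.l.c.s.c. group and `j : O → G` an injective
  continuous homomorphism (the identity, or the inclusion of an open subgroup), `ψ = φ ∘ j : O → Q`.
  We find a t.d.l.c.s.c. group `Q'` with `ξ(Res Q') ≤ m` and a continuous homomorphism `O → Q'`
  such that the kernel on `Res O` is contained in the kernel of `ψ`: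
  - if `Q` is compactly generated and `ξ(Res Q) ≤ m`: `Q' = Q` and `ψ`;
  - if `Q` is not compactly generated: `Q' = ψ(O) ⊔ U`, `U` a compact open subgroup of `Q`; this is an
    open compactly generated subgroup of `Q` (`CG.surj`/`cg_map`, `cg_compact`, `cg_sup`), and
    `ξ(Res Q') ≤ m` by the third rule.
  By `map_mem_res` we get a continuous homomorphism `χ : Res O → Res Q'`, and its kernel has an
  injective continuous homomorphism into `ker φ`, so `ξ(ker χ) ≤ n` by `xile_mono`. By the
  induction hypothesis (`Res O`, `Res Q'` are closed subgroups, so t.d.l.c.s.c.)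
  `ξ(Res O) ≤ n + m`.
-/

set_option autoImplicit false

namespace Pool.H87N

open Topology Pointwise

theorem x03_sub {O P : Type} [Group O] [TopologicalSpace O] [Group P] [TopologicalSpace P]
    (n m : ℕ)
    (ih : ∀ {G Q : Type} [Group G] [TopologicalSpace G] [Group Q] [TopologicalSpace Q],
      Tdlcsc G → Tdlcsc Q → ∀ φ : G →* Q, Continuous φ → XiLE n φ.ker → XiLE m Q →
        XiLE (n + m) G)
    (hO : Tdlcsc O) (hP : Tdlcsc P) (ψ : O →* P) (hψ : Continuous ψ) (h1 : XiLE n ψ.ker)
    (h2 : XiLE m (Res P)) : XiLE (n + m) (Res O) := by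
  have := hO.tg; have := hP.tg; have := hO.t2; have := hP.t2
  let χ : Res O →* Res P :=
    (ψ.comp (Res O).subtype).codRestrict (Res P) (fun x => map_mem_res ψ hψ x x.2)
  have hχ : Continuous χ := (hψ.comp continuous_subtype_val).subtype_mk _
  refine ih (hO.subgroup _ res_closed) (hP.subgroup _ res_closed) χ hχ ?_ h2
  have hker : IsClosed (ψ.ker : Set O) := by
    have : (ψ.ker : Set O) = ψ ⁻¹' {1} := by
      ext x; simp [MonoidHom.mem_ker]
    rw [this]
    exact isClosed_singleton.preimage hψ
  let j : χ.ker →* ψ.ker :=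
    { toFun := fun x => ⟨(x : Res O), by
        have h := (MonoidHom.mem_ker).1 x.2
        have h' := congrArg (Subtype.val) h
        exact (MonoidHom.mem_ker).2 h'⟩
      map_one' := rfl
      map_mul' := fun _ _ => rfl }
  have hj : Continuous j :=
    (continuous_subtype_val.comp continuous_subtype_val).subtype_mk _
  refine xile_mono n (hO.subgroup _ hker) j hj ?_ h1
  intro x y hxy
  have h := congrArg (Subtype.val) hxy
  exact Subtype.ext (Subtype.ext h)

theorem x03_step {O Q : Type} [Group O] [TopologicalSpace O] [Group Q] [TopologicalSpace Q]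
    (n m : ℕ)
    (ih : ∀ {G Q : Type} [Group G] [TopologicalSpace G] [Group Q] [TopologicalSpace Q],
      Tdlcsc G → Tdlcsc Q → ∀ φ : G →* Q, Continuous φ → XiLE n φ.ker → XiLE m Q →
        XiLE (n + m) G)
    (hO : Tdlcsc O) (hcg : CG O) (hQ : Tdlcsc Q) (ψ : O →* Q) (hψ : Continuous ψ)
    (h1 : XiLE n ψ.ker)
    (h2 : (CG Q ∧ XiLE m (Res Q)) ∨
      (¬ CG Q ∧ ∀ P : Subgroup Q, IsOpen (P : Set Q) → CG P → XiLE m (Res P))) :
    XiLE (n + m) (Res O) := by
  have := hO.tg; have := hQ.tg; have := hO.t2; have := hQ.t2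
  rcases h2 with ⟨-, h2⟩ | ⟨-, h2⟩
  · exact x03_sub n m ih hO hQ ψ hψ h1 h2
  · obtain ⟨U, hUo, hUc, -⟩ := exists_cos hQ (O := Set.univ) Filter.univ_mem
    let P : Subgroup Q := (⊤ : Subgroup O).map ψ ⊔ U
    have hPo : IsOpen (P : Set Q) := Subgroup.isOpen_mono (le_sup_right : U ≤ P) hUo
    have hPc : IsClosed (P : Set Q) := P.isClosed_of_isOpen hPo
    have htop : CG (⊤ : Subgroup O) := by
      rw [cg_iff]
      exact hcg
    have hP : CG P := cg_sup _ _ (cg_map ψ hψ ⊤ htop) (cg_compact U hUc)
    have hmem : ∀ x, ψ x ∈ P := fun x =>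
      (le_sup_left : (⊤ : Subgroup O).map ψ ≤ P) ⟨x, Subgroup.mem_top x, rfl⟩
    let ψ' : O →* P := ψ.codRestrict P hmem
    have hψ' : Continuous ψ' := hψ.subtype_mk _
    refine x03_sub n m ih hO (hQ.subgroup P hPc) ψ' hψ' ?_ (h2 P hPo hP)
    have hk : ψ'.ker = ψ.ker := by
      ext x
      rw [MonoidHom.mem_ker, MonoidHom.mem_ker]
      constructor
      · intro h; exact congrArg Subtype.val h
      · intro h; exact Subtype.ext h
    rw [hk]
    exact h1

theorem xile_ker (n m : ℕ) {G Q : Type} [Group G] [TopologicalSpace G] [Group Q]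
    [TopologicalSpace Q] (hG : Tdlcsc G) (hQ : Tdlcsc Q) (φ : G →* Q) (hφ : Continuous φ)
    (h1 : XiLE n φ.ker) (h2 : XiLE m Q) : XiLE (n + m) G := by
  induction m generalizing G Q with
  | zero => exact absurd h2 (by simp [XiLE])
  | succ m ih =>
    have := hG.tg; have := hQ.tg; have := hG.t2; have := hQ.t2
    have hker : IsClosed (φ.ker : Set G) := by
      have : (φ.ker : Set G) = φ ⁻¹' {1} := by
        ext x; simp [MonoidHom.mem_ker]
      rw [this]
      exact isClosed_singleton.preimage hφ
    rcases h2 with hs | h2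
    · -- `Q` trivial
      have hmem : ∀ x : G, x ∈ φ.ker := fun x => MonoidHom.mem_ker.2 (Subsingleton.elim _ _)
      let j : G →* φ.ker :=
        { toFun := fun x => ⟨x, hmem x⟩
          map_one' := rfl
          map_mul' := fun _ _ => rfl }
      have hj : Continuous j := continuous_id.subtype_mk _
      refine xile_le (Nat.le_add_right n (m + 1)) (xile_mono n (hG.subgroup _ hker) j hj ?_ h1)
      intro x y hxy
      exact congrArg Subtype.val hxy
    · by_cases hcg : CG G
      · exact Or.inr (Or.inl ⟨hcg, x03_step n m (fun {_ _} _ _ _ _ a b c d e f => ih a b c d e f)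
          hG hcg hQ φ hφ h1 h2⟩)
      · refine Or.inr (Or.inr ⟨hcg, fun O hO hOc => ?_⟩)
        have hOcl : IsClosed (O : Set G) := O.isClosed_of_isOpen hO
        let ψ : O →* Q := φ.comp O.subtype
        have hψ : Continuous ψ := hφ.comp continuous_subtype_val
        refine x03_step n m (fun {_ _} _ _ _ _ a b c d e f => ih a b c d e f)
          (hG.subgroup O hOcl) hOc hQ ψ hψ ?_ h2
        let j : ψ.ker →* φ.ker :=
          { toFun := fun x => ⟨(x : O), by
              have h := (MonoidHom.mem_ker).1 x.2
              exact (MonoidHom.mem_ker).2 h⟩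
            map_one' := rfl
            map_mul' := fun _ _ => rfl }
        have hj : Continuous j :=
          (continuous_subtype_val.comp continuous_subtype_val).subtype_mk _
        refine xile_mono n (hG.subgroup _ hker) j hj ?_ h1
        intro x y hxy
        have h := congrArg (Subtype.val) hxy
        exact Subtype.ext (Subtype.ext h)

end Pool.H87N
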