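import Pool.Agent.Lib.H87N.E06
import Pool.Agent.Lib.H87N.E03
import Pool.Agent.Lib.H87N.X03

/-!
# E04: the class `FinRank`

* `FinRank.congr`: `Elementary.congr` and `xile_mono` (for the inverse isomorphism).
* `FinRank.extension`: `Elementary.extension` and `xile_ker` for `φ = QuotientGroup.mk' N`
  (`QuotientGroup.ker_mk'`).
* `FinRank.mono`: `Elementary.mono` and `xile_mono`.
* `finRank_of_res_bot`: `elementary_of_res_bot` and `xile_of_res_bot`.
* `finRank_of_compact`: `res_eq_bot_of_compact`, `Elementary.profinite`.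
* `FinRank.ext_quot`: `D ≤ R` closed normal in `G`, `FinRank (R / D)` and `FinRank (G / R)` imply
  `FinRank (G / D)`: in `G / D` the subgroup `R.map (mk' D)` is closed (its preimage is `R`; the
  quotient map is a quotient map) and normal (`Subgroup.Normal.map`), `FinRank` of it by
  `nonempty_iso_map`, the quotient by `nonempty_iso_third`.
-/

set_option autoImplicit false

namespace Pool.H87N

open Topology Pointwise

theorem FinRank.congr {G H : Type} [Group G] [TopologicalSpace G] [Group H]
    [TopologicalSpace H] (e : G ≃ₜ* H) (hG : Tdlcsc G) (h : FinRank G) : FinRank H := by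
  obtain ⟨h1, n, hn⟩ := h
  refine ⟨h1.congr e, n, xile_mono n hG (e.symm : H →* G) ?_ ?_ hn⟩
  · exact e.symm.continuous
  · exact e.symm.injective

theorem FinRank.extension {G : Type} [Group G] [TopologicalSpace G] (hG : Tdlcsc G)
    (N : Subgroup G) [N.Normal] (hN : IsClosed (N : Set G)) (h1 : FinRank N)
    (h2 : FinRank (G ⧸ N)) : FinRank G := by
  obtain ⟨a1, n, hn⟩ := h1
  obtain ⟨a2, m, hm⟩ := h2
  have := hG.tg
  refine ⟨Elementary.extension G hG N hN a1 a2, n + m,
    xile_ker n m hG (hG.quotient N hN) (QuotientGroup.mk' N) continuous_quot_mk ?_ hm⟩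
  rw [QuotientGroup.ker_mk']
  exact hn

theorem FinRank.mono {G L : Type} [Group G] [TopologicalSpace G] [Group L] [TopologicalSpace L]
    (hG : Tdlcsc G) (hL : Tdlcsc L) (f : L →* G) (hf : Continuous f) (hi : Function.Injective f)
    (h : FinRank G) : FinRank L := by
  obtain ⟨h1, n, hn⟩ := h
  exact ⟨h1.mono hL f hf hi, n, xile_mono n hG f hf hi hn⟩

theorem finRank_of_res_bot {G : Type} [Group G] [TopologicalSpace G] (hG : Tdlcsc G)
    (h : Res G = ⊥) : FinRank G :=
  ⟨elementary_of_res_bot hG h, 2, xile_of_res_bot h⟩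

theorem finRank_of_compact {G : Type} [Group G] [TopologicalSpace G] (hG : Tdlcsc G)
    (hc : CompactSpace G) : FinRank G :=
  ⟨Elementary.profinite G hG hc, 2, xile_of_res_bot (res_eq_bot_of_compact hG hc)⟩

theorem FinRank.ext_quot {G : Type} [Group G] [TopologicalSpace G] (hG : Tdlcsc G)
    (D R : Subgroup G) [D.Normal] [R.Normal] [(D.subgroupOf R).Normal] (h : D ≤ R)
    (hD : IsClosed (D : Set G)) (hR : IsClosed (R : Set G)) (h1 : FinRank (↥R ⧸ D.subgroupOf R))
    (h2 : FinRank (G ⧸ R)) : FinRank (G ⧸ D) := by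
  have := hG.tg
  have hM : (R.map (QuotientGroup.mk' D)).Normal :=
    Subgroup.Normal.map inferInstance _ (QuotientGroup.mk'_surjective D)
  have hpre : ((QuotientGroup.mk : G → G ⧸ D) ⁻¹' (R.map (QuotientGroup.mk' D) : Set (G ⧸ D))) =
      (R : Set G) := by
    ext g
    constructor
    · rintro ⟨r, hr, hrg⟩
      have h3 : r⁻¹ * g ∈ D := QuotientGroup.eq.1 hrg
      have h4 := R.mul_mem hr (h h3)
      rwa [mul_inv_cancel_left] at h4
    · intro hg
      exact ⟨g, hg, rfl⟩
  have hMc : IsClosed (R.map (QuotientGroup.mk' D) : Set (G ⧸ D)) := by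
    rw [← (QuotientGroup.isQuotientMap_mk (N := D)).isClosed_preimage, hpre]
    exact hR
  obtain ⟨e1⟩ := nonempty_iso_map D R h
  obtain ⟨e2⟩ := nonempty_iso_third D R h
  have hDc : IsClosed ((D.subgroupOf R : Subgroup ↥R) : Set ↥R) := hD.preimage continuous_subtype_val
  exact FinRank.extension (hG.quotient D hD) _ hMc
    (h1.congr e1 ((hG.subgroup R hR).quotient _ hDc)) (h2.congr e2.symm (hG.quotient R hR))

end Pool.H87N
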