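import Pool.Agent.Lib.H87N.E04

/-!
# E05: the relative version of the extension theorem

Apply `FinRank.ext_quot` to the group `↥H` (closed in `G`, so t.d.l.c.s.c.) and its subgroups
`D.subgroupOf H ≤ R.subgroupOf H`. The group `↥(R.subgroupOf H) ⧸ (D.subgroupOf H).subgroupOf _` is
topologically isomorphic to `↥R ⧸ D.subgroupOf R`: `Subgroup.subgroupOfEquivOfLe` is a homeomorphism
`↥(R.subgroupOf H) ≃ ↥R` (both have the topology of `G`), and `nonempty_quot_congr` (E01).
-/

set_option autoImplicit false

namespace Pool.H87N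

open Topology Pointwise

/-- `R`, seen as a subgroup of `H ≥ R`. -/
noncomputable def e05_equiv {G : Type} [Group G] [TopologicalSpace G] (R H : Subgroup G) (hRH : R ≤ H) :
    ↥R ≃ₜ* ↥(R.subgroupOf H) where
  toMulEquiv := (Subgroup.subgroupOfEquivOfLe hRH).symm
  continuous_toFun := by
    refine Continuous.subtype_mk (Continuous.subtype_mk continuous_subtype_val _) _
  continuous_invFun := by
    refine Continuous.subtype_mk (continuous_subtype_val.comp continuous_subtype_val) _

theorem frq_of_chain {G : Type} [Group G] [TopologicalSpace G] (hG : Tdlcsc G)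
    (D R H : Subgroup G) (hDR : D ≤ R) (hRH : R ≤ H) (hD : IsClosed (D : Set G))
    (hR : IsClosed (R : Set G)) (hH : IsClosed (H : Set G)) (hDn : (D.subgroupOf H).Normal)
    (h1 : FRQ D R) (h2 : FRQ R H) : FRQ D H := by
  have := hG.tg
  obtain ⟨n1, f1⟩ := h1
  obtain ⟨n2, f2⟩ := h2
  refine ⟨hDn, ?_⟩
  have hmap : (D.subgroupOf R).map (e05_equiv R H hRH : ↥R →* ↥(R.subgroupOf H)) =
      (D.subgroupOf H).subgroupOf (R.subgroupOf H) := by
    ext x
    constructor
    · rintro ⟨r, hr, rfl⟩
      exact hr
    · intro hx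
      refine ⟨(e05_equiv R H hRH).symm x, ?_, (e05_equiv R H hRH).apply_symm_apply x⟩
      exact hx
  have n3 : ((D.subgroupOf H).subgroupOf (R.subgroupOf H)).Normal := inferInstance
  obtain ⟨e⟩ := nonempty_quot_congr (e05_equiv R H hRH) (D.subgroupOf R)
    ((D.subgroupOf H).subgroupOf (R.subgroupOf H)) hmap
  have hDRc : IsClosed ((D.subgroupOf R : Subgroup ↥R) : Set ↥R) := hD.preimage continuous_subtype_val
  refine FinRank.ext_quot (hG.subgroup H hH) (D.subgroupOf H) (R.subgroupOf H) ?_
    (hD.preimage continuous_subtype_val) (hR.preimage continuous_subtype_val)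
    (f1.congr e ((hG.subgroup R hR).quotient _ hDRc)) f2
  intro x hx
  exact hDR hx

end Pool.H87N
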