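import Pool.Agent.Lib.H87N.E02

/-!
# E06: closed subgroups of elementary groups are elementary

More generally: if `L` is t.d.l.c.s.c. and `f : L →* G` is injective and continuous and `G` is
elementary, then `L` is elementary. Induction on `h : Elementary G` for all `L`, `f`.
* profinite: `Res G = ⊥` by `res_eq_bot_of_compact`, so `Res L = ⊥` by `res_eq_bot_of_injective`, and
  `L` is elementary by `elementary_of_res_bot`.
* discrete: `L` is discrete (`f` is injective and continuous, `{1}` is the preimage of `{1}`).
* extension (`N`): `N' = N.comap f` is closed and normal in `L`; `f` restricts to an injective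
  continuous homomorphism `N' → N` and induces an injective continuous homomorphism
  `L ⧸ N' → G ⧸ N` (`QuotientGroup.map` or `QuotientGroup.lift`; the kernel is `N'`). Both are
  elementary by the induction hypotheses, use `Elementary.extension`.
* union (`O i`): `O' i = (O i).comap f`, with the restrictions `O' i → O i`.
-/

set_option autoImplicit false

namespace Pool.H87N

open Topology Pointwise

theorem Elementary.mono {G : Type} [Group G] [TopologicalSpace G] (hG : Elementary G)
    {L : Type} [Group L] [TopologicalSpace L] (hL : Tdlcsc L) (f : L →* G) (hf : Continuous f)
    (hi : Function.Injective f) : Elementary L := by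
  revert L
  induction hG with
  | profinite G hG hc =>
    intro L _ _ hL f hf hi
    exact elementary_of_res_bot hL (res_eq_bot_of_injective f hf hi (res_eq_bot_of_compact hG hc))
  | discrete G hG hd =>
    intro L _ _ hL f hf hi
    exact Elementary.discrete L hL (DiscreteTopology.of_continuous_injective hf hi)
  | extension G hG N hN h1 h2 ih1 ih2 =>
    intro L _ _ hL f hf hi
    have := hG.tg; have := hL.tg
    have hN' : IsClosed ((N.comap f : Subgroup L) : Set L) := hN.preimage hf
    refine Elementary.extension L hL (N.comap f) hN' ?_ ?_
    · let j : (N.comap f) →* N :=
        { toFun := fun x => ⟨f (x : L), x.2⟩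
          map_one' := Subtype.ext (map_one f)
          map_mul' := fun x y => Subtype.ext (map_mul f (x : L) (y : L)) }
      have hj : Continuous j := (hf.comp continuous_subtype_val).subtype_mk _
      refine ih1 (hL.subgroup _ hN') j hj ?_
      intro x y hxy
      exact Subtype.ext (hi (congrArg Subtype.val hxy))
    · let j : (L ⧸ N.comap f) →* (G ⧸ N) := QuotientGroup.map (N.comap f) N f le_rfl
      have hj : Continuous j := by
        refine continuous_quot_lift _ ?_
        exact QuotientGroup.continuous_mk.comp hf
      refine ih2 (hL.quotient _ hN') j hj ?_
      rw [injective_iff_map_eq_one]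
      intro x
      induction x using QuotientGroup.induction_on with
      | H x =>
        intro hx
        rw [QuotientGroup.eq_one_iff]
        have h3 : ((f x : G) : G ⧸ N) = 1 := hx
        rw [QuotientGroup.eq_one_iff] at h3
        exact h3
  | union G hG ι O hm ho hu h ih =>
    intro L _ _ hL f hf hi
    have := hG.tg; have := hL.tg
    refine Elementary.union L hL ι (fun i => (O i).comap f) ?_ ?_ ?_ ?_
    · intro i j hij
      exact Subgroup.comap_mono (hm hij)
    · intro i
      exact (ho i).preimage hf
    · intro g
      exact hu (f g)
    · intro i
      have hO' : IsClosed (((O i).comap f : Subgroup L) : Set L) :=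
        Subgroup.isClosed_of_isOpen _ ((ho i).preimage hf)
      let j : ((O i).comap f) →* (O i) :=
        { toFun := fun x => ⟨f (x : L), x.2⟩
          map_one' := Subtype.ext (map_one f)
          map_mul' := fun x y => Subtype.ext (map_mul f (x : L) (y : L)) }
      have hj : Continuous j := (hf.comp continuous_subtype_val).subtype_mk _
      refine ih i (hL.subgroup _ hO') j hj ?_
      intro x y hxy
      exact Subtype.ext (hi (congrArg Subtype.val hxy))

end Pool.H87N
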