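import Pool.Agent.Lib.H87N.B01

/-!
# F01: the filter lemma (Caprace-Monod)

`Γ` compactly generated t.d.l.c.s.c., `V` a compact open subgroup, `F` a nonempty downwards directed
family of closed normal subgroups with intersection `M`. Then for some `N ∈ F` the subgroup
`N ∩ V M` is normal in `Γ`.

Proof. By `CG.exists_finite` (`D = univ`) there is a finite set `S` with `Γ = ⟨V, S⟩`. Let
`V₁ = V ∩ ⋂_{s ∈ S} (s V s⁻¹ ∩ s⁻¹ V s)`, an open subgroup. `V₁ ⊔ M = V₁ M` is an open subgroup,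
and `V ⊔ M = V M`.
(1) There is `N ∈ F` with `N ∩ V ⊆ V₁ M`: the sets `C_N = (N ∩ V) \ V₁ M` (`N ∈ F`) are compact
(closed subsets of `V`), directed downwards, and their intersection is `(M ∩ V) \ V₁ M = ∅`. Use
`IsCompact.inter_iInter_nonempty` or `IsCompact.nonempty_iInter_of_directed_nonempty_isCompact_isClosed`.
(2) Fix this `N` and put `L = N ∩ V M`. As `M ≤ N`, `L = (N ∩ V) M` (`x ∈ N`, `x = v m`, then
`v = x m⁻¹ ∈ N ∩ V`). So `L ≤ V₁ M ≤ s V s⁻¹ M = s (V M) s⁻¹` for `s ∈ S ∪ S⁻¹` (`M` is normal), and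
`L ≤ N = s N s⁻¹`, so `L ≤ s L s⁻¹`. For `s` and `s⁻¹` this gives `s L s⁻¹ = L`. For `v ∈ V` also
`v L v⁻¹ = L`, because `N`, `M` are normal and `v V v⁻¹ = V`. So the normaliser of `L` contains
`⟨V, S⟩ = Γ` (`Subgroup.normalizer_eq_top_iff`).
-/

set_option autoImplicit false

namespace Pool.H87N

open Topology Pointwise

/-- The modular law used in (2). -/
theorem inf_sup_modular {Γ : Type} [Group Γ] (N V M : Subgroup Γ) [M.Normal] (h : M ≤ N) :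
    N ⊓ (V ⊔ M) = (N ⊓ V) ⊔ M := by
  refine le_antisymm ?_ (le_inf (sup_le inf_le_left h) (sup_le_sup_right inf_le_right _))
  rintro x ⟨hxN, hx⟩
  have hx' : x ∈ ((V ⊔ M : Subgroup Γ) : Set Γ) := hx
  rw [Subgroup.mul_normal] at hx'
  obtain ⟨v, hv, m, hm, rfl⟩ := hx'
  refine Subgroup.mul_mem_sup ⟨?_, hv⟩ hm
  have h1 : v * m ∈ N := hxN
  have h2 : v = (v * m) * m⁻¹ := by group
  change v ∈ N
  rw [h2]
  exact mul_mem h1 (inv_mem (h hm))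

theorem filter_lemma {Γ : Type} [Group Γ] [TopologicalSpace Γ] (hΓ : Tdlcsc Γ) (hcg : CG Γ)
    (V : Subgroup Γ) (hVo : IsOpen (V : Set Γ)) (hVc : IsCompact (V : Set Γ))
    (F : Set (Subgroup Γ)) (hF : F.Nonempty) (hdir : ∀ A ∈ F, ∀ B ∈ F, ∃ C ∈ F, C ≤ A ⊓ B)
    (hcl : ∀ A ∈ F, IsClosed (A : Set Γ)) (hn : ∀ A ∈ F, A.Normal) :
    ∃ N ∈ F, (N ⊓ (V ⊔ sInf F)).Normal := by
  have := hΓ.tg
  obtain ⟨S, -, hS⟩ := hcg.exists_finite V hVo Set.univ dense_univ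
  set M : Subgroup Γ := sInf F with hM
  have hMn : M.Normal :=
    ⟨fun n hn' g => Subgroup.mem_sInf.2 fun A hA =>
      (hn A hA).conj_mem n (Subgroup.mem_sInf.1 hn' A hA) g⟩
  -- the group `V₁`
  set V₁ : Subgroup Γ := V ⊓ ⨅ s ∈ S, (V.comap (MulAut.conj s).toMonoidHom ⊓
    V.comap (MulAut.conj s⁻¹).toMonoidHom) with hV₁
  have hV₁o : IsOpen (V₁ : Set Γ) := by
    rw [hV₁, Subgroup.coe_inf, Subgroup.coe_iInf]
    refine hVo.inter ?_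
    have h1 : (⋂ s, ((⨅ (_ : s ∈ S), (V.comap (MulAut.conj s).toMonoidHom ⊓
        V.comap (MulAut.conj s⁻¹).toMonoidHom) : Subgroup Γ) : Set Γ))
        = ⋂ s ∈ S, ({x | s * x * s⁻¹ ∈ V} ∩ {x | s⁻¹ * x * s⁻¹⁻¹ ∈ V}) := by
      refine Set.iInter_congr fun s => ?_
      rw [Subgroup.coe_iInf]
      rfl
    rw [h1]
    refine isOpen_biInter_finset fun s _ => ?_
    refine IsOpen.inter ?_ ?_
    · exact hVo.preimage (f := fun x => s * x * s⁻¹) (by fun_prop)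
    · exact hVo.preimage (f := fun x => s⁻¹ * x * s⁻¹⁻¹) (by fun_prop)
  have hVM : IsOpen ((V₁ ⊔ M : Subgroup Γ) : Set Γ) := Subgroup.isOpen_mono le_sup_left hV₁o
  -- (1)
  have h1 : ∃ N ∈ F, (N ⊓ V : Subgroup Γ) ≤ V₁ ⊔ M := by
    have : Nonempty F := hF.to_subtype
    obtain ⟨⟨N, hN⟩, hNe⟩ := (hVc.diff hVM).elim_directed_family_closed
      (fun i : F => ((i : Subgroup Γ) : Set Γ))
      (fun i => hcl i.1 i.2) (by
        rw [Set.eq_empty_iff_forall_notMem]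
        rintro x ⟨⟨_, hx2⟩, hx3⟩
        apply hx2
        apply Subgroup.mem_sup_right
        refine Subgroup.mem_sInf.2 fun A hA => ?_
        exact Set.mem_iInter.1 hx3 ⟨A, hA⟩) (by
        rintro ⟨A, hA⟩ ⟨B, hB⟩
        obtain ⟨C, hC, hCAB⟩ := hdir A hA B hB
        exact ⟨⟨C, hC⟩, fun x hx => (hCAB hx).1, fun x hx => (hCAB hx).2⟩)
    refine ⟨N, hN, fun x hx => ?_⟩
    by_contra hcon
    have : x ∈ ((V : Set Γ) \ ((V₁ ⊔ M : Subgroup Γ) : Set Γ)) ∩ (N : Set Γ) :=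
      ⟨⟨hx.2, hcon⟩, hx.1⟩
    rw [hNe] at this
    exact this
  obtain ⟨N, hN, hNV⟩ := h1
  refine ⟨N, hN, ?_⟩
  have hMN : M ≤ N := sInf_le hN
  have hNn := hn N hN
  have hL : N ⊓ (V ⊔ M) ≤ V₁ ⊔ M := by
    rw [inf_sup_modular N V M hMN]
    exact sup_le hNV le_sup_right
  -- invariance
  have hinv : ∀ x : Γ, (x ∈ V ∨ x ∈ S) → (∀ y ∈ N ⊓ (V ⊔ M), x * y * x⁻¹ ∈ N ⊓ (V ⊔ M)) ∧
      (∀ y ∈ N ⊓ (V ⊔ M), x⁻¹ * y * x⁻¹⁻¹ ∈ N ⊓ (V ⊔ M)) := by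
    rintro x (hx | hx)
    · have hx' : x ∈ V ⊔ M := Subgroup.mem_sup_left hx
      refine ⟨fun y hy => ⟨hNn.conj_mem y hy.1 x, ?_⟩, fun y hy => ⟨hNn.conj_mem y hy.1 x⁻¹, ?_⟩⟩
      · exact (V ⊔ M).mul_mem ((V ⊔ M).mul_mem hx' hy.2) ((V ⊔ M).inv_mem hx')
      · exact (V ⊔ M).mul_mem ((V ⊔ M).mul_mem ((V ⊔ M).inv_mem hx') hy.2)
          ((V ⊔ M).inv_mem ((V ⊔ M).inv_mem hx'))
    · refine ⟨fun y hy => ⟨hNn.conj_mem y hy.1 x, ?_⟩, fun y hy => ⟨hNn.conj_mem y hy.1 x⁻¹, ?_⟩⟩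
      · have hy' : y ∈ ((V₁ ⊔ M : Subgroup Γ) : Set Γ) := hL hy
        rw [Subgroup.mul_normal] at hy'
        obtain ⟨v, hv, m, hm, rfl⟩ := hy'
        have hv' : x * v * x⁻¹ ∈ V := by
          have h3 := (Subgroup.mem_inf.1 hv).2
          rw [Subgroup.mem_iInf] at h3
          have h4 := h3 x
          rw [Subgroup.mem_iInf] at h4
          exact (h4 hx).1
        have h5 : x * (v * m) * x⁻¹ = (x * v * x⁻¹) * (x * m * x⁻¹) := by group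
        change x * (v * m) * x⁻¹ ∈ V ⊔ M
        rw [h5]
        exact Subgroup.mul_mem_sup hv' (hMn.conj_mem m hm x)
      · have hy' : y ∈ ((V₁ ⊔ M : Subgroup Γ) : Set Γ) := hL hy
        rw [Subgroup.mul_normal] at hy'
        obtain ⟨v, hv, m, hm, rfl⟩ := hy'
        have hv' : x⁻¹ * v * x⁻¹⁻¹ ∈ V := by
          have h3 := (Subgroup.mem_inf.1 hv).2
          rw [Subgroup.mem_iInf] at h3
          have h4 := h3 x
          rw [Subgroup.mem_iInf] at h4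
          exact (h4 hx).2
        have h5 : x⁻¹ * (v * m) * x⁻¹⁻¹ = (x⁻¹ * v * x⁻¹⁻¹) * (x⁻¹ * m * x⁻¹⁻¹) := by group
        change x⁻¹ * (v * m) * x⁻¹⁻¹ ∈ V ⊔ M
        rw [h5]
        exact Subgroup.mul_mem_sup hv' (hMn.conj_mem m hm x⁻¹)
  rw [← Subgroup.normalizer_eq_top_iff, ← top_le_iff, ← hS, Subgroup.closure_le]
  intro x hx
  have hx' : x ∈ V ∨ x ∈ S := hx
  change x ∈ Subgroup.normalizer ((N ⊓ (V ⊔ M) : Subgroup Γ) : Set Γ)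
  rw [Subgroup.mem_normalizer_iff]
  intro y
  refine ⟨fun hy => (hinv x hx').1 y hy, fun hy => ?_⟩
  have h6 := (hinv x hx').2 _ hy
  have h7 : x⁻¹ * (x * y * x⁻¹) * x⁻¹⁻¹ = y := by group
  rwa [h7] at h6

end Pool.H87N
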