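import Pool.Agent.Lib.H87N.A02

/-!
# F02: dense quasi-centre

`S` compactly generated t.d.l.c.s.c., `D` a dense subset all of whose elements have open
centraliser. Then `S` has a compact open normal subgroup.

Proof. Let `V` be a compact open subgroup (`exists_cos`). By `CG.exists_finite` there is a finite
`F ⊆ D` with `S = ⟨V, F⟩`. `V' = V ∩ ⋂_{q ∈ F} C_S(q)` is an open subgroup. `W = ⋂_{v ∈ V} v V' v⁻¹`
is an open subgroup (`V` is compact and `V' ≤ V` open, so there are finitely many conjugates; see
`H69.Tdlc.exists_invariant` with `U = V`, `W = V'`), contained in `V'`, and normalised by `V`. It is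
centralised, hence normalised, by all `q ∈ F`. So its normaliser is `S`. It is compact (closed in
`V`).
-/

set_option autoImplicit false

namespace Pool.H87N

open Topology Pointwise

theorem exists_compact_open_normal {S : Type} [Group S] [TopologicalSpace S] (hS : Tdlcsc S)
    (hcg : CG S) (D : Set S) (hD : Dense D)
    (hq : ∀ q ∈ D, IsOpen ((Subgroup.centralizer {q} : Subgroup S) : Set S)) :
    ∃ W : Subgroup S, W.Normal ∧ IsOpen (W : Set S) ∧ IsCompact (W : Set S) := by
  have := hS.tg
  obtain ⟨V, hVo, hVc, -⟩ := exists_cos hS (O := Set.univ) Filter.univ_mem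
  obtain ⟨F, hFD, hF⟩ := hcg.exists_finite V hVo D hD
  have hV'o : IsOpen ((⨅ q ∈ F, Subgroup.centralizer {q} : Subgroup S) : Set S) := by
    have h1 : ((⨅ q ∈ F, Subgroup.centralizer {q} : Subgroup S) : Set S)
        = ⋂ q ∈ F, ((Subgroup.centralizer {q} : Subgroup S) : Set S) := by
      rw [Subgroup.coe_iInf]
      refine Set.iInter_congr fun s => ?_
      rw [Subgroup.coe_iInf]
    rw [h1]
    exact isOpen_biInter_finset fun q hqF => hq q (hFD hqF)
  obtain ⟨W, hWo, hWV', hWV, hinv⟩ := Pool.Agent.Lib.H69.Tdlc.exists_invariant hVc hVo hV'o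
  have hcent : ∀ q ∈ F, ∀ y ∈ W, q * y = y * q := by
    intro q hqF y hy
    have h1 := hWV' hy
    rw [Subgroup.mem_iInf] at h1
    have h2 := h1 q
    rw [Subgroup.mem_iInf] at h2
    exact Subgroup.mem_centralizer_iff.1 (h2 hqF) q rfl
  refine ⟨W, ?_, hWo, ?_⟩
  · rw [← Subgroup.normalizer_eq_top_iff, ← top_le_iff, ← hF, Subgroup.closure_le]
    rintro x (hx | hx)
    · change x ∈ Subgroup.normalizer (W : Set S)
      rw [Subgroup.mem_normalizer_iff]
      intro y
      have h1 : x * y * x⁻¹ ∈ Pool.Agent.Lib.H69.Tdlc.cj x W ↔ y ∈ W := by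
        rw [Pool.Agent.Lib.H69.Tdlc.mem_cj]
        have : x⁻¹ * (x * y * x⁻¹) * x = y := by group
        rw [this]
      rw [hinv x hx] at h1
      exact h1.symm
    · change x ∈ Subgroup.normalizer (W : Set S)
      rw [Subgroup.mem_normalizer_iff]
      intro y
      constructor
      · intro hy
        rw [hcent x hx y hy, mul_inv_cancel_right]
        exact hy
      · intro hy
        have h1 := hcent x hx _ hy
        have h2 : y = x * y * x⁻¹ := by
          have h3 : x * (x * y * x⁻¹) = x * y := by rw [h1]; group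
          exact (mul_left_cancel h3).symm
        rw [h2]
        exact hy
  · exact hVc.of_isClosed_subset (Subgroup.isClosed_of_isOpen W hWo) hWV

end Pool.H87N
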