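import Pool.Agent.Lib.H87N.B02

/-!
# F03: maximal closed normal subgroups

`Γ` compactly generated t.d.l.c.s.c. with `Res Γ = ⊤`.

* `closure_sSup_ne_top`: if `c` is a nonempty chain of closed normal subgroups `≠ ⊤` then the closure
  of `⋃ c` is `≠ ⊤`. Proof. Suppose that `D = ⋃_{N ∈ c} N` is dense. Let `V` be a compact open
  subgroup. By `CG.exists_finite` there is a finite set `F ⊆ D` with `Γ = ⟨V, F⟩`; as `c` is a
  chain, `F ⊆ N` for some `N ∈ c`. So `Γ = V ⊔ N = V N` (`N` normal), and `Γ ⧸ N` is compact (image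
  of `V`). By `compact_quotient_eq_top` `N = ⊤`, a contradiction.
* `exists_maximal`: every closed normal `E ≠ ⊤` is contained in a closed normal `N` with
  `Γ ⧸ N ∈ 𝒮`. By Zorn's lemma (`zorn_le_nonempty₀` or `zorn_subset`..) and the first part there is a
  maximal closed normal subgroup `N ≠ ⊤` with `E ≤ N` (upper bound of a nonempty chain: the
  topological closure of its union, which is normal). `Γ ⧸ N` is t.d.l.c.s.c. (`Tdlcsc.quotient`),
  compactly generated (`CG.surj`), not discrete (otherwise `N` is open normal, so `N = ⊤` by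
  `open_normal_eq_top`), and a closed normal subgroup `A` of it has preimage `N` or `⊤`, i.e.
  `A = ⊥` or `A = ⊤`.
-/

set_option autoImplicit false

namespace Pool.H87N

open Topology Pointwise

theorem closure_sSup_ne_top {Γ : Type} [Group Γ] [TopologicalSpace Γ] (hΓ : Tdlcsc Γ)
    (hcg : CG Γ) (hres : Res Γ = ⊤) (c : Set (Subgroup Γ)) (hc : IsChain (· ≤ ·) c)
    (hne : c.Nonempty) (h : ∀ N ∈ c, N.Normal ∧ IsClosed (N : Set Γ) ∧ N ≠ ⊤) :
    closure (⋃ N ∈ c, (N : Set Γ)) ≠ Set.univ := by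
  intro hd
  have := hΓ.tg
  have hD : Dense (⋃ N ∈ c, (N : Set Γ)) := dense_iff_closure_eq.2 hd
  obtain ⟨V, hVo, hVc, -⟩ := exists_cos hΓ Filter.univ_mem
  obtain ⟨F, hF, hFt⟩ := hcg.exists_finite V hVo _ hD
  have hdir : DirectedOn (fun i j : Subgroup Γ => (i : Set Γ) ⊆ (j : Set Γ)) c :=
    hc.directedOn
  obtain ⟨N, hN, hFN⟩ := DirectedOn.exists_mem_subset_of_finset_subset_biUnion hne hdir hF
  obtain ⟨hNn, hNc, hNt⟩ := h N hN
  apply hNt
  have htop : V ⊔ N = ⊤ := by
    rw [← top_le_iff, ← hFt, Subgroup.closure_le]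
    rintro x (hx | hx)
    · exact Subgroup.mem_sup_left hx
    · exact Subgroup.mem_sup_right (hFN hx)
  refine compact_quotient_eq_top hΓ hres N hNc ⟨?_⟩
  have himg : (QuotientGroup.mk '' (V : Set Γ) : Set (Γ ⧸ N)) = Set.univ := by
    rw [Set.eq_univ_iff_forall]
    intro q
    obtain ⟨g, rfl⟩ := QuotientGroup.mk_surjective q
    have hg : g ∈ ((V ⊔ N : Subgroup Γ) : Set Γ) := by rw [htop]; trivial
    rw [Subgroup.mul_normal] at hg
    obtain ⟨v, hv, n, hn, rfl⟩ := hg
    refine ⟨v, hv, ?_⟩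
    rw [QuotientGroup.eq]
    simpa using hn
  rw [← himg]
  exact hVc.image QuotientGroup.continuous_mk

theorem exists_maximal {Γ : Type} [Group Γ] [TopologicalSpace Γ] (hΓ : Tdlcsc Γ)
    (hcg : CG Γ) (hres : Res Γ = ⊤) (E : Subgroup Γ) (hEn : E.Normal) (hEc : IsClosed (E : Set Γ))
    (hE : E ≠ ⊤) :
    ∃ N : Subgroup Γ, E ≤ N ∧ IsClosed (N : Set Γ) ∧ ∃ _ : N.Normal, ClassS (Γ ⧸ N) := by
  have := hΓ.tg
  obtain ⟨N, hEN, hNmax⟩ := zorn_le_nonempty₀
    {N : Subgroup Γ | N.Normal ∧ IsClosed (N : Set Γ) ∧ N ≠ ⊤} (by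
      intro c hcs hc y hy
      have hne : c.Nonempty := ⟨y, hy⟩
      have hU : (sSup c).Normal := Subgroup.sSup_normal c (fun H hH => (hcs hH).1)
      have hcoe : ((sSup c : Subgroup Γ) : Set Γ) = ⋃ N ∈ c, (N : Set Γ) := by
        ext x
        rw [SetLike.mem_coe, Subgroup.mem_sSup_of_directedOn hne hc.directedOn]
        simp
      refine ⟨(sSup c).topologicalClosure, ⟨Subgroup.is_normal_topologicalClosure _,
        Subgroup.isClosed_topologicalClosure _, ?_⟩, ?_⟩
      · intro htop
        apply closure_sSup_ne_top hΓ hcg hres c hc hne (fun N hN => hcs hN)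
        rw [← hcoe]
        have := congrArg (fun K : Subgroup Γ => (K : Set Γ)) htop
        simpa using this
      · intro z hz
        exact (le_sSup hz).trans (Subgroup.le_topologicalClosure _)) E ⟨hEn, hEc, hE⟩
  obtain ⟨⟨hNn, hNc, hNt⟩, hmax⟩ := hNmax
  refine ⟨N, hEN, hNc, hNn, ?_⟩
  refine ⟨hΓ.quotient N hNc, ?_, ?_, ?_⟩
  · intro hdisc
    apply hNt
    apply open_normal_eq_top hres N hNn
    have h1 : IsOpen ({(1 : Γ ⧸ N)} : Set (Γ ⧸ N)) := isOpen_discrete _
    have h2 := h1.preimage (QuotientGroup.continuous_mk (N := N))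
    convert h2 using 1
    ext x
    simp
  · exact CG.surj (QuotientGroup.mk' N) QuotientGroup.continuous_mk
      (QuotientGroup.mk'_surjective N) hcg
  · intro A hAn hAc
    by_cases hB : A.comap (QuotientGroup.mk' N) = ⊤
    · right
      have := Subgroup.map_comap_eq_self_of_surjective (QuotientGroup.mk'_surjective N) A
      rw [← this, hB]
      exact Subgroup.map_top_of_surjective _ (QuotientGroup.mk'_surjective N)
    · left
      have hNB : N ≤ A.comap (QuotientGroup.mk' N) := by
        intro x hx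
        rw [Subgroup.mem_comap]
        have : (QuotientGroup.mk' N) x = 1 := by simpa using hx
        rw [this]
        exact A.one_mem
      have hmem : A.comap (QuotientGroup.mk' N) ∈
          {N : Subgroup Γ | N.Normal ∧ IsClosed (N : Set Γ) ∧ N ≠ ⊤} :=
        ⟨hAn.comap _, hAc.preimage QuotientGroup.continuous_mk, hB⟩
      have hle := hmax hmem hNB
      rw [eq_bot_iff]
      intro q hq
      obtain ⟨g, rfl⟩ := QuotientGroup.mk'_surjective N q
      have : g ∈ N := hle hq
      rw [Subgroup.mem_bot]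
      simpa using this

end Pool.H87N
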