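import Pool.Agent.Lib.H87N.B01
import Pool.Agent.Lib.H87N.E01

/-!
# F04: first properties of the groups in `𝒮`

* `ClassS.nontrivial`: a trivial group is discrete.
* `ClassS.dense_of_normal`: the closure of a nontrivial normal subgroup is a nontrivial closed normal
  subgroup (`Subgroup.is_normal_topologicalClosure`).
* `ClassS.not_discrete_bot`: `⊥` is not open.
* `ClassS.not_compactOpenNormal`: a compact open normal subgroup `W` would be `⊥` (then `S` is
  discrete) or `⊤`; in the second case `S` is compact, `Res S = ⊥` by `res_eq_bot_of_compact`, but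
  every open normal subgroup `N` is `⊥` or `⊤`, and not `⊥`, so `Res S = ⊤`; so `S` is trivial.
* `ClassS.not_compact`: the case `W = ⊤`.
* `ClassS.noncomm`: if `S` is abelian, every compact open subgroup is normal; use
  `ClassS.not_compactOpenNormal` and `exists_cos`.
* `ClassS.congr`: `Tdlcsc.congr`, `CG.surj`, transport of closed normal subgroups.
-/

set_option autoImplicit false

namespace Pool.H87N

open Topology Pointwise

variable {S : Type} [Group S] [TopologicalSpace S]

theorem ClassS.nontrivial (h : ClassS S) : Nontrivial S := by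
  by_contra hc
  rw [not_nontrivial_iff_subsingleton] at hc
  exact h.nondiscrete inferInstance

theorem ClassS.dense_of_normal (h : ClassS S) (A : Subgroup S) (hA : A.Normal) (hne : A ≠ ⊥) :
    Dense (A : Set S) := by
  have := h.tdlcsc.tg
  have hn : A.topologicalClosure.Normal := Subgroup.is_normal_topologicalClosure A
  rcases h.simple A.topologicalClosure hn A.isClosed_topologicalClosure with h1 | h1
  · exact absurd (le_bot_iff.1 (h1 ▸ A.le_topologicalClosure)) hne
  · rw [dense_iff_closure_eq, ← Subgroup.topologicalClosure_coe, h1, Subgroup.coe_top]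

theorem ClassS.not_isOpen_bot (h : ClassS S) : ¬ IsOpen ((⊥ : Subgroup S) : Set S) := by
  have := h.tdlcsc.tg
  intro ho
  rw [Subgroup.coe_bot] at ho
  exact h.nondiscrete (discreteTopology_of_isOpen_singleton_one ho)

theorem ClassS.not_compactOpenNormal (h : ClassS S) (W : Subgroup S) (hn : W.Normal)
    (ho : IsOpen (W : Set S)) (hc : IsCompact (W : Set S)) : False := by
  have := h.tdlcsc.tg
  have := h.nontrivial
  rcases h.simple W hn (Subgroup.isClosed_of_isOpen W ho) with h1 | h1
  · exact h.not_isOpen_bot (h1 ▸ ho)
  · rw [h1, Subgroup.coe_top] at hc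
    have hcs : CompactSpace S := isCompact_univ_iff.1 hc
    have hres := res_eq_bot_of_compact h.tdlcsc hcs
    have htop : Res S = ⊤ := by
      refine top_le_iff.1 (le_sInf ?_)
      rintro N ⟨hN, hNo⟩
      rcases h.simple N hN (Subgroup.isClosed_of_isOpen N hNo) with h2 | h2
      · exact absurd (h2 ▸ hNo) h.not_isOpen_bot
      · exact h2.ge
    rw [hres] at htop
    exact bot_ne_top htop

theorem ClassS.not_compact (h : ClassS S) : ¬ CompactSpace S := by
  intro hc
  refine h.not_compactOpenNormal ⊤ inferInstance ?_ ?_
  · rw [Subgroup.coe_top]; exact isOpen_univ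
  · rw [Subgroup.coe_top]; exact isCompact_univ

theorem ClassS.noncomm (h : ClassS S) : ∃ x y : S, x * y ≠ y * x := by
  by_contra hc
  push Not at hc
  obtain ⟨V, hVo, hVc, -⟩ := exists_cos h.tdlcsc (O := Set.univ) Filter.univ_mem
  refine h.not_compactOpenNormal V ⟨fun n hn g => ?_⟩ hVo hVc
  rw [hc g n, mul_inv_cancel_right]
  exact hn

theorem ClassS.congr {S' : Type} [Group S'] [TopologicalSpace S'] (e : S ≃ₜ* S')
    (h : ClassS S) : ClassS S' := by
  refine ⟨h.tdlcsc.congr e, fun hd => h.nondiscrete ?_, h.cg.surj (e : S →* S') e.continuous e.surjective,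
    fun N hN hNc => ?_⟩
  · exact e.toHomeomorph.isEmbedding.discreteTopology
  · have h1 : (N.comap (e : S →* S')).Normal := hN.comap _
    have h2 : IsClosed ((N.comap (e : S →* S') : Subgroup S) : Set S) := hNc.preimage e.continuous
    have h3 : (N.comap (e : S →* S')).map (e : S →* S') = N :=
      Subgroup.map_comap_eq_self_of_surjective e.surjective N
    rcases h.simple _ h1 h2 with h4 | h4
    · left
      rw [← h3, h4, Subgroup.map_bot]
    · right
      rw [← h3, h4]
      exact Subgroup.map_top_of_surjective _ e.surjective

end Pool.H87N
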