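import Pool.Agent.Lib.H87N.F04

/-!
# F05: images of intersections are dense

`S ∈ 𝒮`, `π : Γ → S` a surjective homomorphism, `A` a finite set of normal subgroups of
`Γ` not contained in `ker π`. Then `π(⋂ A)` is dense in `S`.

Induction on `A`. `A = ∅`: `π(Γ) = S`. `A ∪ {N}`: put `F = ⋂ A`; `π(F)` is dense by induction, `F`
is normal. `C = ⁅N.map π, F.map π⁆ = (⁅N, F⁆).map π ≤ (N ⊓ F).map π` (`Subgroup.map_commutator`,
`Subgroup.commutator_le_inf`) is normal in `S` (`Subgroup.Normal.map` with `π` surjective and
`Subgroup.commutator_normal`). If `C ≠ ⊥`, `C` is dense by `ClassS.dense_of_normal` and we are done.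
If `C = ⊥`, every element of `π(N)` commutes with all elements of the dense set `π(F)`, hence with all
of `S` (`S` is Hausdorff, centralisers are closed). `π(N) ≠ ⊥` is dense by
`ClassS.dense_of_normal`, so `S` is commutative, against `ClassS.noncomm`.
-/

set_option autoImplicit false

namespace Pool.H87N

open Topology Pointwise

lemma f05_normal_inf {Γ : Type} [Group Γ] (A : Finset (Subgroup Γ))
    (hn : ∀ N ∈ A, N.Normal) : (A.inf id : Subgroup Γ).Normal := by
  refine ⟨fun n hn' g => ?_⟩
  have h1 : ∀ x : Γ, x ∈ (A.inf id : Subgroup Γ) ↔ ∀ N ∈ A, x ∈ N := by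
    intro x
    rw [Finset.inf_id_eq_sInf, Subgroup.mem_sInf]
    rfl
  rw [h1] at hn' ⊢
  exact fun N hN => (hn N hN).conj_mem n (hn' N hN) g

theorem dense_image_inf {Γ S : Type} [Group Γ] [Group S] [TopologicalSpace S] (hS : ClassS S)
    (π : Γ →* S) (hs : Function.Surjective π) (A : Finset (Subgroup Γ))
    (hn : ∀ N ∈ A, N.Normal) (hA : ∀ N ∈ A, ¬ N ≤ π.ker) :
    Dense (π '' ((A.inf id : Subgroup Γ) : Set Γ)) := by
  classical
  have := hS.tdlcsc.tg
  have := hS.tdlcsc.t2
  induction A using Finset.induction_on with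
  | empty =>
    rw [Finset.inf_empty, Subgroup.coe_top, Set.image_univ, hs.range_eq]
    exact dense_univ
  | insert N A hNA ih =>
    have ih' := ih (fun N h => hn N (Finset.mem_insert_of_mem h))
      (fun N h => hA N (Finset.mem_insert_of_mem h))
    rw [Finset.inf_insert, id]
    have hFn : (A.inf id : Subgroup Γ).Normal :=
      f05_normal_inf A (fun N h => hn N (Finset.mem_insert_of_mem h))
    have hNn : N.Normal := hn N (Finset.mem_insert_self N A)
    have hNk : ¬ N ≤ π.ker := hA N (Finset.mem_insert_self N A)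
    generalize (A.inf id : Subgroup Γ) = F at ih' hFn ⊢
    by_cases hb : (⁅N, F⁆).map π = ⊥
    · exfalso
      have hcomm : ∀ n ∈ N, ∀ f ∈ F, π n * π f = π f * π n := by
        intro n hn' f hf
        have h0 := Subgroup.commutator_mem_commutator hn' hf
        rw [commutatorElement_def] at h0
        have h1 : π (n * f * n⁻¹ * f⁻¹) ∈ (⁅N, F⁆).map π := ⟨_, h0, rfl⟩
        rw [hb, Subgroup.mem_bot] at h1
        simp only [map_mul, map_inv] at h1
        rw [mul_inv_eq_one, mul_inv_eq_iff_eq_mul] at h1
        exact h1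
      have hNb : N.map π ≠ ⊥ := fun h => hNk ((Subgroup.map_eq_bot_iff N).1 h)
      have hNd : Dense ((N.map π : Subgroup S) : Set S) :=
        hS.dense_of_normal _ (hNn.map π hs) hNb
      have h2 : ∀ n ∈ N, ∀ s : S, π n * s = s * π n := by
        intro n hn' s
        have hcl : IsClosed {s : S | π n * s = s * π n} :=
          isClosed_eq (by fun_prop) (by fun_prop)
        have hsub : π '' (F : Set Γ) ⊆ {s : S | π n * s = s * π n} := by
          rintro _ ⟨f, hf, rfl⟩
          exact hcomm n hn' f hf
        have : s ∈ closure (π '' (F : Set Γ)) := ih' s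
        exact closure_minimal hsub hcl this
      have h3 : ∀ t s : S, t * s = s * t := by
        intro t s
        have hcl : IsClosed {t : S | t * s = s * t} :=
          isClosed_eq (by fun_prop) (by fun_prop)
        have hsub : ((N.map π : Subgroup S) : Set S) ⊆ {t : S | t * s = s * t} := by
          rintro _ ⟨n, hn', rfl⟩
          exact h2 n hn' s
        exact closure_minimal hsub hcl (hNd t)
      obtain ⟨x, y, hxy⟩ := hS.noncomm
      exact hxy (h3 x y)
    · have hCn : ((⁅N, F⁆).map π).Normal := (Subgroup.commutator_normal N F).map π hs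
      refine (hS.dense_of_normal _ hCn hb).mono ?_
      rintro _ ⟨c, hc, rfl⟩
      exact ⟨c, Subgroup.commutator_le_inf N F hc, rfl⟩

end Pool.H87N
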