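import Pool.Agent.Lib.H87N.F02
import Pool.Agent.Lib.H87N.F04

/-!
# F06: the key contradiction for the finiteness theorem

`N₀` closed normal in `Γ` with `S = Γ ⧸ N₀ ∈ 𝒮`, `F` a closed normal subgroup with dense image in
`S`, `V` a compact open subgroup of `Γ`, `M` normal, `M ≤ N₀`, `M ≤ F`, such that
`L = F ∩ V M` is normal in `Γ`. This is impossible.

(1) `L ≤ N₀`. `L = (F ∩ V) M` (modular law, `inf_sup_modular` in F01 or directly), so the image of
`L` in `S` is the image of `F ∩ V`, which is compact, hence closed; it is a normal subgroup of `S`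
(`Subgroup.Normal.map`). So it is `⊥` or `⊤`; if it is `⊤`, `S` is compact, against
`ClassS.not_compact`. So it is `⊥`.
(2) Let `m ∈ F`. The set `W = {r | r m r⁻¹ m⁻¹ ∈ V}` is an open neighbourhood of `1` in `Γ`, and for
`r ∈ W` also `r m r⁻¹ m⁻¹ ∈ F` (`F` normal), so it is in `F ∩ V ≤ L ≤ N₀`: the image of `r` commutes
with the image `q` of `m`. The image of `W` in `S` is an open neighbourhood of `1`
(`QuotientGroup.isOpenMap_coe`) contained in the centraliser of `q`, which is therefore open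
(`Subgroup.isOpen_of_mem_nhds`).
(3) By `exists_compact_open_normal` (F02) with `D` the image of `F` the group `S` has a compact open
normal subgroup, against `ClassS.not_compactOpenNormal`.
-/

set_option autoImplicit false

namespace Pool.H87N

open Topology Pointwise

theorem key_contradiction {Γ : Type} [Group Γ] [TopologicalSpace Γ] (hΓ : Tdlcsc Γ)
    (N₀ : Subgroup Γ) [N₀.Normal] (hN₀ : IsClosed (N₀ : Set Γ)) (hS : ClassS (Γ ⧸ N₀))
    (F : Subgroup Γ) (hFn : F.Normal) (hFc : IsClosed (F : Set Γ))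
    (hFd : Dense ((QuotientGroup.mk' N₀) '' (F : Set Γ)))
    (V : Subgroup Γ) (hVo : IsOpen (V : Set Γ)) (hVc : IsCompact (V : Set Γ))
    (M : Subgroup Γ) (hMn : M.Normal) (hM₀ : M ≤ N₀) (hMF : M ≤ F)
    (hL : (F ⊓ (V ⊔ M)).Normal) : False := by
  haveI := hΓ.tg
  haveI := hΓ.t2
  haveI : T2Space (Γ ⧸ N₀) := hS.tdlcsc.t2
  have hπc : Continuous (QuotientGroup.mk' N₀ : Γ →* Γ ⧸ N₀) := continuous_quot_mk
  have hπo : IsOpenMap (QuotientGroup.mk' N₀ : Γ →* Γ ⧸ N₀) := QuotientGroup.isOpenMap_coe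
  -- (1)
  have himg : (F ⊓ (V ⊔ M)).map (QuotientGroup.mk' N₀) = (F ⊓ V).map (QuotientGroup.mk' N₀) := by
    apply le_antisymm
    · rintro _ ⟨x, hx, rfl⟩
      have hx1 : x ∈ F := (Subgroup.mem_inf.1 hx).1
      have hx2 : x ∈ V ⊔ M := (Subgroup.mem_inf.1 hx).2
      obtain ⟨v, hv, m, hm, hvm⟩ := Subgroup.mem_sup_of_normal_right.1 hx2
      have hvF : v ∈ F := by
        have : v = x * m⁻¹ := by rw [← hvm]; group
        rw [this]
        exact F.mul_mem hx1 (F.inv_mem (hMF hm))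
      refine ⟨v, Subgroup.mem_inf.2 ⟨hvF, hv⟩, ?_⟩
      rw [← hvm, map_mul]
      have hm1 : (QuotientGroup.mk' N₀) m = 1 := by
        rw [QuotientGroup.mk'_apply]
        exact (QuotientGroup.eq_one_iff m).2 (hM₀ hm)
      rw [hm1, mul_one]
    · exact Subgroup.map_mono (inf_le_inf_left F le_sup_left)
  have hcomp : IsCompact (((F ⊓ (V ⊔ M)).map (QuotientGroup.mk' N₀) : Subgroup (Γ ⧸ N₀)) :
      Set (Γ ⧸ N₀)) := by
    rw [himg, Subgroup.coe_map]
    apply IsCompact.image _ hπc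
    have : ((F ⊓ V : Subgroup Γ) : Set Γ) = (V : Set Γ) ∩ (F : Set Γ) := by
      rw [Subgroup.coe_inf, Set.inter_comm]
    rw [this]
    exact hVc.inter_right hFc
  have hLbot : (F ⊓ (V ⊔ M)).map (QuotientGroup.mk' N₀) = ⊥ := by
    rcases hS.simple _ (Subgroup.Normal.map hL _ (QuotientGroup.mk'_surjective N₀))
      hcomp.isClosed with h | h
    · exact h
    · exfalso
      rw [h] at hcomp
      exact hS.not_compact ⟨by simpa using hcomp⟩
  have hLN : F ⊓ (V ⊔ M) ≤ N₀ := by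
    intro x hx
    have h1 : (QuotientGroup.mk' N₀) x ∈ (F ⊓ (V ⊔ M)).map (QuotientGroup.mk' N₀) :=
      ⟨x, hx, rfl⟩
    rw [hLbot, Subgroup.mem_bot, QuotientGroup.mk'_apply] at h1
    exact (QuotientGroup.eq_one_iff x).1 h1
  -- (2)
  have hq : ∀ q ∈ (QuotientGroup.mk' N₀) '' (F : Set Γ),
      IsOpen ((Subgroup.centralizer {q} : Subgroup (Γ ⧸ N₀)) : Set (Γ ⧸ N₀)) := by
    rintro _ ⟨m, hm, rfl⟩
    have hW : IsOpen {r : Γ | r * m * r⁻¹ * m⁻¹ ∈ V} :=
      hVo.preimage (by fun_prop : Continuous fun r : Γ => r * m * r⁻¹ * m⁻¹)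
    have h1W : (1 : Γ) ∈ {r : Γ | r * m * r⁻¹ * m⁻¹ ∈ V} := by
      show (1 : Γ) * m * 1⁻¹ * m⁻¹ ∈ V
      have : (1 : Γ) * m * 1⁻¹ * m⁻¹ = 1 := by group
      rw [this]
      exact V.one_mem
    apply Subgroup.isOpen_of_mem_nhds (g := (1 : Γ ⧸ N₀))
    have h2 : (QuotientGroup.mk' N₀) '' {r : Γ | r * m * r⁻¹ * m⁻¹ ∈ V} ∈ 𝓝 (1 : Γ ⧸ N₀) :=
      (hπo _ hW).mem_nhds ⟨1, h1W, map_one _⟩
    refine Filter.mem_of_superset h2 ?_
    rintro _ ⟨r, hr, rfl⟩
    have hr' : r * m * r⁻¹ * m⁻¹ ∈ F ⊓ (V ⊔ M) := by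
      refine Subgroup.mem_inf.2 ⟨F.mul_mem (hFn.conj_mem m hm r) (F.inv_mem hm), ?_⟩
      exact Subgroup.mem_sup_left hr
    have h3 : (QuotientGroup.mk' N₀) (r * m * r⁻¹ * m⁻¹) = 1 := by
      rw [QuotientGroup.mk'_apply]
      exact (QuotientGroup.eq_one_iff _).2 (hLN hr')
    rw [map_mul, map_mul, map_mul, map_inv, map_inv] at h3
    show (QuotientGroup.mk' N₀) r ∈ Subgroup.centralizer {(QuotientGroup.mk' N₀) m}
    rw [Subgroup.mem_centralizer_iff]
    intro h hh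
    rw [Set.mem_singleton_iff.1 hh]
    have h4 := mul_inv_eq_one.1 h3
    have h5 := mul_inv_eq_iff_eq_mul.1 h4
    exact h5.symm
  -- (3)
  obtain ⟨W, hWn, hWo, hWc⟩ := exists_compact_open_normal hS.tdlcsc hS.cg _ hFd hq
  exact hS.not_compactOpenNormal W hWn hWo hWc

end Pool.H87N
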