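import Pool.Agent.Lib.H87N.F01
import Pool.Agent.Lib.H87N.F05
import Pool.Agent.Lib.H87N.F06

/-!
# F07: finitely many quotients in `𝒮` (Caprace-Monod)

`Γ` compactly generated t.d.l.c.s.c. The set `𝓜` of the closed normal `N` with `Γ ⧸ N ∈ 𝒮` is
finite.

Proof. Suppose that `𝓜` is infinite, `M = sInf 𝓜`. The family `F` of all `A.inf id`, `A` a finite
subset of `𝓜`, is nonempty, directed, consists of closed normal subgroups, and `sInf F = M`. By the
filter lemma, with a compact open subgroup `V`, there is a finite `A ⊆ 𝓜` with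
`A.inf id ⊓ (V ⊔ M)` normal. Choose `N₀ ∈ 𝓜` not in `A`. For `N ∈ A` we have `¬ N ≤ N₀`
(`not_le_of_ne`): otherwise the image of `N₀` in `Γ ⧸ N ∈ 𝒮` is a closed normal subgroup, so it is
`⊥` or `⊤`, i.e. `N₀ ≤ N` or `N₀ = ⊤`; the first gives `N₀ = N`, the second is impossible because
`Γ ⧸ N₀` is not trivial. By `dense_image_inf` the image of `A.inf id` in `Γ ⧸ N₀` is dense, and
`key_contradiction` (F06) applies with `F = A.inf id`.
-/

set_option autoImplicit false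

namespace Pool.H87N

open Topology Pointwise

theorem not_le_of_ne {Γ : Type} [Group Γ] [TopologicalSpace Γ] [IsTopologicalGroup Γ]
    (N N₀ : Subgroup Γ) [N.Normal] [N₀.Normal] (hN₀ : IsClosed (N₀ : Set Γ))
    (h : ClassS (Γ ⧸ N)) (h₀ : ClassS (Γ ⧸ N₀)) (hne : N ≠ N₀) : ¬ N ≤ N₀ := by
  intro hle
  -- the image of `N₀` in `Γ ⧸ N`
  have hpre : (QuotientGroup.mk' N) ⁻¹' ((N₀.map (QuotientGroup.mk' N) : Subgroup (Γ ⧸ N)) :
      Set (Γ ⧸ N)) = (N₀ : Set Γ) := by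
    ext x
    constructor
    · rintro ⟨y, hy, hyx⟩
      have h1 : y⁻¹ * x ∈ N := QuotientGroup.eq.1 hyx
      have h2 : x = y * (y⁻¹ * x) := by group
      rw [SetLike.mem_coe, h2]
      exact N₀.mul_mem hy (hle h1)
    · intro hx
      exact ⟨x, hx, rfl⟩
  have hcl : IsClosed ((N₀.map (QuotientGroup.mk' N) : Subgroup (Γ ⧸ N)) : Set (Γ ⧸ N)) := by
    have hq : Topology.IsQuotientMap (QuotientGroup.mk' N : Γ → Γ ⧸ N) :=
      QuotientGroup.isQuotientMap_mk N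
    rw [← hq.isClosed_preimage, hpre]
    exact hN₀
  have hnorm : (N₀.map (QuotientGroup.mk' N)).Normal :=
    Subgroup.Normal.map inferInstance _ (QuotientGroup.mk'_surjective N)
  rcases h.simple _ hnorm hcl with h1 | h1
  · apply hne
    apply le_antisymm hle
    intro x hx
    have h2 : (QuotientGroup.mk' N) x ∈ N₀.map (QuotientGroup.mk' N) := ⟨x, hx, rfl⟩
    rw [h1, Subgroup.mem_bot, QuotientGroup.mk'_apply] at h2
    exact (QuotientGroup.eq_one_iff x).1 h2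
  · have h2 : ∀ x : Γ, x ∈ N₀ := by
      intro x
      have h3 : x ∈ (QuotientGroup.mk' N) ⁻¹' ((N₀.map (QuotientGroup.mk' N) :
          Subgroup (Γ ⧸ N)) : Set (Γ ⧸ N)) := by
        rw [h1]
        exact Subgroup.mem_top _
      rw [hpre] at h3
      exact h3
    haveI := h₀.nontrivial
    obtain ⟨a, b, hab⟩ := exists_pair_ne (Γ ⧸ N₀)
    obtain ⟨a, rfl⟩ := QuotientGroup.mk_surjective a
    obtain ⟨b, rfl⟩ := QuotientGroup.mk_surjective b
    exact hab (QuotientGroup.eq.2 (h2 _))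

theorem finite_kernels {Γ : Type} [Group Γ] [TopologicalSpace Γ] (hΓ : Tdlcsc Γ)
    (hcg : CG Γ) :
    {N : Subgroup Γ | IsClosed (N : Set Γ) ∧ ∃ _ : N.Normal, ClassS (Γ ⧸ N)}.Finite := by
  haveI := hΓ.tg
  classical
  by_contra hinf
  rw [← Set.Infinite] at hinf
  set 𝓜 : Set (Subgroup Γ) :=
    {N : Subgroup Γ | IsClosed (N : Set Γ) ∧ ∃ _ : N.Normal, ClassS (Γ ⧸ N)} with h𝓜
  have hmem : ∀ (A : Finset (Subgroup Γ)) (x : Γ), x ∈ A.inf id ↔ ∀ N ∈ A, x ∈ N := by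
    intro A x
    induction A using Finset.induction_on with
    | empty => simp
    | insert N A hN ih =>
      rw [Finset.inf_insert, Subgroup.mem_inf, ih]
      simp
  obtain ⟨V, hVo, hVc, -⟩ := exists_cos hΓ (Filter.univ_mem : (Set.univ : Set Γ) ∈ 𝓝 (1 : Γ))
  set F : Set (Subgroup Γ) := {B | ∃ A : Finset (Subgroup Γ), (A : Set (Subgroup Γ)) ⊆ 𝓜 ∧
    B = A.inf id} with hFdef
  have hFcl : ∀ A ∈ F, IsClosed (A : Set Γ) := by
    rintro _ ⟨A, hA, rfl⟩
    have h1 : ((A.inf id : Subgroup Γ) : Set Γ) = ⋂ N ∈ A, (N : Set Γ) := by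
      ext x
      rw [SetLike.mem_coe, hmem]
      simp
    rw [h1]
    exact isClosed_biInter fun N hN => (hA hN).1
  have hFn : ∀ A ∈ F, A.Normal := by
    rintro _ ⟨A, hA, rfl⟩
    refine ⟨fun x hx g => ?_⟩
    rw [hmem] at hx ⊢
    intro N hN
    obtain ⟨-, hNn, -⟩ := hA hN
    exact hNn.conj_mem x (hx N hN) g
  have hFne : F.Nonempty := ⟨⊤, ∅, by simp, by simp⟩
  have hFdir : ∀ A ∈ F, ∀ B ∈ F, ∃ C ∈ F, C ≤ A ⊓ B := by
    rintro _ ⟨A, hA, rfl⟩ _ ⟨B, hB, rfl⟩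
    refine ⟨(A ∪ B).inf id, ⟨A ∪ B, ?_, rfl⟩, ?_⟩
    · intro N hN
      rcases Finset.mem_union.1 (Finset.mem_coe.1 hN) with h | h
      · exact hA h
      · exact hB h
    · rw [Finset.inf_union]
  obtain ⟨_, ⟨A, hA, rfl⟩, hnorm⟩ := filter_lemma hΓ hcg V hVo hVc F hFne hFdir hFcl hFn
  obtain ⟨N₀, hN₀m, hN₀A⟩ := hinf.exists_notMem_finset A
  obtain ⟨hN₀c, hN₀n, hN₀S⟩ := hN₀m
  have hAF : A.inf id ∈ F := ⟨A, hA, rfl⟩
  have hN₀F : N₀ ∈ F := by
    refine ⟨{N₀}, ?_, by simp⟩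
    intro N hN
    rw [Finset.coe_singleton, Set.mem_singleton_iff] at hN
    rw [hN]
    exact ⟨hN₀c, hN₀n, hN₀S⟩
  have hMn : (sInf F).Normal := by
    refine ⟨fun x hx g => ?_⟩
    rw [Subgroup.mem_sInf] at hx ⊢
    intro N hN
    exact (hFn N hN).conj_mem x (hx N hN) g
  have hdense : Dense ((QuotientGroup.mk' N₀) '' ((A.inf id : Subgroup Γ) : Set Γ)) := by
    apply dense_image_inf hN₀S (QuotientGroup.mk' N₀) (QuotientGroup.mk'_surjective N₀) A
    · intro N hN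
      exact (hA hN).2.1
    · intro N hN
      obtain ⟨hNc, hNn, hNS⟩ := hA hN
      rw [QuotientGroup.ker_mk']
      apply not_le_of_ne N N₀ hN₀c hNS hN₀S
      rintro rfl
      exact hN₀A hN
  exact key_contradiction hΓ N₀ hN₀c hN₀S (A.inf id) (hFn _ hAF) (hFcl _ hAF) hdense V hVo hVc
    (sInf F) hMn (sInf_le hN₀F) (sInf_le hAF) hnorm

end Pool.H87N
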