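import Pool.Agent.Lib.H87N.F03
import Pool.Agent.Lib.H87N.F07

/-!
# F08: translation to subgroups of `G`, and conjugation

`R` a closed subgroup of the t.d.l.c.s.c. group `G`, `R` compactly generated.
* `sker_finite`: `N ↦ N.subgroupOf R` is injective on `{N | SKer R N}` (as `N ≤ R`) and maps into the
  finite set of `finite_kernels` for `Γ = ↥R`.
* `exists_sker`: apply `exists_maximal` to `E.subgroupOf R` and map back with `R.subtype`
  (`(N'.map R.subtype).subgroupOf R = N'`; closed subsets of the closed subgroup `R` are closed).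
* `SKer.conj`: for `h` in the normaliser of `R` conjugation by `h` is a topological automorphism of
  `G` which maps `R` onto itself; it maps `N` to a closed normal subgroup of `R`, and induces an
  isomorphism of the quotients (`nonempty_quot_congr`, `ClassS.congr`).
* `SKer.relIndex`: `H` normalises `R`. The map `h ↦ h N h⁻¹` from `H` to the finite set
  `{N | SKer R N}` is constant exactly on the left cosets of `N_H(N)`, so the index is finite.
* `sker_ne`: if `SKer R N` then `N ≠ R` (the quotient is not trivial).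
-/

set_option autoImplicit false

namespace Pool.H87N

open Topology Pointwise

variable {G : Type} [Group G] [TopologicalSpace G]

theorem sker_finite (hG : Tdlcsc G) (R : Subgroup G) (hR : IsClosed (R : Set G)) (hcg : CG R) :
    {N : Subgroup G | SKer R N}.Finite := by
  have hfin := finite_kernels (hG.subgroup R hR) hcg
  apply Set.Finite.of_finite_image (f := fun N : Subgroup G => N.subgroupOf R)
  · apply hfin.subset
    rintro _ ⟨N, hN, rfl⟩
    exact ⟨hN.closed.preimage continuous_subtype_val, hN.quot⟩
  · intro A hA B hB hAB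
    have h1 : A.subgroupOf R = B.subgroupOf R := hAB
    have h2 := congrArg (Subgroup.map R.subtype) h1
    rw [Subgroup.subgroupOf_map_subtype, Subgroup.subgroupOf_map_subtype,
      inf_eq_left.2 hA.le, inf_eq_left.2 hB.le] at h2
    exact h2

theorem exists_sker (hG : Tdlcsc G) (R : Subgroup G) (hR : IsClosed (R : Set G)) (hcg : CG R)
    (hres : Res R = ⊤) (E : Subgroup G) (hER : E ≤ R) (hE : IsClosed (E : Set G))
    (hEn : R ≤ Subgroup.normalizer (E : Set G)) (hne : E ≠ R) :
    ∃ N : Subgroup G, E ≤ N ∧ SKer R N := by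
  have hn : (E.subgroupOf R).Normal := by
    refine ⟨fun x hx g => ?_⟩
    rw [Subgroup.mem_subgroupOf] at hx ⊢
    have h1 := Subgroup.mem_normalizer_iff.1 (hEn g.2) (x : G)
    exact h1.1 hx
  have hc : IsClosed ((E.subgroupOf R : Subgroup R) : Set R) :=
    hE.preimage continuous_subtype_val
  have hne' : E.subgroupOf R ≠ ⊤ := by
    intro h
    apply hne
    apply le_antisymm hER
    exact Subgroup.subgroupOf_eq_top.1 h
  obtain ⟨N', hEN, hN'c, hN'n, hN'S⟩ :=
    exists_maximal (hG.subgroup R hR) hcg hres (E.subgroupOf R) hn hc hne'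
  have key : (N'.map R.subtype).subgroupOf R = N' :=
    Subgroup.comap_map_eq_self_of_injective (Subgroup.subtype_injective R) N'
  refine ⟨N'.map R.subtype, ?_, ⟨Subgroup.map_subtype_le N', ?_, ?_⟩⟩
  · intro x hx
    exact ⟨⟨x, hER hx⟩, hEN (by rw [Subgroup.mem_subgroupOf]; exact hx), rfl⟩
  · rw [Subgroup.coe_map]
    exact hR.isClosedEmbedding_subtypeVal.isClosedMap _ hN'c
  · rw [key]
    exact ⟨hN'n, hN'S⟩

theorem sker_ne (R N : Subgroup G) (h : SKer R N) : N ≠ R := by
  rintro rfl
  obtain ⟨hn, hS⟩ := h.quot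
  haveI := hS.nontrivial
  obtain ⟨a, b, hab⟩ := exists_pair_ne (↥N ⧸ N.subgroupOf N)
  obtain ⟨a, rfl⟩ := QuotientGroup.mk_surjective a
  obtain ⟨b, rfl⟩ := QuotientGroup.mk_surjective b
  apply hab
  rw [QuotientGroup.eq, Subgroup.mem_subgroupOf]
  exact (a⁻¹ * b).2

end Pool.H87N
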