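import Pool.Agent.Lib.H87N.F08

/-!
# F09: conjugation of the kernels (see F08 for the proofs of `SKer.conj`, `SKer.relIndex`)
-/

set_option autoImplicit false

namespace Pool.H87N

open Topology Pointwise

variable {G : Type} [Group G] [TopologicalSpace G]

theorem SKer.conj (hG : Tdlcsc G) (R N : Subgroup G) (h : SKer R N) (g : G)
    (hg : g ∈ Subgroup.normalizer (R : Set G)) :
    SKer R (N.map (MulAut.conj g).toMonoidHom) := by
  haveI := hG.tg
  have hgm : ∀ x : G, x ∈ R ↔ g * x * g⁻¹ ∈ R := fun x => Subgroup.mem_normalizer_iff.1 hg x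
  have hgm' : ∀ x : G, x ∈ R → g⁻¹ * x * g ∈ R := by
    intro x hx
    rw [hgm]
    have : g * (g⁻¹ * x * g) * g⁻¹ = x := by group
    rw [this]
    exact hx
  let e : R ≃ₜ* R :=
    { toFun := fun r => ⟨g * r * g⁻¹, (hgm r).1 r.2⟩
      invFun := fun r => ⟨g⁻¹ * r * g, hgm' r r.2⟩
      left_inv := fun r => by
        apply Subtype.ext
        show g⁻¹ * (g * (r : G) * g⁻¹) * g = r
        group
      right_inv := fun r => by
        apply Subtype.ext
        show g * (g⁻¹ * (r : G) * g) * g⁻¹ = r
        group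
      map_mul' := fun r r' => by
        apply Subtype.ext
        show g * ((r : G) * r') * g⁻¹ = (g * (r : G) * g⁻¹) * (g * (r' : G) * g⁻¹)
        group
      continuous_toFun := by
        apply Continuous.subtype_mk
        fun_prop
      continuous_invFun := by
        apply Continuous.subtype_mk
        fun_prop }
  have hmem : ∀ x : G, x ∈ N.map (MulAut.conj g).toMonoidHom ↔ g⁻¹ * x * g ∈ N := by
    intro x
    constructor
    · rintro ⟨y, hy, rfl⟩
      have : g⁻¹ * ((MulAut.conj g).toMonoidHom y) * g = y := by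
        show g⁻¹ * (g * y * g⁻¹) * g = y
        group
      rw [this]
      exact hy
    · intro hx
      refine ⟨g⁻¹ * x * g, hx, ?_⟩
      show g * (g⁻¹ * x * g) * g⁻¹ = x
      group
  obtain ⟨hn, hS⟩ := h.quot
  have hle : N.map (MulAut.conj g).toMonoidHom ≤ R := by
    intro x hx
    rw [hmem] at hx
    have h1 := (hgm _).1 (h.le hx)
    have : g * (g⁻¹ * x * g) * g⁻¹ = x := by group
    rw [this] at h1
    exact h1
  have hmap : (N.subgroupOf R).map ((e : R ≃ₜ* R) : R →* R) =
      (N.map (MulAut.conj g).toMonoidHom).subgroupOf R := by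
    ext x
    rw [Subgroup.mem_subgroupOf, hmem]
    constructor
    · rintro ⟨y, hy, rfl⟩
      have hy' : (y : G) ∈ N := by
        rw [SetLike.mem_coe, Subgroup.mem_subgroupOf] at hy
        exact hy
      have : g⁻¹ * (((e : R →* R) y : R) : G) * g = y := by
        show g⁻¹ * (g * (y : G) * g⁻¹) * g = y
        group
      rw [this]
      exact hy'
    · intro hx
      refine ⟨⟨g⁻¹ * x * g, h.le hx⟩, ?_, ?_⟩
      · rw [SetLike.mem_coe, Subgroup.mem_subgroupOf]
        exact hx
      · apply Subtype.ext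
        show g * (g⁻¹ * (x : G) * g) * g⁻¹ = x
        group
  have hn' : ((N.map (MulAut.conj g).toMonoidHom).subgroupOf R).Normal := by
    rw [← hmap]
    exact Subgroup.Normal.map hn _ e.surjective
  obtain ⟨e'⟩ := nonempty_quot_congr e (N.subgroupOf R)
    ((N.map (MulAut.conj g).toMonoidHom).subgroupOf R) hmap
  refine ⟨hle, ?_, hn', hS.congr e'⟩
  have : ((N.map (MulAut.conj g).toMonoidHom : Subgroup G) : Set G) =
      (fun x => g⁻¹ * x * g) ⁻¹' (N : Set G) := by
    ext x
    exact hmem x
  rw [this]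
  exact h.closed.preimage (by fun_prop)

theorem SKer.relIndex (hG : Tdlcsc G) (R N H : Subgroup G) (hR : IsClosed (R : Set G))
    (hcg : CG R) (h : SKer R N) (hH : H ≤ Subgroup.normalizer (R : Set G)) :
    (Subgroup.normalizer (N : Set G)).relIndex H ≠ 0 := by
  have hfin := sker_finite hG R hR hcg
  haveI : Finite {N : Subgroup G | SKer R N} := hfin
  let f : (H ⧸ (Subgroup.normalizer (N : Set G)).subgroupOf H) → {N : Subgroup G | SKer R N} :=
    fun q => ⟨N.map (MulAut.conj ((Quotient.out q : H) : G)).toMonoidHom,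
      h.conj hG R N _ (hH (Quotient.out q : H).2)⟩
  have hf : Function.Injective f := by
    intro a b hab
    have h1 : N.map (MulAut.conj ((Quotient.out a : H) : G)).toMonoidHom =
        N.map (MulAut.conj ((Quotient.out b : H) : G)).toMonoidHom := congrArg Subtype.val hab
    rw [← Quotient.out_eq' a, ← Quotient.out_eq' b]
    apply Quotient.sound'
    rw [QuotientGroup.leftRel_apply, Subgroup.mem_subgroupOf, Subgroup.mem_normalizer_iff]
    intro n
    set x : G := ((Quotient.out a : H) : G) with hx
    set y : G := ((Quotient.out b : H) : G) with hy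
    have hxy : (((Quotient.out a : H)⁻¹ * (Quotient.out b : H) : H) : G) = x⁻¹ * y := rfl
    rw [hxy]
    constructor
    · intro hn
      have h2 : y * n * y⁻¹ ∈ N.map (MulAut.conj y).toMonoidHom := ⟨n, hn, rfl⟩
      rw [← h1] at h2
      obtain ⟨n', hn', h3⟩ := h2
      have h4 : x * n' * x⁻¹ = y * n * y⁻¹ := h3
      have h5 : x⁻¹ * y * n * (x⁻¹ * y)⁻¹ = n' := by
        have : x⁻¹ * y * n * (x⁻¹ * y)⁻¹ = x⁻¹ * (y * n * y⁻¹) * x := by group
        rw [this, ← h4]
        group
      rw [h5]
      exact hn'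
    · intro hn
      have h2 : y * n * y⁻¹ ∈ N.map (MulAut.conj x).toMonoidHom := by
        refine ⟨x⁻¹ * y * n * (x⁻¹ * y)⁻¹, hn, ?_⟩
        show x * (x⁻¹ * y * n * (x⁻¹ * y)⁻¹) * x⁻¹ = y * n * y⁻¹
        group
      rw [h1] at h2
      obtain ⟨n', hn', h3⟩ := h2
      have h4 : y * n' * y⁻¹ = y * n * y⁻¹ := h3
      have h5 : n' = n := by
        have h6 := mul_right_cancel h4
        exact mul_left_cancel h6
      rw [← h5]
      exact hn'
  haveI := Finite.of_injective f hf
  exact Subgroup.index_ne_zero_of_finite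

end Pool.H87N
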