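import Pool.Agent.Lib.H87N.Z06

/-!
# Final: the theorem of MP_14eb16_al
-/

set_option autoImplicit false

namespace Pool.H87N

open Topology Pointwise

theorem final (G : Type) [Group G] [TopologicalSpace G] (hG : Tdlcsc G) (hN : Noeth G) :
    (∀ K R : Subgroup G, IsOpen (K : Set G) → IsResOmega K R →
      (∀ P : Subgroup G, IsOpen (P : Set G) →
        (∀ r ∈ R, ((R ⊓ P).map (MulAut.conj r).toMonoidHom).relIndex (R ⊓ P) ≠ 0) →
        (Core R ⊔ (R ⊓ P)).relIndex R ≠ 0 → R ≤ P) ∧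
      ∀ (V : Type) [MulAction K V] (T : SimpleGraph V), TreeAct K V T →
        (∀ v : V, IsOpen ((MulAction.stabilizer K v : Subgroup K) : Set K)) →
        (∀ v : V, (Orb ((Core R).subgroupOf K) v).Finite) ∧
        ∀ H S : Subgroup G, IsOpen (H : Set G) → LL H K → IsResOmega H S →
          ∀ g : K, (g : G) ∈ S → ∀ v : V, g • v = v) ∧
    ∀ (ι : Type) (V : ι → Type) [∀ i, MulAction G (V i)] (T : ∀ i, SimpleGraph (V i)),
      (∀ i, TreeAct G (V i) (T i)) →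
      (∀ i, ∀ v : V i, IsOpen ((MulAction.stabilizer G v : Subgroup G) : Set G)) →
      (Elementary (JKer G V) →
        SWF G ∧ ∀ H₁ H₂ H₃ H₄ : Oc G, ¬ (LL H₂.1 H₁.1 ∧ LL H₃.1 H₂.1 ∧ LL H₄.1 H₃.1)) ∧
      ((∃ U : Subgroup G, IsOpen (U : Set G) ∧ ¬ ∃ C : ℕ → Subgroup G,
        (∀ n, C n ≤ JKer G V ⊓ U) ∧ (∀ n, IsClosed (C n : Set G)) ∧
        (∀ n, C (n + 1) ≤ C n) ∧ ∀ n, (C (n + 1)).relIndex (C n) = 0) → SWF G) := by
  refine ⟨fun K R hK hR => ⟨fun P hP h1 h2 => le_of_comm hG hN K R P hK hR hP h2 h1,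
    fun V _ T hT hst => ⟨fun v => core_orbits hG hN K R hK hR hT hst v,
      fun H S hH hHK hS g hg v => res_trivial hG hN H K S hH hK hHK hS hT hst g hg v⟩⟩,
    fun ι V _ T hT hst => ⟨fun hZ => ⟨swf_of_no_chain (no_chain hG hN V T hT hst hZ),
      no_chain hG hN V T hT hst hZ⟩, ?_⟩⟩
  rintro ⟨U, hU, hd⟩
  exact swf_of_dcc hG hN V T hT hst U hU hd

end Pool.H87N
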