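import Pool.Agent.Lib.H87N.T05

/-!
# L01: stabilisers of vertices

`R` is a subgroup of `Γ` which normalises `N ≤ R`.
* `relIndex_of_finOrb`: `Γ` acts on a set `V`, `X ⊆ V` is `R`-invariant, `N` has finitely many orbits
  on `X`, `b ∈ X`. Then `N (R ∩ Γ_b)` has finite index in `R`. Proof. Let `D = N ⊔ (R ⊓ Γ_b)`, a
  subgroup of `R`. Let `F ⊆ X` be finite with `X = N F`. For every `f ∈ F` with `f ∈ N (R b)` choose
  `r_f ∈ R` and `n ∈ N` with `n • f = r_f • b`. Let `r ∈ R`. Then `r • b ∈ X`, so `r • b = n' • f` with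
  `n' ∈ N`, `f ∈ F`, and `r • b = m • (r_f • b)` with `m ∈ N`. So `r_f⁻¹ m⁻¹ r ∈ R ∩ Γ_b` and
  `r ∈ m r_f D = r_f (r_f⁻¹ m r_f) D = r_f D`. So `R` is covered by finitely many left cosets of `D`.
* `comm_stab`: `Γ` acts on the locally finite tree `T`, `b` a vertex, `L = R ∩ Γ_b`. For `r ∈ R` the
  group `L ∩ r L r⁻¹` is the stabiliser of `r • b` in `L`. The orbit of `b` under `L` is `{b}`, so the
  orbit of `r • b` under `L` is finite (`orb_finite`), and its stabiliser has finite index in `L`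
  (`relIndex_stab`).
-/

set_option autoImplicit false

namespace Pool.H87N

variable {Γ V : Type} [Group Γ] [MulAction Γ V] {T : SimpleGraph V}

theorem relIndex_of_finOrb (R N : Subgroup Γ) (hNR : N ≤ R)
    (hRN : R ≤ Subgroup.normalizer (N : Set Γ)) (X : Set V) (hX1 : FinOrb N X) (hX2 : Inv R X)
    (b : V) (hb : b ∈ X) : (N ⊔ (R ⊓ MulAction.stabilizer Γ b)).relIndex R ≠ 0 := by
  classical
  obtain ⟨F, hF, hFX, hcov⟩ := hX1
  have hP : ∀ r ∈ R, ∃ f ∈ F, ∃ n ∈ N, n • f = r • b := by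
    intro r hr
    obtain ⟨n, hn, f, hf, h⟩ := hcov (r • b) (hX2 r hr b hb)
    exact ⟨f, hf, n, hn, h⟩
  haveI : Finite F := hF
  set Dd : Subgroup Γ := N ⊔ (R ⊓ MulAction.stabilizer Γ b) with hDd
  have key : ∀ r ∈ R, ∀ r' ∈ R, ∀ f, (∃ n ∈ N, n • f = r • b) → (∃ n ∈ N, n • f = r' • b) →
      r⁻¹ * r' ∈ Dd := by
    rintro r hr r' hr' f ⟨n, hn, h1⟩ ⟨n', hn', h2⟩
    have hm : n * n'⁻¹ ∈ N := N.mul_mem hn (N.inv_mem hn')
    have hs : r⁻¹ * (n * n'⁻¹) * r' ∈ R ⊓ MulAction.stabilizer Γ b := by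
      refine ⟨R.mul_mem (R.mul_mem (R.inv_mem hr) (hNR hm)) hr', ?_⟩
      show (r⁻¹ * (n * n'⁻¹) * r') • b = b
      rw [mul_smul, ← h2, mul_smul, mul_smul, inv_smul_smul, h1, inv_smul_smul]
    have hk : r⁻¹ * (n * n'⁻¹)⁻¹ * r ∈ N :=
      (Subgroup.mem_normalizer_iff''.1 (hRN hr) _).1 (N.inv_mem hm)
    have he : r⁻¹ * r' = (r⁻¹ * (n * n'⁻¹)⁻¹ * r) * (r⁻¹ * (n * n'⁻¹) * r') := by group
    rw [he]
    exact Dd.mul_mem (le_sup_left (a := N) hk) (le_sup_right (a := N) hs)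
  let g : (R ⧸ Dd.subgroupOf R) → F := fun q =>
    ⟨(hP (q.out : R) (q.out : R).2).choose, (hP (q.out : R) (q.out : R).2).choose_spec.1⟩
  have hg : Function.Injective g := by
    intro q q' hqq
    have e1 := (hP (q.out : R) (q.out : R).2).choose_spec.2
    have e2 := (hP (q'.out : R) (q'.out : R).2).choose_spec.2
    have e3 : (hP (q.out : R) (q.out : R).2).choose = (hP (q'.out : R) (q'.out : R).2).choose :=
      congrArg Subtype.val hqq
    rw [← e3] at e2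
    have e4 := key _ (q.out : R).2 _ (q'.out : R).2 _ e1 e2
    have e5 : (q.out)⁻¹ * q'.out ∈ Dd.subgroupOf R := e4
    rw [← QuotientGroup.eq] at e5
    have e6 : (QuotientGroup.mk (q.out) : R ⧸ Dd.subgroupOf R) = q := QuotientGroup.out_eq' q
    have e7 : (QuotientGroup.mk (q'.out) : R ⧸ Dd.subgroupOf R) = q' := QuotientGroup.out_eq' q'
    rw [← e6, ← e7]
    exact e5
  haveI : Finite (R ⧸ Dd.subgroupOf R) := Finite.of_injective g hg
  exact Subgroup.index_ne_zero_of_finite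


theorem comm_stab (hT : TreeAct Γ V T) (R : Subgroup Γ) (b : V) (r : Γ) (hr : r ∈ R) :
    ((R ⊓ MulAction.stabilizer Γ b).map (MulAut.conj r).toMonoidHom).relIndex
      (R ⊓ MulAction.stabilizer Γ b) ≠ 0 := by
  have h0 : (Orb (R ⊓ MulAction.stabilizer Γ b) b).Finite := by
    refine (Set.finite_singleton b).subset ?_
    rintro x ⟨m, hm, rfl⟩
    exact hm.2
  have h1 := orb_finite hT (R ⊓ MulAction.stabilizer Γ b) b (r • b) h0
  have h2 := relIndex_stab (R ⊓ MulAction.stabilizer Γ b) (r • b) h1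
  have h3 : MulAction.stabilizer Γ (r • b) ⊓ (R ⊓ MulAction.stabilizer Γ b) ≤
      (R ⊓ MulAction.stabilizer Γ b).map (MulAut.conj r).toMonoidHom := by
    rintro l ⟨hl1, hl2, -⟩
    refine ⟨r⁻¹ * l * r, ⟨R.mul_mem (R.mul_mem (R.inv_mem hr) hl2) hr, ?_⟩, ?_⟩
    · have h4 : l • r • b = r • b := hl1
      show (r⁻¹ * l * r) • b = b
      rw [mul_smul, mul_smul, h4, inv_smul_smul]
    · show r * (r⁻¹ * l * r) * r⁻¹ = l
      group
  have h4 := Subgroup.relIndex_dvd_of_le_left (R ⊓ MulAction.stabilizer Γ b) h3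
  rw [Subgroup.inf_relIndex_right] at h4
  intro h5
  rw [h5] at h4
  exact h2 (Nat.eq_zero_of_zero_dvd h4)


end Pool.H87N
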