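import Pool.Agent.Lib.H87N.T01

/-!
# T03: a convex invariant set with finitely many orbits

`M = ⟨S⟩` and the set `S o = {s • o : s ∈ S}` is finite. For `s ∈ S` let `P_s` be the support of the
path from `o` to `s • o`; it only depends on `s • o`, so `F = {o} ∪ ⋃_{s ∈ S} P_s` is finite (union
over the finite set `S o` of supports of chosen paths). Put `Y = {m • f : m ∈ M, f ∈ F}`; it is
`M`-invariant, nonempty, `FinOrb M Y`.
(1) every point `m • f` of `Y` is joined to `m • o` by a walk in `Y`: `f ∈ P_s`, the first part of the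
path from `o` to `s • o` (`Walk.takeUntil`, support contained) is in `F`, translate by `m` (`mapWalk`).
(2) for every `m ∈ M` there is a walk from `o` to `m • o` in `Y`: `Subgroup.closure_induction`; for
`s ∈ S` the path `P_s`; for `1` the trivial walk; for `m m'` the walk from `o` to `m o` followed by
the translate by `m` of the walk from `o` to `m' o`; for `m⁻¹` the translate by `m⁻¹` of the reversed
walk from `o` to `m o`.
So any two points of `Y` are joined by a walk in `Y` and `Y` is convex by `cvx_of_walk`.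
-/

set_option autoImplicit false

namespace Pool.H87N

variable {Γ V : Type} [Group Γ] [MulAction Γ V] {T : SimpleGraph V}

theorem exists_hull (hT : TreeAct Γ V T) (M : Subgroup Γ) (S : Set Γ)
    (hS : Subgroup.closure S = M) (o : V) (hfin : {w | ∃ s ∈ S, s • o = w}.Finite) :
    ∃ Y : Set V, Y.Nonempty ∧ Cvx T Y ∧ Inv M Y ∧ FinOrb M Y := by
  classical
  choose p hp using fun w => hT.tree.1.exists_path_of_dist o w
  let W : Set V := {w | ∃ s ∈ S, s • o = w}
  let F : Set V := {o} ∪ ⋃ w ∈ W, {x | x ∈ (p w).support}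
  have hF : F.Finite := by
    refine (Set.finite_singleton o).union (Set.Finite.biUnion hfin fun w _ => ?_)
    exact List.finite_toSet _
  let Y : Set V := {v | ∃ m ∈ M, ∃ f ∈ F, m • f = v}
  have hoF : o ∈ F := Or.inl rfl
  have hYi : Inv M Y := by
    rintro m hm _ ⟨m', hm', f, hf, rfl⟩
    exact ⟨m * m', M.mul_mem hm hm', f, hf, mul_smul m m' f⟩
  have hFY : ∀ f ∈ F, f ∈ Y := fun f hf => ⟨1, M.one_mem, f, hf, one_smul _ f⟩
  have htr : ∀ m ∈ M, ∀ u v : V, (∃ q : T.Walk u v, ∀ x ∈ q.support, x ∈ Y) →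
      ∃ q : T.Walk (m • u) (m • v), ∀ x ∈ q.support, x ∈ Y := by
    rintro m hm u v ⟨q, hq⟩
    obtain ⟨q', hq', -⟩ := mapWalk hT m q
    refine ⟨q', fun x hx => ?_⟩
    obtain ⟨y, hy, rfl⟩ := (hq' x).1 hx
    exact hYi m hm y (hq y hy)
  -- (1)
  have h1 : ∀ f ∈ F, ∃ q : T.Walk o f, ∀ x ∈ q.support, x ∈ Y := by
    intro f hf
    rcases hf with hf | hf
    · rw [Set.mem_singleton_iff] at hf
      subst hf
      refine ⟨SimpleGraph.Walk.nil, fun x hx => ?_⟩
      rw [SimpleGraph.Walk.support_nil, List.mem_singleton] at hx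
      rw [hx]
      exact hFY _ hoF
    · rw [Set.mem_iUnion₂] at hf
      obtain ⟨w, hw, hf⟩ := hf
      refine ⟨(p w).takeUntil f hf, fun x hx => hFY x (Or.inr ?_)⟩
      rw [Set.mem_iUnion₂]
      exact ⟨w, hw, (p w).support_takeUntil_subset hf hx⟩
  -- (2)
  have h2 : ∀ m ∈ M, ∃ q : T.Walk o (m • o), ∀ x ∈ q.support, x ∈ Y := by
    intro m hm
    rw [← hS] at hm
    induction hm using Subgroup.closure_induction with
    | mem s hs =>
      refine ⟨p (s • o), fun x hx => hFY x (Or.inr ?_)⟩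
      rw [Set.mem_iUnion₂]
      exact ⟨s • o, ⟨s, hs, rfl⟩, hx⟩
    | one =>
      rw [one_smul]
      exact h1 o hoF
    | mul a b ha hb iha ihb =>
      obtain ⟨qa, hqa⟩ := iha
      obtain ⟨qb, hqb⟩ := htr a (hS ▸ ha) _ _ ihb
      rw [mul_smul]
      refine ⟨qa.append qb, fun x hx => ?_⟩
      rw [SimpleGraph.Walk.mem_support_append_iff] at hx
      exact hx.elim (hqa x) (hqb x)
    | inv a ha iha =>
      obtain ⟨qa, hqa⟩ := iha
      have := htr a⁻¹ (M.inv_mem (hS ▸ ha)) (a • o) o ⟨qa.reverse, fun x hx => by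
        rw [SimpleGraph.Walk.support_reverse, List.mem_reverse] at hx
        exact hqa x hx⟩
      rwa [inv_smul_smul] at this
  -- (3)
  have h3 : ∀ v ∈ Y, ∃ q : T.Walk o v, ∀ x ∈ q.support, x ∈ Y := by
    rintro v ⟨m, hm, f, hf, rfl⟩
    obtain ⟨q1, hq1⟩ := h2 m hm
    obtain ⟨q2, hq2⟩ := htr m hm _ _ (h1 f hf)
    refine ⟨q1.append q2, fun x hx => ?_⟩
    rw [SimpleGraph.Walk.mem_support_append_iff] at hx
    exact hx.elim (hq1 x) (hq2 x)
  refine ⟨Y, ⟨o, hFY o hoF⟩, cvx_of_walk hT.tree Y ?_, hYi, ⟨F, hF, hFY, fun x hx => hx⟩⟩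
  intro u hu v hv
  obtain ⟨q1, hq1⟩ := h3 u hu
  obtain ⟨q2, hq2⟩ := h3 v hv
  refine ⟨q1.reverse.append q2, fun x hx => ?_⟩
  rw [SimpleGraph.Walk.mem_support_append_iff, SimpleGraph.Walk.support_reverse,
    List.mem_reverse] at hx
  exact hx.elim (hq1 x) (hq2 x)

end Pool.H87N
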