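import Pool.Agent.Lib.H87N.T02

/-!
# T04: the smallest invariant convex set

`M` has no finite orbit on `V`, and there is a nonempty convex `M`-invariant `Y₀` with finitely many
orbits (`F ⊆ Y₀` finite with `Y₀ = M F`).

(1) Two nonempty convex `M`-invariant sets intersect: otherwise `M` fixes a vertex by `exists_fixed`
and has an orbit with one element.
(2) For a nonempty convex `M`-invariant `Y ⊆ Y₀` we have `Y = M (Y ∩ F)`. Choose such an `X` with
`(X ∩ F).ncard` minimal (`Nat.find` or `WellFounded.min`; `Y₀` is one). If `Y` is any nonempty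
convex `M`-invariant set, then `Y ∩ X` is nonempty by (1), convex, invariant and contained in `Y₀`,
and `(Y ∩ X) ∩ F ⊆ X ∩ F`, so by minimality and finiteness `(Y ∩ X) ∩ F = X ∩ F` and
`Y ∩ X = M (Y ∩ X ∩ F) = M (X ∩ F) = X`, i.e. `X ⊆ Y`.
(3) `FinOrb M X` (with `X ∩ F`). If `g` normalises `M`, then `g X = {v | ∃ x ∈ X, g • x = v}` is
nonempty, convex (`cvx_smul`) and `M`-invariant, so `X ⊆ g X`; this for `g⁻¹` gives `g X ⊆ X`.
-/

set_option autoImplicit false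

namespace Pool.H87N

variable {Γ V : Type} [Group Γ] [MulAction Γ V] {T : SimpleGraph V}

theorem exists_min (hT : TreeAct Γ V T) (M : Subgroup Γ) (hno : ∀ v : V, ¬ (Orb M v).Finite)
    (Y₀ : Set V) (h1 : Y₀.Nonempty) (h2 : Cvx T Y₀) (h3 : Inv M Y₀) (h4 : FinOrb M Y₀) :
    ∃ X : Set V, X.Nonempty ∧ FinOrb M X ∧ Inv (Subgroup.normalizer (M : Set Γ)) X := by
  obtain ⟨F, hF1, hF2, hF3⟩ := h4
  -- two invariant convex sets meet
  have hmeet : ∀ Y Z : Set V, Y.Nonempty → Z.Nonempty → Cvx T Y → Cvx T Z → Inv M Y → Inv M Z →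
      (Y ∩ Z).Nonempty := by
    intro Y Z hYn hZn hY hZ hYi hZi
    by_contra hne
    have hd : Disjoint Y Z := by
      rw [Set.disjoint_iff_inter_eq_empty]
      exact Set.not_nonempty_iff_eq_empty.1 hne
    obtain ⟨y, -, hy⟩ := exists_fixed hT hY hZ hYn hZn hd
    refine hno y (Set.Finite.subset (Set.finite_singleton y) ?_)
    rintro w ⟨m, hm, rfl⟩
    exact hy m (hYi m hm) (hZi m hm)
  -- the minimal set
  let C : Set (Set V) := {X | X.Nonempty ∧ Cvx T X ∧ Inv M X ∧ X ⊆ Y₀}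
  obtain ⟨n, ⟨X, hX, hXn⟩, hmin⟩ := WellFounded.has_min Nat.lt_wfRel.wf
    ((fun X : Set V => (X ∩ F).ncard) '' C) ⟨_, Y₀, ⟨h1, h2, h3, le_rfl⟩, rfl⟩
  obtain ⟨hX1, hX2, hX3, hX4⟩ := hX
  have hgen : ∀ X' : Set V, Inv M X' → X' ⊆ Y₀ → ∀ x ∈ X', ∃ m ∈ M, ∃ f ∈ X' ∩ F, m • f = x := by
    intro X' hi hs x hx
    obtain ⟨m, hm, f, hf, rfl⟩ := hF3 x (hs hx)
    refine ⟨m, hm, f, ⟨?_, hf⟩, rfl⟩
    have := hi m⁻¹ (M.inv_mem hm) _ hx
    rwa [inv_smul_smul] at this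
  have hsub : ∀ Y : Set V, Y.Nonempty → Cvx T Y → Inv M Y → X ⊆ Y := by
    intro Y hYn hY hYi
    have hC : Y ∩ X ∈ C := by
      refine ⟨hmeet Y X hYn hX1 hY hX2 hYi hX3, cvx_inter hY hX2, ?_,
        Set.inter_subset_right.trans hX4⟩
      intro m hm x hx
      exact ⟨hYi m hm x hx.1, hX3 m hm x hx.2⟩
    have hle : (X ∩ F).ncard ≤ ((Y ∩ X) ∩ F).ncard := by
      have := hmin _ ⟨Y ∩ X, hC, rfl⟩
      simp only at hXn this
      rw [hXn]
      exact not_lt.1 this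
    have heq : (Y ∩ X) ∩ F = X ∩ F := by
      refine Set.eq_of_subset_of_ncard_le ?_ hle (hF1.subset Set.inter_subset_right)
      intro x hx
      exact ⟨hx.1.2, hx.2⟩
    intro x hx
    obtain ⟨m, hm, f, hf, rfl⟩ := hgen X hX3 hX4 x hx
    rw [← heq] at hf
    exact hYi m hm f hf.1.1
  refine ⟨X, hX1, ⟨X ∩ F, hF1.subset Set.inter_subset_right, Set.inter_subset_left,
    hgen X hX3 hX4⟩, ?_⟩
  have hg : ∀ g ∈ Subgroup.normalizer (M : Set Γ), X ⊆ {v | ∃ y ∈ X, g • y = v} := by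
    intro g hg
    refine hsub _ ?_ (cvx_smul hT g hX2) ?_
    · obtain ⟨x, hx⟩ := hX1
      exact ⟨g • x, x, hx, rfl⟩
    · rintro m hm _ ⟨y, hy, rfl⟩
      have h5 : g⁻¹ * m * g ∈ M := by
        have := (Subgroup.mem_normalizer_iff'.1 hg (g⁻¹ * m))
        rw [mul_inv_cancel_left] at this
        exact this.2 hm
      refine ⟨(g⁻¹ * m * g) • y, hX3 _ h5 y hy, ?_⟩
      simp only [mul_smul, smul_inv_smul]
  intro g hgn x hx
  obtain ⟨y, hy, hyx⟩ := hg g⁻¹ (Subgroup.inv_mem _ hgn) hx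
  rw [← hyx, smul_inv_smul]
  exact hy

end Pool.H87N
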