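import Pool.Agent.Lib.H87N.T02

/-!
# T05: finite orbits in locally finite trees

* `sphere_finite`: `{w | T.dist v w ≤ n}` is finite, by induction on `n`: if `T.dist v w = n + 1` then
  `w` is a neighbour of some `u` with `T.dist v u = n` (`Connected.exists_walk_length_eq_dist`, take
  the penultimate vertex), and there are finitely many such `u`, each with finitely many
  neighbours.
* `orb_finite`: if `Orb M v` is finite, so is `Orb M w`: `m • w` is in the ball of radius `T.dist v w`
  around `m • v` (`dist_smul`).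
* `orb_finite_of_relIndex`: if `M' ≤ M` has finite index and `Orb M' v` is finite, then `Orb M v` is
  finite: `M` is a finite union of cosets `m_i M'`.
* `relIndex_stab`: the stabiliser of `w` in `M` has finite index if `Orb M w` is finite
  (`MulAction.index_stabilizer`, or injectivity of `M / M_w → Orb M w`).
-/

set_option autoImplicit false

namespace Pool.H87N

variable {Γ V : Type} [Group Γ] [MulAction Γ V] {T : SimpleGraph V}

theorem ball_finite (hT : TreeAct Γ V T) (v : V) (n : ℕ) : {w | T.dist v w ≤ n}.Finite := by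
  induction n with
  | zero =>
    refine (Set.finite_singleton v).subset fun w hw => ?_
    have h1 : T.dist v w = 0 := Nat.le_zero.1 hw
    exact ((hT.tree.connected.dist_eq_zero_iff).1 h1).symm
  | succ n ih =>
    refine ((Set.finite_singleton v).union (ih.biUnion fun u _ => hT.lf u)).subset fun w hw => ?_
    obtain ⟨q, hq⟩ := hT.tree.connected.exists_walk_length_eq_dist w v
    cases q with
    | nil => exact Or.inl rfl
    | @cons _ u _ h q' =>
      right
      rw [SimpleGraph.Walk.length_cons] at hq
      have hw' : T.dist v w ≤ n + 1 := hw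
      rw [SimpleGraph.dist_comm] at hw'
      have h2 : T.dist v u ≤ n := by
        rw [SimpleGraph.dist_comm]
        have := SimpleGraph.dist_le q'
        omega
      exact Set.mem_biUnion h2 h.symm


theorem orb_finite (hT : TreeAct Γ V T) (M : Subgroup Γ) (v w : V) (h : (Orb M v).Finite) :
    (Orb M w).Finite := by
  refine (h.biUnion fun u _ => ball_finite hT u (T.dist v w)).subset ?_
  rintro x ⟨m, hm, rfl⟩
  refine Set.mem_biUnion ⟨m, hm, rfl⟩ ?_
  show T.dist (m • v) (m • w) ≤ _
  rw [dist_smul hT]


theorem orb_finite_of_relIndex (M' M : Subgroup Γ) (hM : M' ≤ M) (hi : M'.relIndex M ≠ 0) (v : V)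
    (h : (Orb M' v).Finite) : (Orb M v).Finite := by
  haveI : Finite (M ⧸ M'.subgroupOf M) := by
    have : (M'.subgroupOf M).index ≠ 0 := hi
    haveI : (M'.subgroupOf M).FiniteIndex := ⟨this⟩
    infer_instance
  refine (Set.finite_iUnion fun q : M ⧸ M'.subgroupOf M =>
    h.image fun x => ((q.out : M) : Γ) • x).subset ?_
  rintro x ⟨m, hm, rfl⟩
  let q : M ⧸ M'.subgroupOf M := QuotientGroup.mk (⟨m, hm⟩ : M)
  refine Set.mem_iUnion.2 ⟨q, ?_⟩
  have h1 : (q.out)⁻¹ * ⟨m, hm⟩ ∈ M'.subgroupOf M := by
    rw [← QuotientGroup.eq]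
    exact QuotientGroup.out_eq' q
  refine ⟨((q.out : M) : Γ)⁻¹ • m • v, ⟨((q.out : M) : Γ)⁻¹ * m, h1, by rw [mul_smul]⟩, ?_⟩
  exact smul_inv_smul _ _


theorem relIndex_stab (M : Subgroup Γ) (w : V) (h : (Orb M w).Finite) :
    (MulAction.stabilizer Γ w).relIndex M ≠ 0 := by
  have h1 : (MulAction.stabilizer Γ w).relIndex M = (MulAction.stabilizer M w).index := rfl
  rw [h1, MulAction.index_stabilizer]
  have h2 : MulAction.orbit M w = Orb M w := by
    ext x
    constructor
    · rintro ⟨m, rfl⟩
      exact ⟨m, m.2, rfl⟩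
    · rintro ⟨m, hm, rfl⟩
      exact ⟨⟨m, hm⟩, rfl⟩
  rw [h2]
  have h3 : (Orb M w).Nonempty := ⟨w, 1, M.one_mem, one_smul _ _⟩
  exact (Set.ncard_pos h).2 h3 |>.ne'


end Pool.H87N
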