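import Pool.Agent.Lib.H87N.A02
import Pool.Agent.Lib.H87N.T03
import Pool.Agent.Lib.H87N.T04
import Pool.Agent.Lib.H87N.T05

/-!
# L02: the invariant set for a compactly generated subgroup with an infinite orbit

* `orbit_compact_finite`: `s ↦ s • o` is locally constant (constant on the cosets of the open
  stabiliser of `o`), so it takes finitely many values on a compact set.
* `exists_cocompact`: no orbit of `N` is finite (`orb_finite`). `N` is generated by a compact set
  `S` (`cg_iff`), so `exists_hull` (T03) and `exists_min` (T04) apply.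
-/

set_option autoImplicit false

namespace Pool.H87N

open Topology Pointwise

theorem orbit_compact_finite {G V : Type} [Group G] [TopologicalSpace G] [IsTopologicalGroup G]
    [MulAction G V] (hst : ∀ v : V, IsOpen ((MulAction.stabilizer G v : Subgroup G) : Set G))
    (S : Set G) (hS : IsCompact S) (o : V) : {w | ∃ s ∈ S, s • o = w}.Finite := by
  letI : TopologicalSpace V := ⊥
  haveI : DiscreteTopology V := ⟨rfl⟩
  have hf : IsLocallyConstant fun s : G => s • o := by
    rw [IsLocallyConstant.iff_exists_open]
    intro x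
    refine ⟨(fun g => x⁻¹ * g) ⁻¹' (MulAction.stabilizer G o : Set G),
      (hst o).preimage (continuous_const_mul x⁻¹), ?_, ?_⟩
    · simp
    · intro y hy
      have h1 : (x⁻¹ * y) • o = o := hy
      rw [mul_smul, inv_smul_eq_iff] at h1
      exact h1
  have h2 : (fun s : G => s • o) '' S = {w | ∃ s ∈ S, s • o = w} := rfl
  rw [← h2]
  exact (hS.image hf.continuous).finite_of_discrete


theorem exists_cocompact {G V : Type} [Group G] [TopologicalSpace G] [IsTopologicalGroup G]
    [MulAction G V] {T : SimpleGraph V} (hT : TreeAct G V T)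
    (hst : ∀ v : V, IsOpen ((MulAction.stabilizer G v : Subgroup G) : Set G)) (N : Subgroup G)
    (hcg : CG N) (v : V) (hinf : ¬ (Orb N v).Finite) :
    (∀ w : V, ¬ (Orb N w).Finite) ∧
      ∃ X : Set V, X.Nonempty ∧ FinOrb N X ∧ Inv (Subgroup.normalizer (N : Set G)) X := by
  have hno : ∀ w : V, ¬ (Orb N w).Finite := fun w hw => hinf (orb_finite hT N w v hw)
  obtain ⟨S, hSc, hS⟩ := (cg_iff N).1 hcg
  obtain ⟨Y, hY1, hY2, hY3, hY4⟩ := exists_hull hT N S hS v (orbit_compact_finite hst S hSc v)
  exact ⟨hno, exists_min hT N hno Y hY1 hY2 hY3 hY4⟩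


end Pool.H87N
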