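import Pool.Agent.Lib.H87N.L01
import Pool.Agent.Lib.H87N.L02

/-!
# L03: from a tree to a commensurated subgroup

`N ≤ R ≤ K` subgroups of `G`, `K` open, `R` normalises `N`, `N` compactly generated. `K` acts on the
locally finite tree `T` with open vertex stabilisers, and `N` has an infinite orbit. Then there is an
open subgroup `P` of `G` such that `N (R ∩ P)` has finite index in `R`, `R ∩ P` is commensurated by
`R` and `N` is not contained in `P`.

Proof. Work in the topological group `↥K` with `N' = N.subgroupOf K ≤ R' = R.subgroupOf K`. `N'` is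
compactly generated (`cg_iff`; `N = closure S`, `S` compact, the preimage of `S` in `K` is compact
because `K` is closed; or use the homeomorphism `Subgroup.subgroupOfEquivOfLe`). `R'` normalises `N'`.
By `exists_cocompact` there is `X`, take `b ∈ X`. By L01 for `Γ = ↥K` the group
`N' ⊔ (R' ⊓ K_b)` has finite index in `R'` and `R' ⊓ K_b` is commensurated by `R'`. Put
`P = (MulAction.stabilizer ↥K b).map K.subtype`; it is open in `G` (`K` is open). `K.subtype` is
injective, maps `N'`, `R'` onto `N`, `R` (`Subgroup.map_subgroupOf_eq_of_le`), `R' ⊓ K_b` onto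
`R ⊓ P` and commutes with sups, and relative indices do not change under an injective homomorphism
(`Subgroup.relIndex_map_map_of_injective` or similar), and conjugation commutes with `K.subtype`.
If `N ≤ P`, then the orbit of `b` under `N'` is `{b}`, but no orbit of `N'` is finite.
-/

set_option autoImplicit false

namespace Pool.H87N

open Topology Pointwise

theorem exists_comm_of_tree {G : Type} [Group G] [TopologicalSpace G] [IsTopologicalGroup G]
    (K R N : Subgroup G) (hK : IsOpen (K : Set G)) (hNR : N ≤ R) (hRK : R ≤ K)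
    (hRN : R ≤ Subgroup.normalizer (N : Set G)) (hcg : CG N)
    {V : Type} [MulAction K V] {T : SimpleGraph V} (hT : TreeAct K V T)
    (hst : ∀ v : V, IsOpen ((MulAction.stabilizer K v : Subgroup K) : Set K)) (v : V)
    (hinf : ¬ (Orb (N.subgroupOf K) v).Finite) :
    ∃ P : Subgroup G, IsOpen (P : Set G) ∧ (N ⊔ (R ⊓ P)).relIndex R ≠ 0 ∧
      (∀ r ∈ R, ((R ⊓ P).map (MulAut.conj r).toMonoidHom).relIndex (R ⊓ P) ≠ 0) ∧ ¬ N ≤ P := by
  have hNK : N ≤ K := hNR.trans hRK
  have hcg' : CG (N.subgroupOf K) := by
    refine CG.surj ((Subgroup.subgroupOfEquivOfLe hNK).symm : N →* N.subgroupOf K) ?_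
      (Subgroup.subgroupOfEquivOfLe hNK).symm.surjective hcg
    have h1 : Continuous fun x : N => (⟨⟨x.1, hNK x.2⟩, x.2⟩ : N.subgroupOf K) :=
      Continuous.subtype_mk (Continuous.subtype_mk continuous_subtype_val _) _
    exact h1
  obtain ⟨hno, X, hXn, hX1, hX2⟩ := exists_cocompact hT hst (N.subgroupOf K) hcg' v hinf
  obtain ⟨b, hb⟩ := hXn
  have hRN' : R.subgroupOf K ≤ Subgroup.normalizer (N.subgroupOf K : Set K) := by
    intro r hr
    rw [Subgroup.mem_normalizer_iff]
    intro h
    exact Subgroup.mem_normalizer_iff.1 (hRN hr) h.1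
  have hNR' : N.subgroupOf K ≤ R.subgroupOf K := fun x hx => hNR hx
  have hinv : Inv (R.subgroupOf K) X := fun m hm x hx => hX2 m (hRN' hm) x hx
  have hmN : (N.subgroupOf K).map K.subtype = N := by
    rw [Subgroup.subgroupOf_map_subtype]
    exact inf_eq_left.2 hNK
  have hmR : (R.subgroupOf K).map K.subtype = R := by
    rw [Subgroup.subgroupOf_map_subtype]
    exact inf_eq_left.2 hRK
  have hinj : Function.Injective K.subtype := K.subtype_injective
  have hmP : (R.subgroupOf K ⊓ MulAction.stabilizer K b).map K.subtype =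
      R ⊓ (MulAction.stabilizer K b).map K.subtype := by
    rw [Subgroup.map_inf _ _ _ hinj, hmR]
  refine ⟨(MulAction.stabilizer K b).map K.subtype, ?_, ?_, ?_, ?_⟩
  · rw [Subgroup.coe_map]
    exact hK.isOpenMap_subtype_val _ (hst b)
  · have h1 := relIndex_of_finOrb (R.subgroupOf K) (N.subgroupOf K) hNR' hRN' X hX1 hinv b hb
    rw [← Subgroup.relIndex_map_map_of_injective _ _ hinj, Subgroup.map_sup, hmN, hmP, hmR] at h1
    exact h1
  · intro r hr
    have h1 := comm_stab hT (R.subgroupOf K) b ⟨r, hRK hr⟩ hr
    rw [← Subgroup.relIndex_map_map_of_injective _ _ hinj, Subgroup.map_map] at h1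
    have h2 : K.subtype.comp (MulAut.conj (⟨r, hRK hr⟩ : K)).toMonoidHom =
        (MulAut.conj r).toMonoidHom.comp K.subtype := by
      ext x
      rfl
    rw [h2, ← Subgroup.map_map, hmP] at h1
    exact h1
  · intro hN
    refine hno b ((Set.finite_singleton b).subset ?_)
    rintro x ⟨m, hm, rfl⟩
    obtain ⟨k, hk, hk2⟩ := hN hm
    have h1 : k = m := hinj hk2
    rw [← h1]
    exact hk


end Pool.H87N
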