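import Pool.Agent.Lib.H87N.Defs

/-!
# L04: the finite residual

For a subgroup `L` of `G` let `FinRes L` be the intersection of all closed subgroups `D ≤ L` of finite
relative index in `L`.
* `finRes_le`, `finRes_closed` (if `L` is closed).
* `finRes_eq`: if `L' ≤ L` is closed of finite relative index, then `FinRes L' = FinRes L`: a closed
  `D ≤ L'` of finite index in `L'` has finite index in `L` (`Subgroup.relIndex_mul_relIndex`);
  conversely for `D ≤ L` closed of finite index `D ⊓ L'` is closed of finite index in `L'`.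
* `finRes_conj`: `FinRes (g L g⁻¹) = g (FinRes L) g⁻¹`.
* `finRes_normalizer`: if `R` commensurates the closed subgroup `L` then `R` normalises `FinRes L`: for
  `r ∈ R` put `L' = L ⊓ r L r⁻¹`, closed, of finite index in `L` and in `r L r⁻¹` (the latter by
  conjugating the hypothesis for `r⁻¹`), so `r (FinRes L) r⁻¹ = FinRes (r L r⁻¹) = FinRes L' =
  FinRes L`.
-/

set_option autoImplicit false

namespace Pool.H87N

open Topology Pointwise

/-- The intersection of the closed subgroups of finite index of `L`. -/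
def FinRes {G : Type} [Group G] [TopologicalSpace G] (L : Subgroup G) : Subgroup G :=
  sInf {D : Subgroup G | D ≤ L ∧ IsClosed (D : Set G) ∧ D.relIndex L ≠ 0}

variable {G : Type} [Group G] [TopologicalSpace G]

theorem finRes_le (L : Subgroup G) (hL : IsClosed (L : Set G)) : FinRes L ≤ L := by
  refine sInf_le ⟨le_rfl, hL, ?_⟩
  rw [Subgroup.relIndex_self]
  exact one_ne_zero

theorem finRes_closed (L : Subgroup G) : IsClosed (FinRes L : Set G) := by
  unfold FinRes
  rw [Subgroup.coe_sInf]
  exact isClosed_biInter fun D hD => hD.2.1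

theorem finRes_eq (L L' : Subgroup G) (hL : IsClosed (L : Set G)) (hL' : IsClosed (L' : Set G))
    (h : L' ≤ L) (hi : L'.relIndex L ≠ 0) : FinRes L' = FinRes L := by
  refine le_antisymm ?_ ?_
  · refine le_sInf fun D hD => ?_
    refine (sInf_le ?_ : FinRes L' ≤ D ⊓ L').trans inf_le_left
    refine ⟨inf_le_right, ?_, ?_⟩
    · rw [Subgroup.coe_inf]
      exact hD.2.1.inter hL'
    · rw [Subgroup.inf_relIndex_right]
      exact fun h0 => hD.2.2 (Subgroup.relIndex_eq_zero_of_le_right h h0)
  · refine le_sInf fun D hD => sInf_le ⟨hD.1.trans h, hD.2.1, ?_⟩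
    rw [← Subgroup.relIndex_mul_relIndex D L' L hD.1 h]
    exact mul_ne_zero hD.2.2 hi

lemma l04_map_map (L : Subgroup G) (g : G) :
    (L.map (MulAut.conj g⁻¹).toMonoidHom).map (MulAut.conj g).toMonoidHom = L := by
  ext x
  simp only [Subgroup.mem_map, MulEquiv.coe_toMonoidHom, MulAut.conj_apply, inv_inv]
  constructor
  · rintro ⟨y, ⟨z, hz, rfl⟩, rfl⟩
    convert hz using 1
    group
  · intro hx
    exact ⟨g⁻¹ * x * g, ⟨x, hx, rfl⟩, by group⟩

lemma l04_map_map' (L : Subgroup G) (g : G) :
    (L.map (MulAut.conj g).toMonoidHom).map (MulAut.conj g⁻¹).toMonoidHom = L := by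
  have := l04_map_map L g⁻¹
  rwa [inv_inv] at this

lemma l04_comap (L : Subgroup G) (g : G) :
    L.comap (MulAut.conj g).toMonoidHom = L.map (MulAut.conj g⁻¹).toMonoidHom := by
  ext x
  simp only [Subgroup.mem_map, Subgroup.mem_comap, MulEquiv.coe_toMonoidHom, MulAut.conj_apply,
    inv_inv]
  constructor
  · intro hx
    exact ⟨_, hx, by group⟩
  · rintro ⟨z, hz, rfl⟩
    convert hz using 1
    group

lemma l04_conj_le [IsTopologicalGroup G] (L : Subgroup G) (g : G) :
    (FinRes L).map (MulAut.conj g).toMonoidHom ≤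
      FinRes (L.map (MulAut.conj g).toMonoidHom) := by
  refine le_sInf fun D hD => ?_
  rw [Subgroup.map_le_iff_le_comap]
  refine sInf_le ⟨?_, ?_, ?_⟩
  · rw [l04_comap]
    rw [← l04_map_map' L g]
    exact Subgroup.map_mono hD.1
  · rw [Subgroup.coe_comap]
    refine hD.2.1.preimage ?_
    change Continuous fun x => g * x * g⁻¹
    fun_prop
  · rw [Subgroup.relIndex_comap]
    exact hD.2.2

theorem finRes_conj [IsTopologicalGroup G] (L : Subgroup G) (g : G) :
    FinRes (L.map (MulAut.conj g).toMonoidHom) = (FinRes L).map (MulAut.conj g).toMonoidHom := by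
  refine le_antisymm ?_ (l04_conj_le L g)
  have h := l04_conj_le (L.map (MulAut.conj g).toMonoidHom) g⁻¹
  rw [l04_map_map'] at h
  have h2 := Subgroup.map_mono (f := (MulAut.conj g).toMonoidHom) h
  rwa [l04_map_map] at h2

theorem finRes_normalizer [IsTopologicalGroup G] (L R : Subgroup G) (hL : IsClosed (L : Set G))
    (h : ∀ r ∈ R, (L.map (MulAut.conj r).toMonoidHom).relIndex L ≠ 0) :
    R ≤ Subgroup.normalizer (FinRes L : Set G) := by
  intro r hr
  have hc : IsClosed ((L.map (MulAut.conj r).toMonoidHom : Subgroup G) : Set G) := by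
    have e : L.map (MulAut.conj r).toMonoidHom = L.comap (MulAut.conj r⁻¹).toMonoidHom := by
      rw [l04_comap, inv_inv]
    rw [e, Subgroup.coe_comap]
    refine hL.preimage ?_
    change Continuous fun x => r⁻¹ * x * r⁻¹⁻¹
    fun_prop
  have hc' : IsClosed ((L.map (MulAut.conj r).toMonoidHom ⊓ L : Subgroup G) : Set G) := by
    rw [Subgroup.coe_inf]
    exact hc.inter hL
  have e1 : FinRes (L.map (MulAut.conj r).toMonoidHom ⊓ L) = FinRes L := by
    refine finRes_eq _ _ hL hc' inf_le_right ?_
    rw [Subgroup.inf_relIndex_right]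
    exact h r hr
  have e2 : FinRes (L.map (MulAut.conj r).toMonoidHom ⊓ L)
      = FinRes (L.map (MulAut.conj r).toMonoidHom) := by
    refine finRes_eq _ _ hc hc' inf_le_left ?_
    rw [inf_comm, Subgroup.inf_relIndex_right, ← Subgroup.relIndex_comap, l04_comap]
    exact h r⁻¹ (inv_mem hr)
  have e3 : (FinRes L).map (MulAut.conj r).toMonoidHom = FinRes L := by
    rw [← finRes_conj, ← e2, e1]
  rw [Subgroup.mem_normalizer_iff]
  intro x
  constructor
  · intro hx
    change r * x * r⁻¹ ∈ FinRes L
    rw [← e3]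
    exact ⟨x, hx, rfl⟩
  · intro hx
    change r * x * r⁻¹ ∈ FinRes L at hx
    rw [← e3] at hx
    obtain ⟨y, hy, hxy⟩ := hx
    have : y = x := by
      have h1 : r * y * r⁻¹ = r * x * r⁻¹ := hxy
      exact mul_left_cancel (mul_right_cancel h1)
    rw [← this]
    exact hy

end Pool.H87N
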