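import Pool.Agent.Lib.H87N.F01
import Pool.Agent.Lib.H87N.L04

/-!
# L05: an open normal subgroup of `L` which is compact modulo `FinRes L`

`L` closed and compactly generated.

Proof. Work in `Γ = ↥L` (`Tdlcsc.subgroup`). Let `F` be the set of closed normal subgroups of `Γ` of
finite index; it contains `⊤` and is closed under intersection. `sInf F = (FinRes L).subgroupOf L`
(`sInf_finite_normal`): if `D ≤ L` is closed of finite relative index in `L`, the normal core of
`D.subgroupOf L` is in `F` (`Subgroup.normalCore_isClosed`, `Subgroup.finiteIndex_normalCore`), and for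
`A ∈ F` the group `A.map L.subtype` is closed in `G` and has finite relative index in `L`. Let `V` be
a compact open subgroup of `Γ` (`exists_cos`), `M = sInf F`. By the filter lemma there is `N ∈ F` such
that `W₀ = N ⊓ (V ⊔ M)` is normal in `Γ`. `N` is closed of finite index, hence open, and so `W₀` is
open (it contains `N ⊓ V`). `M ≤ W₀`, and every element of `W₀ ≤ V ⊔ M` is of the form `v m` with
`v ∈ V`, `m ∈ M` (`M` is normal, `Subgroup.mem_sup_of_normal_right` or `Subgroup.normal_mul`). Take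
`W = W₀.map L.subtype`, `C = ` the image of `V`.
-/

set_option autoImplicit false

namespace Pool.H87N

open Topology Pointwise

theorem sInf_finite_normal {G : Type} [Group G] [TopologicalSpace G] [IsTopologicalGroup G]
    (L : Subgroup G) (hL : IsClosed (L : Set G)) :
    sInf {A : Subgroup L | A.Normal ∧ IsClosed (A : Set L) ∧ A.index ≠ 0} =
      (FinRes L).subgroupOf L := by
  refine le_antisymm ?_ ?_
  · intro x hx
    rw [Subgroup.mem_subgroupOf]
    refine Subgroup.mem_sInf.2 fun D hD => ?_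
    have hcl : IsClosed ((D.subgroupOf L : Subgroup L) : Set L) :=
      hD.2.1.preimage continuous_subtype_val
    haveI : (D.subgroupOf L).FiniteIndex := ⟨hD.2.2⟩
    have hmem := (Subgroup.mem_sInf.1 hx) (D.subgroupOf L).normalCore
      ⟨inferInstance, Subgroup.normalCore_isClosed _ hcl, Subgroup.FiniteIndex.index_ne_zero⟩
    have h2 : x ∈ D.subgroupOf L := Subgroup.normalCore_le (D.subgroupOf L) hmem
    exact h2
  · intro x hx
    rw [Subgroup.mem_subgroupOf] at hx
    refine Subgroup.mem_sInf.2 fun A hA => ?_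
    have h1 : (x : G) ∈ A.map L.subtype := by
      refine (Subgroup.mem_sInf.1 hx) _ ⟨Subgroup.map_subtype_le A, ?_, ?_⟩
      · rw [Subgroup.coe_map]
        exact hL.isClosedEmbedding_subtypeVal.isClosedMap _ hA.2.1
      · have e : (A.map L.subtype).subgroupOf L = A :=
          Subgroup.comap_map_eq_self_of_injective L.subtype_injective A
        rw [Subgroup.relIndex, e]
        exact hA.2.2
    obtain ⟨y, hy, hxy⟩ := h1
    have : y = x := Subtype.ext hxy
    rwa [← this]

theorem exists_W {G : Type} [Group G] [TopologicalSpace G] (hG : Tdlcsc G) (L : Subgroup G)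
    (hL : IsClosed (L : Set G)) (hcg : CG L) :
    ∃ W : Subgroup G, W ≤ L ∧ FinRes L ≤ W ∧ L ≤ Subgroup.normalizer (W : Set G) ∧
      IsOpen ((W.subgroupOf L : Subgroup L) : Set L) ∧
      ∃ C : Set G, IsCompact C ∧ (W : Set G) ⊆ C * (FinRes L : Set G) := by
  haveI := hG.tg
  have hΓ : Tdlcsc L := hG.subgroup L hL
  haveI := hΓ.tg
  obtain ⟨V, hVo, hVc, -⟩ := exists_cos hΓ (O := Set.univ) Filter.univ_mem
  obtain ⟨N, hN, hnorm⟩ := filter_lemma hΓ hcg V hVo hVc
    {A : Subgroup L | A.Normal ∧ IsClosed (A : Set L) ∧ A.index ≠ 0}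
    ⟨⊤, inferInstance, isClosed_univ, by rw [Subgroup.index_top]; exact one_ne_zero⟩
    (by
      rintro A ⟨hA1, hA2, hA3⟩ B ⟨hB1, hB2, hB3⟩
      refine ⟨A ⊓ B, ⟨inferInstance, ?_, ?_⟩, le_rfl⟩
      · rw [Subgroup.coe_inf]
        exact hA2.inter hB2
      · exact Subgroup.index_inf_ne_zero hA3 hB3)
    (fun A hA => hA.2.1) (fun A hA => hA.1)
  rw [sInf_finite_normal L hL] at hnorm
  set M : Subgroup L := (FinRes L).subgroupOf L with hM
  have hMN : M ≤ N := by
    rw [hM, ← sInf_finite_normal L hL]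
    exact sInf_le hN
  haveI hMn : M.Normal := by
    rw [hM, ← sInf_finite_normal L hL]
    refine ⟨fun n hn g => Subgroup.mem_sInf.2 fun A hA => ?_⟩
    exact hA.1.conj_mem n (Subgroup.mem_sInf.1 hn A hA) g
  set W₀ : Subgroup L := N ⊓ (V ⊔ M) with hW₀
  have hNo : IsOpen (N : Set L) := by
    haveI : N.FiniteIndex := ⟨hN.2.2⟩
    exact Subgroup.isOpen_of_isClosed_of_finiteIndex N hN.2.1
  have hWo : IsOpen (W₀ : Set L) := by
    rw [hW₀, Subgroup.coe_inf]
    exact hNo.inter (Subgroup.isOpen_mono le_sup_left hVo)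
  have e : (W₀.map L.subtype).subgroupOf L = W₀ :=
    Subgroup.comap_map_eq_self_of_injective L.subtype_injective W₀
  refine ⟨W₀.map L.subtype, Subgroup.map_subtype_le W₀, ?_, ?_, ?_,
    (fun x : L => (x : G)) '' (V : Set L), hVc.image continuous_subtype_val, ?_⟩
  · intro x hx
    have hxL : x ∈ L := finRes_le L hL hx
    have hxM : (⟨x, hxL⟩ : L) ∈ M := hx
    exact ⟨⟨x, hxL⟩, ⟨hMN hxM, Subgroup.mem_sup_right hxM⟩, rfl⟩
  · intro l hl
    rw [Subgroup.mem_normalizer_iff]
    intro x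
    constructor
    · rintro ⟨y, hy, rfl⟩
      exact ⟨⟨l, hl⟩ * y * ⟨l, hl⟩⁻¹, hnorm.conj_mem y hy ⟨l, hl⟩, rfl⟩
    · rintro ⟨y, hy, hxy⟩
      refine ⟨⟨l, hl⟩⁻¹ * y * ⟨l, hl⟩⁻¹⁻¹, hnorm.conj_mem y hy (⟨l, hl⟩ : L)⁻¹, ?_⟩
      change l⁻¹ * (y : G) * l⁻¹⁻¹ = x
      have h1 : (y : G) = l * x * l⁻¹ := hxy
      rw [h1]
      group
  · rw [e]
    exact hWo
  · rintro x ⟨y, hy, rfl⟩
    have hy2 : y ∈ ((V ⊔ M : Subgroup L) : Set L) := hy.2
    rw [Subgroup.mul_normal] at hy2
    obtain ⟨v, hv, m, hm, rfl⟩ := hy2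
    exact ⟨v, ⟨v, hv, rfl⟩, m, hm, rfl⟩

end Pool.H87N
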