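import Pool.Agent.Lib.H87N.F04
import Pool.Agent.Lib.H87N.L05

/-!
# L06: `FinRes L` is not contained in a kernel

`R` closed, `L ≤ R` a subgroup which is open in `R` and compactly generated, `K` a kernel (closed
normal in `R`, `S = R / K ∈ 𝒮`) with `R = K L`. Then `FinRes L` is not contained in `K`.

Proof. `L` is closed in `R`, hence in `G`. Let `W`, `C` be as in `exists_W` (L05). Suppose that
`E = FinRes L ≤ K`. Let `π : R → S` be the quotient map. Let `A` be the image `π(W)`. If `w ∈ W`,
`w = c e` with `c ∈ C`, `e ∈ E`, then `c = w e⁻¹ ∈ W` (as `E ≤ W`) and `π(w) = π(c)` because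
`e ∈ K`; so `A = π(C ∩ W)`, the image of a compact set (`W` is open in `L`, so closed in `L` and in
`G`), and `A` is compact, hence closed. `A` is normal in `S`: every element of `S` is `π(l)` with
`l ∈ L` (`R = K L`), and `L` normalises `W`. So `A = ⊤` or `A = ⊥`. In the first case `S` is compact,
against `ClassS.not_compact`. In the second case `W ≤ K`; `W` is open in `L`, hence open in `R`, so
`K.subgroupOf R` is open in `↥R` and `S` is discrete, against `ClassS.nondiscrete`.
-/

set_option autoImplicit false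

namespace Pool.H87N

open Topology Pointwise

theorem not_finRes_le_sker {G : Type} [Group G] [TopologicalSpace G] (hG : Tdlcsc G)
    (R L K : Subgroup G) (hRc : IsClosed (R : Set G)) (hLR : L ≤ R)
    (hLo : IsOpen ((L.subgroupOf R : Subgroup R) : Set R)) (hcg : CG L) (hK : SKer R K)
    (hgen : R ≤ K ⊔ L) : ¬ FinRes L ≤ K := by
  intro hE
  have := hG.tg
  obtain ⟨hn, hS⟩ := hK.quot
  have hLc : IsClosed (L : Set G) := by
    have h1 : IsClosed ((L.subgroupOf R : Subgroup R) : Set R) :=
      Subgroup.isClosed_of_isOpen _ hLo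
    have h2 : IsClosed ((Subtype.val : R → G) '' ((L.subgroupOf R : Subgroup R) : Set R)) :=
      hRc.isClosedEmbedding_subtypeVal.isClosedMap _ h1
    have h3 : ((Subtype.val : R → G) '' ((L.subgroupOf R : Subgroup R) : Set R))
        = (L : Set G) := by
      ext x
      constructor
      · rintro ⟨y, hy, rfl⟩
        exact hy
      · intro hx
        exact ⟨⟨x, hLR hx⟩, hx, rfl⟩
    rwa [h3] at h2
  obtain ⟨W, hWL, hEW, hLN, hWo, C, hC, hWC⟩ := exists_W hG L hLc hcg
  have hWc : IsClosed (W : Set G) := by
    have h1 : IsClosed ((W.subgroupOf L : Subgroup L) : Set L) :=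
      Subgroup.isClosed_of_isOpen _ hWo
    have h2 : IsClosed ((Subtype.val : L → G) '' ((W.subgroupOf L : Subgroup L) : Set L)) :=
      hLc.isClosedEmbedding_subtypeVal.isClosedMap _ h1
    have h3 : ((Subtype.val : L → G) '' ((W.subgroupOf L : Subgroup L) : Set L))
        = (W : Set G) := by
      ext x
      constructor
      · rintro ⟨y, hy, rfl⟩
        exact hy
      · intro hx
        exact ⟨⟨x, hWL hx⟩, hx, rfl⟩
    rwa [h3] at h2
  -- the image
  set π : R →* (↥R ⧸ K.subgroupOf R) := QuotientGroup.mk' (K.subgroupOf R) with hπ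
  have hπc : Continuous π := continuous_quotient_mk'
  set A : Subgroup (↥R ⧸ K.subgroupOf R) := (W.subgroupOf R).map π with hA
  have hcomp : IsCompact (A : Set (↥R ⧸ K.subgroupOf R)) := by
    have h1 : IsCompact (C ∩ (W : Set G)) := hC.inter_right hWc
    have h2 : IsCompact ((Subtype.val : R → G) ⁻¹' (C ∩ (W : Set G))) :=
      hRc.isClosedEmbedding_subtypeVal.isCompact_preimage h1
    have h3 : (A : Set (↥R ⧸ K.subgroupOf R))
        = π '' ((Subtype.val : R → G) ⁻¹' (C ∩ (W : Set G))) := by
      ext s
      constructor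
      · rintro ⟨w, hw, rfl⟩
        have hw' : (w : G) ∈ (W : Set G) := hw
        obtain ⟨c, hc, e, he, hce⟩ := hWC hw'
        have hce' : c * e = (w : G) := hce
        have hc1 : c = (w : G) * e⁻¹ := by rw [← hce']; group
        have hcW : c ∈ W := by
          rw [hc1]
          exact mul_mem hw' (inv_mem (hEW he))
        have hcR : c ∈ R := hLR (hWL hcW)
        refine ⟨⟨c, hcR⟩, ⟨hc, hcW⟩, ?_⟩
        refine QuotientGroup.eq.2 ?_
        rw [Subgroup.mem_subgroupOf]
        change c⁻¹ * (w : G) ∈ K
        rw [← hce', inv_mul_cancel_left]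
        exact hE he
      · rintro ⟨w, hw, rfl⟩
        exact ⟨w, hw.2, rfl⟩
    rw [h3]
    exact h2.image hπc
  have hmapL : (L.subgroupOf R).map π = ⊤ := by
    have h1 : K.subgroupOf R ⊔ L.subgroupOf R = ⊤ := by
      rw [← Subgroup.subgroupOf_sup hK.le hLR]
      exact Subgroup.subgroupOf_eq_top.2 hgen
    have h2 : ((K.subgroupOf R ⊔ L.subgroupOf R : Subgroup R)).map π = ⊤ := by
      rw [h1, ← MonoidHom.range_eq_map]
      exact MonoidHom.range_eq_top.2 (QuotientGroup.mk'_surjective _)
    rw [Subgroup.map_sup, QuotientGroup.map_mk'_self, bot_sup_eq] at h2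
    exact h2
  have hAn : A.Normal := by
    refine ⟨fun a ha g => ?_⟩
    have hg : g ∈ (L.subgroupOf R).map π := by rw [hmapL]; trivial
    obtain ⟨l, hl, rfl⟩ := hg
    obtain ⟨w, hw, rfl⟩ := ha
    refine ⟨l * w * l⁻¹, ?_, by simp only [map_mul, map_inv]⟩
    have hl' : (l : G) ∈ L := hl
    exact (Subgroup.mem_normalizer_iff.1 (hLN hl') (w : G)).1 hw
  have hT := hS.tdlcsc
  have := hT.t2
  rcases hS.simple A hAn hcomp.isClosed with h | h
  · -- `W ≤ K`
    apply hS.nondiscrete
    have hWK : W.subgroupOf R ≤ K.subgroupOf R := by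
      intro w hw
      have h1 : π w ∈ A := ⟨w, hw, rfl⟩
      rw [h, Subgroup.mem_bot] at h1
      exact (QuotientGroup.eq_one_iff w).1 h1
    have hWRo : IsOpen ((W.subgroupOf R : Subgroup R) : Set R) := by
      obtain ⟨O, hO, hOW⟩ := isOpen_induced_iff.1 hWo
      obtain ⟨O', hO', hOL⟩ := isOpen_induced_iff.1 hLo
      refine isOpen_induced_iff.2 ⟨O ∩ O', hO.inter hO', ?_⟩
      ext x
      constructor
      · rintro ⟨hx1, hx2⟩
        have hxL : (x : G) ∈ L := by
          have : x ∈ (Subtype.val : R → G) ⁻¹' O' := hx2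
          rw [hOL] at this
          exact this
        have : (⟨(x : G), hxL⟩ : L) ∈ (Subtype.val : L → G) ⁻¹' O := hx1
        rw [hOW] at this
        exact this
      · intro hx
        have hxW : (x : G) ∈ W := hx
        have hxL : (x : G) ∈ L := hWL hxW
        constructor
        · have : (⟨(x : G), hxL⟩ : L) ∈ ((W.subgroupOf L : Subgroup L) : Set L) := hxW
          rw [← hOW] at this
          exact this
        · have : x ∈ ((L.subgroupOf R : Subgroup R) : Set R) := hxL
          rw [← hOL] at this
          exact this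
    have hKo : IsOpen ((K.subgroupOf R : Subgroup R) : Set R) :=
      Subgroup.isOpen_mono hWK hWRo
    exact QuotientGroup.discreteTopology hKo
  · apply hS.not_compact
    refine ⟨?_⟩
    have h2 : (A : Set (↥R ⧸ K.subgroupOf R)) = Set.univ := by rw [h]; rfl
    rw [← h2]
    exact hcomp

end Pool.H87N
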