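import Pool.Agent.Lib.H87N.E05
import Pool.Agent.Lib.H87N.A03
import Pool.Agent.Lib.H87N.B02

/-!
# P01: the residual `R = Res^ω(H)`

`H` an open subgroup of `G`, `R = Res^ω(H)`.
* `IsResOmega.normalizer`: `H` normalises `R` (`Subgroup.normal_subgroupOf_iff_le_normalizer`).
* `IsResOmega.cg`: if `G` is Noetherian, `R` is compactly generated: `cg_of_noeth` with `U = H`.
* `IsResOmega.res`: `Res ↥R = ⊤`. Let `D = (Res ↥R).map R.subtype ≤ R`. `D` is closed in `G` (closed
  in the closed subgroup `R`). `H` normalises `D`: for `h ∈ H` conjugation by `h` is a continuous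
  automorphism of `↥R`, so it maps `Res ↥R` into itself (`map_mem_res`). `D.subgroupOf R = Res ↥R`,
  and `↥R ⧸ Res ↥R` is t.d.l.c.s.c. with trivial residual (`res_quotient`), so `FRQ D R` by `finRank_of_res_bot`. By `frq_of_chain` `FRQ D H`, and
  `least` gives `R ≤ D`.
* `IsResOmega.eq_bot`: if `R` is elementary of finite rank then `R = ⊥`: `↥R ⧸ ⊥.subgroupOf R` is
  topologically isomorphic to `R` (for example by `nonempty_quot_congr`, or directly: the quotient
  map is an open continuous bijection), so `FRQ ⊥ R`, and `FRQ ⊥ H` by `frq_of_chain`; use `least`.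
* `IsResOmega.eq_bot_of_compact`: with `finRank_of_compact`.
* `IsResOmega.unique`: `least` twice.
-/

set_option autoImplicit false

namespace Pool.H87N

open Topology Pointwise

variable {G : Type} [Group G] [TopologicalSpace G] {H R : Subgroup G}

theorem IsResOmega.normalizer (h : IsResOmega H R) : H ≤ Subgroup.normalizer (R : Set G) := by
  obtain ⟨h1, -⟩ := h.frq
  exact (Subgroup.normal_subgroupOf_iff_le_normalizer h.le).1 h1

theorem IsResOmega.cg (h : IsResOmega H R) (hG : Tdlcsc G) (hN : Noeth G)
    (hH : IsOpen (H : Set G)) : CG R :=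
  cg_of_noeth hG hN R H h.closed hH h.normalizer

theorem IsResOmega.res (h : IsResOmega H R) (hG : Tdlcsc G) (hH : IsOpen (H : Set G)) :
    Res R = ⊤ := by
  have := hG.tg
  have hHc : IsClosed (H : Set G) := H.isClosed_of_isOpen hH
  have hRT : Tdlcsc R := hG.subgroup R h.closed
  have hnorm := h.normalizer
  set D : Subgroup G := (Res R).map R.subtype with hD
  have hDR : D ≤ R := Subgroup.map_subtype_le _
  have hDs : D.subgroupOf R = Res R := by
    rw [hD]
    exact Subgroup.comap_map_eq_self_of_injective R.subtype_injective _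
  have hDc : IsClosed (D : Set G) := by
    have h1 : (D : Set G) = Subtype.val '' ((Res R : Subgroup R) : Set R) := by
      rw [hD, Subgroup.coe_map]
      rfl
    rw [h1]
    have hrc : IsClosed ((Res R : Subgroup R) : Set R) := res_closed
    exact h.closed.isClosedEmbedding_subtypeVal.isClosedMap _ hrc
  have hDn : (D.subgroupOf H).Normal := by
    rw [Subgroup.normal_subgroupOf_iff_le_normalizer (hDR.trans h.le)]
    have hconj : ∀ g ∈ H, ∀ d ∈ D, g * d * g⁻¹ ∈ D := by
      rintro g hg d ⟨x, hx, rfl⟩
      have hgR : ∀ y ∈ R, g * y * g⁻¹ ∈ R := fun y hy =>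
        (Subgroup.mem_normalizer_iff.1 (hnorm hg) y).1 hy
      let f : R →* R :=
        { toFun := fun y => ⟨g * y * g⁻¹, hgR y y.2⟩
          map_one' := Subtype.ext (by simp)
          map_mul' := fun y z => Subtype.ext (by simp) }
      have hf : Continuous f := by
        refine Continuous.subtype_mk ?_ _
        have h1 : Continuous fun y : R => (y : G) := continuous_subtype_val
        exact (continuous_const.mul h1).mul continuous_const
      exact ⟨f x, map_mem_res f hf x hx, rfl⟩
    intro g hg
    rw [Subgroup.mem_normalizer_iff]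
    intro d
    refine ⟨fun hd => hconj g hg d hd, fun hd => ?_⟩
    have h1 := hconj g⁻¹ (H.inv_mem hg) _ hd
    have h2 : g⁻¹ * (g * d * g⁻¹) * g⁻¹⁻¹ = d := by group
    rwa [h2] at h1
  have hfr : FRQ D R := by
    unfold FRQ
    rw [hDs]
    exact ⟨res_normal, finRank_of_res_bot (hRT.quotient _ res_closed) res_quotient⟩
  have hfrH : FRQ D H := frq_of_chain hG D R H hDR h.le hDc h.closed hHc hDn hfr h.frq
  have hle := h.least D (hDR.trans h.le) hDc hfrH
  rw [eq_top_iff]
  intro x _
  have hx := hle x.2
  have h3 : x ∈ D.subgroupOf R := hx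
  rwa [hDs] at h3

theorem IsResOmega.eq_bot (h : IsResOmega H R) (hG : Tdlcsc G) (hH : IsOpen (H : Set G))
    (hr : FinRank R) : R = ⊥ := by
  have := hG.tg
  have := hG.t2
  have hHc : IsClosed (H : Set G) := H.isClosed_of_isOpen hH
  have hRT : Tdlcsc R := hG.subgroup R h.closed
  have := hRT.t2
  have hbc : IsClosed ((⊥ : Subgroup G) : Set G) := by
    rw [Subgroup.coe_bot]
    exact isClosed_singleton
  have hfr : FRQ ⊥ R := by
    unfold FRQ
    rw [Subgroup.bot_subgroupOf]
    refine ⟨inferInstance, ?_⟩
    have hbR : IsClosed ((⊥ : Subgroup R) : Set R) := by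
      rw [Subgroup.coe_bot]
      exact isClosed_singleton
    let f : R ⧸ (⊥ : Subgroup R) →* R := QuotientGroup.lift ⊥ (MonoidHom.id R) (by
      intro x hx
      exact (Subgroup.mem_bot.1 hx))
    have hf : Continuous f :=
      continuous_quot_lift _ continuous_id
    have hfi : Function.Injective f := by
      rw [injective_iff_map_eq_one]
      intro q hq
      obtain ⟨x, rfl⟩ := QuotientGroup.mk'_surjective (⊥ : Subgroup R) q
      have h1 : x = 1 := hq
      rw [h1, map_one]
    exact FinRank.mono hRT (hRT.quotient _ hbR) f hf hfi hr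
  have hbn : ((⊥ : Subgroup G).subgroupOf H).Normal := by
    rw [Subgroup.bot_subgroupOf]
    infer_instance
  have hfrH : FRQ ⊥ H := frq_of_chain hG ⊥ R H bot_le h.le hbc h.closed hHc hbn hfr h.frq
  exact le_bot_iff.1 (h.least ⊥ bot_le hbc hfrH)

theorem IsResOmega.eq_bot_of_compact (h : IsResOmega H R) (hG : Tdlcsc G)
    (hH : IsOpen (H : Set G)) (hc : IsCompact (R : Set G)) : R = ⊥ :=
  h.eq_bot hG hH (finRank_of_compact (hG.subgroup R h.closed) (isCompact_iff_compactSpace.1 hc))

theorem IsResOmega.unique {R' : Subgroup G} (h : IsResOmega H R) (h' : IsResOmega H R') :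
    R = R' :=
  le_antisymm (h.least R' h'.le h'.closed h'.frq) (h'.least R h.le h.closed h.frq)

end Pool.H87N
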