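import Pool.Agent.Lib.H87N.B02

/-!
# R01: groups in which chains of residuals are finite

`ARes G`: the inductive predicate saying that `ARes (Res O)` for all nontrivial open compactly
generated subgroups `O` of `G`.

`ARes.mono`: if `f : L →* G` is injective and continuous, `G` t.d.l.c.s.c. and `ARes G`, then
`ARes L`. Induction on `ARes G` for all `L`, `f` (as in X01). Let `O ≤ L` be open and compactly
generated, `O ≠ ⊥`. Let `U` be a compact open subgroup of `G` (`exists_cos`); `O' = O.map f ⊔ U` is
open and compactly generated (`cg_map`, `cg_compact`, `cg_sup`, `Subgroup.isOpen_mono`), `O' ≠ ⊥`, so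
`ARes (Res O')`, and `f` restricts to an injective continuous homomorphism `Res O → Res O'`
(`map_mem_res`). `Res O'` is closed in the closed subgroup `O'`, so t.d.l.c.s.c.

`ares_of_res_bot`: if `Res G = ⊥` then `ARes G`: for `O ≤ G` the group `Res O` is trivial
(`res_eq_bot_of_injective`), and a trivial group has no subgroups `≠ ⊥`.
-/

set_option autoImplicit false

namespace Pool.H87N

open Topology Pointwise

/-- All chains of residuals are finite. -/
inductive ARes : ∀ (G : Type) [Group G] [TopologicalSpace G], Prop
  | mk (G : Type) [Group G] [TopologicalSpace G]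
      (h : ∀ O : Subgroup G, IsOpen (O : Set G) → CG O → O ≠ ⊥ → ARes (Res O)) : ARes G

theorem ARes.mono {G : Type} [Group G] [TopologicalSpace G] (h : ARes G) (hG : Tdlcsc G)
    {L : Type} [Group L] [TopologicalSpace L] (f : L →* G) (hf : Continuous f)
    (hi : Function.Injective f) : ARes L := by
  induction h generalizing L with
  | mk G _ ih =>
    have := hG.tg; have := hG.t2
    refine ARes.mk L ?_
    intro O hO hOcg hOne
    obtain ⟨U, hUo, hUc, -⟩ := exists_cos hG (Filter.univ_mem : (Set.univ : Set G) ∈ 𝓝 (1 : G))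
    set O' : Subgroup G := O.map f ⊔ U with hO'
    have hO'o : IsOpen (O' : Set G) := Subgroup.isOpen_mono (le_sup_right : U ≤ O') hUo
    have hO'cg : CG O' := cg_sup _ _ (cg_map f hf O hOcg) (cg_compact U hUc)
    have hO'ne : O' ≠ ⊥ := by
      intro hb
      apply hOne
      rw [eq_bot_iff]
      intro x hx
      have h1 : f x ∈ O' := (le_sup_left : O.map f ≤ O') ⟨x, hx, rfl⟩
      rw [hb, Subgroup.mem_bot] at h1
      rw [Subgroup.mem_bot]
      apply hi
      rw [h1, map_one]
    have hTO' : Tdlcsc O' := hG.subgroup O' (O'.isClosed_of_isOpen hO'o)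
    have := hTO'.tg
    have hTR : Tdlcsc (Res O') := hTO'.subgroup (Res O') res_closed
    -- the restriction
    let g₀ : O →* O' := (f.comp O.subtype).codRestrict O'
      (fun x => (le_sup_left : O.map f ≤ O') ⟨x, x.2, rfl⟩)
    have hg₀ : Continuous g₀ := (hf.comp continuous_subtype_val).subtype_mk _
    let g₁ : Res O →* Res O' := (g₀.comp (Res O).subtype).codRestrict (Res O')
      (fun x => map_mem_res g₀ hg₀ x x.2)
    have hg₁ : Continuous g₁ := (hg₀.comp continuous_subtype_val).subtype_mk _
    refine ih O' hO'o hO'cg hO'ne hTR g₁ hg₁ ?_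
    intro x y hxy
    apply Subtype.ext
    apply Subtype.ext
    apply hi
    have h1 := congrArg (fun z : Res O' => ((z : O') : G)) hxy
    exact h1

theorem ares_of_res_bot {G : Type} [Group G] [TopologicalSpace G] (h : Res G = ⊥) : ARes G := by
  refine ARes.mk G ?_
  intro O _ _ _
  have h1 : Res O = ⊥ := res_eq_bot_of_injective O.subtype continuous_subtype_val
    O.subtype_injective h
  refine ARes.mk _ ?_
  intro P _ _ hP
  exfalso
  apply hP
  rw [eq_bot_iff]
  intro x _
  rw [Subgroup.mem_bot]
  have hx : ((x : Res O) : O) ∈ (⊥ : Subgroup O) := h1 ▸ x.2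
  rw [Subgroup.mem_bot] at hx
  exact Subtype.ext hx

end Pool.H87N
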