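import Pool.Agent.Lib.H87N.R01

/-!
# R02: extensions

`ARes.ker`: `Q` with `ARes Q`, `φ : G →* Q` continuous with `ARes φ.ker`. Then `ARes G`. Induction on
`ARes Q` for all `G`, `φ`. Let `O ≤ G` be open and compactly generated, `O ≠ ⊥`, `U` a compact open
subgroup of `Q`, `O' = O.map φ ⊔ U`, an open compactly generated subgroup of `Q`. If `O' = ⊥`, then
`O ≤ φ.ker`, and `Res O → φ.ker` is injective and continuous, so `ARes (Res O)` by `ARes.mono`
(`φ.ker` is closed, so t.d.l.c.s.c.). Otherwise `ARes (Res O')`, `φ` restricts to a continuous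
homomorphism `χ : Res O → Res O'` (`map_mem_res`) whose kernel has an injective continuous
homomorphism into `φ.ker`, so `ARes χ.ker` by `ARes.mono`, and the induction hypothesis applies
(`Res O` and `Res O'` are t.d.l.c.s.c.).
-/

set_option autoImplicit false

namespace Pool.H87N

open Topology Pointwise

theorem ARes.ker {Q : Type} [Group Q] [TopologicalSpace Q] (h : ARes Q) (hQ : Tdlcsc Q)
    {G : Type} [Group G] [TopologicalSpace G] (hG : Tdlcsc G) (φ : G →* Q) (hφ : Continuous φ)
    (hk : ARes φ.ker) : ARes G := by
  induction h generalizing G with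
  | mk Q _ ih =>
    have := hG.tg; have := hG.t2; have := hQ.tg; have := hQ.t2
    have hkc : IsClosed (φ.ker : Set G) := by
      have h1 : (φ.ker : Set G) = φ ⁻¹' {1} := rfl
      rw [h1]; exact isClosed_singleton.preimage hφ
    have hTk : Tdlcsc φ.ker := hG.subgroup φ.ker hkc
    refine ARes.mk G ?_
    intro O hO hOcg hOne
    have hOc : IsClosed (O : Set G) := O.isClosed_of_isOpen hO
    have hTO : Tdlcsc O := hG.subgroup O hOc
    have := hTO.tg
    have hTRO : Tdlcsc (Res O) := hTO.subgroup (Res O) res_closed
    obtain ⟨U, hUo, hUc, -⟩ := exists_cos hQ (Filter.univ_mem : (Set.univ : Set Q) ∈ 𝓝 (1 : Q))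
    set O' : Subgroup Q := O.map φ ⊔ U with hO'
    have hO'o : IsOpen (O' : Set Q) := Subgroup.isOpen_mono (le_sup_right : U ≤ O') hUo
    have hO'cg : CG O' := cg_sup _ _ (cg_map φ hφ O hOcg) (cg_compact U hUc)
    by_cases hO'ne : O' = ⊥
    · have hle : ∀ x : O, (x : G) ∈ φ.ker := by
        intro x
        have h1 : φ x ∈ O' := (le_sup_left : O.map φ ≤ O') ⟨x, x.2, rfl⟩
        rw [hO'ne, Subgroup.mem_bot] at h1
        exact h1
      let g : Res O →* φ.ker := (O.subtype.comp (Res O).subtype).codRestrict φ.ker
        (fun x => hle x)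
      have hg : Continuous g :=
        (continuous_subtype_val.comp continuous_subtype_val).subtype_mk _
      refine hk.mono hTk g hg ?_
      intro x y hxy
      apply Subtype.ext
      apply Subtype.ext
      exact congrArg (fun z : φ.ker => (z : G)) hxy
    · have hTO' : Tdlcsc O' := hQ.subgroup O' (O'.isClosed_of_isOpen hO'o)
      have := hTO'.tg
      have hTR : Tdlcsc (Res O') := hTO'.subgroup (Res O') res_closed
      let g₀ : O →* O' := (φ.comp O.subtype).codRestrict O'
        (fun x => (le_sup_left : O.map φ ≤ O') ⟨x, x.2, rfl⟩)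
      have hg₀ : Continuous g₀ := (hφ.comp continuous_subtype_val).subtype_mk _
      let χ : Res O →* Res O' := (g₀.comp (Res O).subtype).codRestrict (Res O')
        (fun x => map_mem_res g₀ hg₀ x x.2)
      have hχ : Continuous χ := (hg₀.comp continuous_subtype_val).subtype_mk _
      have hχk : ∀ x : χ.ker, (((x : Res O) : O) : G) ∈ φ.ker := by
        intro x
        have h1 : χ x = 1 := x.2
        have h2 := congrArg (fun z : Res O' => ((z : O') : Q)) h1
        exact h2
      let k : χ.ker →* φ.ker :=
        ((O.subtype.comp (Res O).subtype).comp χ.ker.subtype).codRestrict φ.ker hχk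
      have hkc' : Continuous k :=
        ((continuous_subtype_val.comp continuous_subtype_val).comp
          continuous_subtype_val).subtype_mk _
      refine ih O' hO'o hO'cg hO'ne hTR hTRO χ hχ (hk.mono hTk k hkc' ?_)
      intro x y hxy
      apply Subtype.ext
      apply Subtype.ext
      apply Subtype.ext
      exact congrArg (fun z : φ.ker => (z : G)) hxy

end Pool.H87N
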