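import Pool.Agent.Lib.H87N.R02
import Pool.Agent.Lib.H87N.A03

/-!
# R03: elementary groups, and finiteness of the rank

* `Elementary.tdlcsc`: cases.
* `Elementary.ares`: induction. Profinite and discrete groups: `ares_of_res_bot` with
  `res_eq_bot_of_compact`, `res_eq_bot_of_discrete`. Extension: `ARes.ker` with `φ = mk' N`
  (`QuotientGroup.ker_mk'`). Union of the `O i`: let `O` be open and compactly generated, `O ≠ ⊥`. A
  compact generating set of `O` (`cg_iff`) is covered by the open sets `O i`, which form an
  increasing chain, so it is contained in one of them (if `ι` is empty then `hu` is absurd), and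
  `O ≤ O i`. By `ARes.mono` for the inclusion `O → O i` (so first `ARes ↥O`), and applying the
  inductive predicate for `↥O` with the open subgroup `⊤`: or more directly, `O.subgroupOf (O i)` is
  open, compactly generated and `≠ ⊥` in `O i`, so `ARes (Res (O.subgroupOf (O i)))`, and
  `Res O → Res (O.subgroupOf (O i))` is injective and continuous; `ARes.mono`.
* `xile_of_ares`: `G` Noetherian, `H` open. For every closed subgroup `A` of `G` normalised by `H`
  with `ARes A` there is `n` with `XiLE n A`. Induction on `ARes Γ` for all such `A` together with
  an injective continuous homomorphism `A → Γ` (or a topological isomorphism). `A` is compactly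
  generated (`cg_of_noeth`). If `A = ⊥`, `XiLE 1 A`. Otherwise `B = (Res ↥A).map A.subtype` is closed
  in `G` and normalised by `H` (conjugation by `h ∈ H` is a continuous automorphism of `↥A` and so
  preserves `Res ↥A`, `map_mem_res`), and `Res ↥A → Res (image ⊔ U)` is injective, so the
  induction hypothesis applies to `B`: `XiLE n B`, hence `XiLE n (Res ↥A)` by `xile_mono`
  (`Res ↥A → B` injective and continuous), and `XiLE (n + 1) A` by the second rule.
-/

set_option autoImplicit false

namespace Pool.H87N

open Topology Pointwise

theorem Elementary.tdlcsc {G : Type} [Group G] [TopologicalSpace G] (h : Elementary G) :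
    Tdlcsc G := by
  cases h <;> assumption

theorem r03_restrict {A B : Type} [Group A] [TopologicalSpace A] [Group B] [TopologicalSpace B]
    (f : A →* B) (hf : Continuous f) (hi : Function.Injective f) :
    ∃ g : Res A →* Res B, Continuous g ∧ Function.Injective g := by
  refine ⟨(f.comp (Res A).subtype).codRestrict (Res B) fun x => map_mem_res f hf x x.2, ?_, ?_⟩
  · exact (hf.comp continuous_subtype_val).subtype_mk _
  · intro x y h
    exact Subtype.ext (hi (congrArg Subtype.val h))

theorem Elementary.ares {G : Type} [Group G] [TopologicalSpace G] (h : Elementary G) :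
    ARes G := by
  induction h with
  | profinite G hG hc => exact ares_of_res_bot (res_eq_bot_of_compact hG hc)
  | discrete G hG hd => exact ares_of_res_bot (res_eq_bot_of_discrete hd)
  | extension G hG N hN h1 h2 ih1 ih2 =>
    have := hG.tg
    refine ARes.ker ih2 (hG.quotient N hN) hG (QuotientGroup.mk' N)
      QuotientGroup.continuous_mk ?_
    rw [QuotientGroup.ker_mk']
    exact ih1
  | union G hG ι O hm ho hu h ih =>
    have := hG.tg
    refine ARes.mk G fun V hVo hVc hV1 => ?_
    obtain ⟨K, hK, hKV⟩ := (cg_iff V).1 hVc
    have : Nonempty ι := ⟨(hu 1).choose⟩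
    obtain ⟨i, hi⟩ := hK.elim_directed_cover (fun i => (O i : Set G)) ho
      (fun g _ => Set.mem_iUnion.2 (hu g))
      (Monotone.directed_le (fun i j hij => hm hij))
    have hle : V ≤ O i := by
      rw [← hKV]
      exact (Subgroup.closure_le _).2 hi
    have hOi : IsClosed (O i : Set G) := (O i).isClosed_of_isOpen (ho i)
    have hT : Tdlcsc (O i) := hG.subgroup (O i) hOi
    have := hT.tg
    set V' : Subgroup (O i) := V.subgroupOf (O i) with hV'
    have hV'o : IsOpen (V' : Set (O i)) := hVo.preimage continuous_subtype_val
    have hT' : Tdlcsc V' := hT.subgroup V' (V'.isClosed_of_isOpen hV'o)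
    have := hT'.tg
    let e : V →* V' := (Subgroup.subgroupOfEquivOfLe hle).symm.toMonoidHom
    have hec : Continuous e := by
      refine Continuous.subtype_mk (Continuous.subtype_mk ?_ _) _
      exact continuous_subtype_val
    have hei : Function.Injective e := (Subgroup.subgroupOfEquivOfLe hle).symm.injective
    have hes : Function.Surjective e := (Subgroup.subgroupOfEquivOfLe hle).symm.surjective
    have hV'c : CG V' := CG.surj e hec hes hVc
    have hV'1 : V' ≠ ⊥ := by
      intro h0
      apply hV1
      rw [Subgroup.eq_bot_iff_forall]
      intro x hx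
      have h1 : (⟨x, hle hx⟩ : O i) ∈ V' := hx
      rw [h0, Subgroup.mem_bot] at h1
      exact congrArg Subtype.val h1
    obtain ⟨g, hg, hgi⟩ := r03_restrict e hec hei
    have hA : ARes (Res V') := by
      have h3 := ih i
      cases h3 with
      | mk _ h4 => exact h4 V' hV'o hV'c hV'1
    exact hA.mono (hT'.subgroup _ res_closed) g hg hgi

end Pool.H87N
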