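import Pool.Agent.Lib.H87N.B01

/-!
# X01: monotonicity of the rank

`xile_mono`: if `φ : L → G` is an injective continuous homomorphism, `G` t.d.l.c.s.c. and
`ξ(G) ≤ n`, then `ξ(L) ≤ n`.

Proof by induction on `n` for all `L, G, φ`. `n = 0`: nothing. `n + 1`:
* `G` trivial: `L` is trivial.
* general remark (R): let `U` be a compact open subgroup of `G` (`exists_cos`). If `O` is a compactly
  generated subgroup of `L`, then `O' = φ(O) ⊔ U` is an open compactly generated subgroup of `G`
  (`cg_map`, `cg_sup`, `cg_compact`, `Subgroup.isOpen_mono`), and `φ` restricts to an injective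
  continuous homomorphism `O → O'`, which maps `Res O` into `Res O'` (`map_mem_res`).
* `G` compactly generated and `ξ(Res G) ≤ n`. If `L` is compactly generated, `φ` restricts to an
  injective continuous homomorphism `Res L → Res G`; apply the induction hypothesis
  (`Res G` is closed, so t.d.l.c.s.c.). If `L` is not compactly generated and `O ≤ L` is open and
  compactly generated, use `O → L → G`, it maps `Res O` into `Res G`.
* `G` not compactly generated. If `L` is compactly generated: take `O = ⊤` in (R) (or
  `O' = range φ ⊔ U` with `CG.surj`/`cg_map` and `Res L → Res O'`), then `ξ(Res L) ≤ ξ(Res O') ≤ n`.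
  If `L` is not compactly generated, use (R) for every open compactly generated `O`.

It is convenient to prove first the restricted statement (`res_restrict`): for continuous injective
`ψ : A → B` there is a continuous injective homomorphism `Res A → Res B`.
-/

set_option autoImplicit false

namespace Pool.H87N

open Topology Pointwise

/-- Restriction of a continuous injective homomorphism to the residuals. -/
theorem res_restrict {A B : Type} [Group A] [TopologicalSpace A] [Group B] [TopologicalSpace B]
    (f : A →* B) (hf : Continuous f) (hi : Function.Injective f) :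
    ∃ g : Res A →* Res B, Continuous g ∧ Function.Injective g := by
  refine ⟨(f.comp (Res A).subtype).codRestrict (Res B) (fun x => map_mem_res f hf x x.2), ?_, ?_⟩
  · exact (hf.comp continuous_subtype_val).subtype_mk _
  · intro x y hxy
    have h1 : f x = f y := congrArg Subtype.val hxy
    exact Subtype.ext (hi h1)

theorem x01_rem {A G : Type} [Group A] [TopologicalSpace A] [Group G] [TopologicalSpace G]
    (hG : Tdlcsc G) (hA : CG A) (f : A →* G) (hf : Continuous f) (hi : Function.Injective f) :
    ∃ O : Subgroup G, IsOpen (O : Set G) ∧ CG O ∧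
      ∃ g : A →* O, Continuous g ∧ Function.Injective g := by
  have := hG.tg
  obtain ⟨U, hUo, hUc, -⟩ := exists_cos hG Filter.univ_mem
  have hr : CG f.range :=
    CG.surj f.rangeRestrict (hf.subtype_mk _) f.rangeRestrict_surjective hA
  refine ⟨f.range ⊔ U, Subgroup.isOpen_mono le_sup_right hUo, cg_sup _ _ hr (cg_compact U hUc),
    f.codRestrict (f.range ⊔ U) (fun x => Subgroup.mem_sup_left ⟨x, rfl⟩), hf.subtype_mk _, ?_⟩
  intro x y hxy
  exact hi (congrArg Subtype.val hxy)

theorem xile_mono (n : ℕ) {L G : Type} [Group L] [TopologicalSpace L] [Group G]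
    [TopologicalSpace G] (hG : Tdlcsc G) (f : L →* G) (hf : Continuous f)
    (hi : Function.Injective f) (h : XiLE n G) : XiLE n L := by
  induction n generalizing L G with
  | zero => exact h
  | succ n ih =>
    have := hG.tg
    rcases h with h | ⟨h1, h2⟩ | ⟨h1, h2⟩
    · exact Or.inl hi.subsingleton
    · have hR : Tdlcsc (Res G) := hG.subgroup (Res G) res_closed
      by_cases hL : CG L
      · obtain ⟨g, hg, hgi⟩ := res_restrict f hf hi
        exact Or.inr (Or.inl ⟨hL, ih hR g hg hgi h2⟩)
      · refine Or.inr (Or.inr ⟨hL, fun O ho hc => ?_⟩)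
        obtain ⟨g, hg, hgi⟩ := res_restrict (f.comp O.subtype) (hf.comp continuous_subtype_val)
          (hi.comp Subtype.val_injective)
        exact ih hR g hg hgi h2
    · have key : ∀ (A : Type) [Group A] [TopologicalSpace A] (ψ : A →* G), CG A →
          Continuous ψ → Function.Injective ψ → XiLE n (Res A) := by
        intro A _ _ ψ hA hψ hψi
        obtain ⟨O, hO, hOc, g, hg, hgi⟩ := x01_rem hG hA ψ hψ hψi
        have hOt : Tdlcsc O := hG.subgroup O (Subgroup.isClosed_of_isOpen O hO)
        have := hOt.tg
        have hR : Tdlcsc (Res O) := hOt.subgroup (Res O) res_closed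
        obtain ⟨k, hk, hki⟩ := res_restrict g hg hgi
        exact ih hR k hk hki (h2 O hO hOc)
      by_cases hL : CG L
      · exact Or.inr (Or.inl ⟨hL, key L f hL hf hi⟩)
      · exact Or.inr (Or.inr ⟨hL, fun O ho hc => key O (f.comp O.subtype) hc
          (hf.comp continuous_subtype_val) (hi.comp Subtype.val_injective)⟩)

end Pool.H87N
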