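import Pool.Agent.Lib.H87N.R03
import Pool.Agent.Lib.H87N.X01

/-!
# R04: in a Noetherian group elementary closed subgroups normalised by an open subgroup have finite
rank (see R03 for the proof)
-/

set_option autoImplicit false

namespace Pool.H87N

open Topology Pointwise

theorem r04_aux {G : Type} [Group G] [TopologicalSpace G] (hG : Tdlcsc G) (hN : Noeth G)
    (H : Subgroup G) (hH : IsOpen (H : Set G)) {Γ : Type} [Group Γ] [TopologicalSpace Γ]
    (h : ARes Γ) : Tdlcsc Γ → ∀ A : Subgroup G, IsClosed (A : Set G) →
      H ≤ Subgroup.normalizer (A : Set G) → ∀ f : A →* Γ, Continuous f →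
      Function.Injective f → ∃ n, XiLE n A := by
  induction h with
  | mk Γ hmk ih =>
    intro hΓ A hA hHA f hf hi
    have htg := hG.tg
    have hcg : CG A := cg_of_noeth hG hN A H hA hH hHA
    obtain ⟨O, hO, hOc, g, hg, hgi⟩ := x01_rem hΓ hcg f hf hi
    by_cases hOb : O = ⊥
    · subst hOb
      have : Subsingleton A := hgi.subsingleton
      exact ⟨1, Or.inl this⟩
    · have htA : Tdlcsc A := hG.subgroup A hA
      have := htA.tg
      have htO : Tdlcsc O := (hΓ.subgroup O (by
        have := hΓ.tg
        exact Subgroup.isClosed_of_isOpen O hO))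
      have := htO.tg
      have htR : Tdlcsc (Res O) := htO.subgroup (Res O) res_closed
      set B : Subgroup G := (Res A).map A.subtype with hBdef
      have hBA : B ≤ A := Subgroup.map_subtype_le _
      have hBc : IsClosed (B : Set G) := by
        rw [hBdef, Subgroup.coe_map]
        exact hA.isClosedEmbedding_subtypeVal.isClosedMap _ res_closed
      have hconj : ∀ x ∈ H, ∀ b ∈ B, x * b * x⁻¹ ∈ B := by
        intro x hx b hb
        obtain ⟨a, ha, rfl⟩ := hb
        have hxA := fun y => (Subgroup.mem_normalizer_iff.1 (hHA hx) y)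
        have hc : ∀ y : A, x * (y : G) * x⁻¹ ∈ A := fun y => (hxA y).1 y.2
        let c : A →* A := MonoidHom.mk' (fun y => ⟨x * (y : G) * x⁻¹, hc y⟩) (by
          intro y z
          apply Subtype.ext
          simp only [Subgroup.coe_mul]
          group)
        have hcc : Continuous c :=
          ((continuous_const.mul continuous_subtype_val).mul continuous_const).subtype_mk _
        have h1 := map_mem_res c hcc a ha
        exact ⟨c a, h1, rfl⟩
      have hHB : H ≤ Subgroup.normalizer (B : Set G) := by
        intro x hx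
        rw [Subgroup.mem_normalizer_iff]
        intro b
        refine ⟨hconj x hx b, fun hb => ?_⟩
        have h2 := hconj x⁻¹ (H.inv_mem hx) _ hb
        have h3 : x⁻¹ * (x * b * x⁻¹) * x⁻¹⁻¹ = b := by group
        rwa [h3] at h2
      have hmem : ∀ b : B, (⟨(b : G), hBA b.2⟩ : A) ∈ Res A := by
        rintro ⟨b, a, ha, rfl⟩
        exact ha
      let k : B →* Res A := MonoidHom.mk' (fun b => ⟨⟨(b : G), hBA b.2⟩, hmem b⟩) (by
        intro y z
        rfl)
      have hk : Continuous k := (continuous_subtype_val.subtype_mk _).subtype_mk _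
      have hki : Function.Injective k := by
        intro y z hyz
        have h1 : ((k y : Res A) : A) = ((k z : Res A) : A) := congrArg Subtype.val hyz
        have h2 : (y : G) = (z : G) := congrArg (fun t : A => (t : G)) h1
        exact Subtype.ext h2
      obtain ⟨q, hq, hqi⟩ := res_restrict g hg hgi
      obtain ⟨n, hn⟩ := ih O hO hOc hOb htR B hBc hHB (q.comp k) (hq.comp hk) (hqi.comp hki)
      refine ⟨n + 1, Or.inr (Or.inl ⟨hcg, ?_⟩)⟩
      let e : Res A →* B := MonoidHom.mk' (fun a => ⟨((a : A) : G), ⟨a, a.2, rfl⟩⟩) (by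
        intro y z
        rfl)
      refine xile_mono n (hG.subgroup B hBc) e ?_ ?_ hn
      · exact (continuous_subtype_val.comp continuous_subtype_val).subtype_mk _
      · intro y z hyz
        have h2 : ((y : A) : G) = ((z : A) : G) := congrArg (fun t : B => (t : G)) hyz
        exact Subtype.ext (Subtype.ext h2)

theorem xile_of_ares {G : Type} [Group G] [TopologicalSpace G] (hG : Tdlcsc G) (hN : Noeth G)
    (H : Subgroup G) (hH : IsOpen (H : Set G)) (A : Subgroup G) (hA : IsClosed (A : Set G))
    (hHA : H ≤ Subgroup.normalizer (A : Set G)) (h : ARes A) : ∃ n, XiLE n A :=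
  r04_aux hG hN H hH h (hG.subgroup A hA) A hA hHA (MonoidHom.id A) continuous_id
    Function.injective_id

theorem finRank_of_elementary {G : Type} [Group G] [TopologicalSpace G] (hG : Tdlcsc G)
    (hN : Noeth G) (H : Subgroup G) (hH : IsOpen (H : Set G)) (A : Subgroup G)
    (hA : IsClosed (A : Set G)) (hHA : H ≤ Subgroup.normalizer (A : Set G)) (h : Elementary A) :
    FinRank A :=
  ⟨h, xile_of_ares hG hN H hH A hA hHA h.ares⟩

end Pool.H87N
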