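import Mathlib

/-!
# T00: definitions for actions on locally finite trees
-/

set_option autoImplicit false

namespace Pool.H87N

/-- `Γ` acts by automorphisms on the locally finite tree `T` with vertex set `V`. -/
structure TreeAct (Γ V : Type) [Group Γ] [MulAction Γ V] (T : SimpleGraph V) : Prop where
  /-- `T` is a tree. -/
  tree : T.IsTree
  /-- Every vertex has finitely many neighbours. -/
  lf : ∀ v : V, (T.neighborSet v).Finite
  /-- `Γ` acts by automorphisms. -/
  adj : ∀ (g : Γ) (v w : V), T.Adj v w → T.Adj (g • v) (g • w)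

/-- A set of vertices of `T` is convex if it contains the paths between its points. -/
def Cvx {V : Type} (T : SimpleGraph V) (Y : Set V) : Prop :=
  ∀ (u v : V) (p : T.Walk u v), u ∈ Y → v ∈ Y → p.IsPath → ∀ w ∈ p.support, w ∈ Y

/-- The orbit of `v` under the subgroup `M`. -/
def Orb {Γ V : Type} [Group Γ] [MulAction Γ V] (M : Subgroup Γ) (v : V) : Set V :=
  {w | ∃ m ∈ M, m • v = w}

/-- `X` is invariant under `M`. -/
def Inv {Γ V : Type} [Group Γ] [MulAction Γ V] (M : Subgroup Γ) (X : Set V) : Prop :=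
  ∀ m ∈ M, ∀ x ∈ X, m • x ∈ X

/-- `M` has finitely many orbits on `X`: every point of `X` is in the orbit of a point of a finite
subset of `X`. -/
def FinOrb {Γ V : Type} [Group Γ] [MulAction Γ V] (M : Subgroup Γ) (X : Set V) : Prop :=
  ∃ F : Set V, F.Finite ∧ F ⊆ X ∧ ∀ x ∈ X, ∃ m ∈ M, ∃ f ∈ F, m • f = x

end Pool.H87N
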