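import Pool.Agent.Lib.H87N.T00

/-!
# T01: convex sets

* `cvx_inter`: clear.
* `cvx_of_walk`: if any two points of `Y` are joined by a walk all of whose vertices are in `Y`, then
  `Y` is convex: the unique path (`IsTree.existsUnique_path`) between two points is
  `Walk.bypass` of this walk, and `Walk.support_bypass_subset`.
* `mapWalk`: a group element maps a walk from `u` to `v` to a walk from `g u` to `g v` with support
  the image (`Walk.map` with the homomorphism `v ↦ g • v`, `Walk.support_map`).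
* `cvx_smul`: if `Y` is convex so is `{v | ∃ y ∈ Y, g • y = v}` (use `mapWalk` for `g⁻¹`; paths are
  mapped to paths because the map is injective, `Walk.map_isPath_of_injective`).
-/

set_option autoImplicit false

namespace Pool.H87N

variable {Γ V : Type} [Group Γ] [MulAction Γ V] {T : SimpleGraph V}

theorem cvx_inter {Y Z : Set V} (hY : Cvx T Y) (hZ : Cvx T Z) : Cvx T (Y ∩ Z) := by
  intro u v p hu hv hp w hw
  exact ⟨hY u v p hu.1 hv.1 hp w hw, hZ u v p hu.2 hv.2 hp w hw⟩


theorem cvx_of_walk (hT : T.IsTree) (Y : Set V)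
    (h : ∀ u ∈ Y, ∀ v ∈ Y, ∃ p : T.Walk u v, ∀ w ∈ p.support, w ∈ Y) : Cvx T Y := by
  classical
  intro u v p hu hv hp w hw
  obtain ⟨q, hq⟩ := h u hu v hv
  have h1 : p = q.bypass := (hT.existsUnique_path u v).unique hp q.bypass_isPath
  rw [h1] at hw
  exact hq w (q.support_bypass_subset_support hw)


theorem mapWalk (hT : TreeAct Γ V T) (g : Γ) {u v : V} (p : T.Walk u v) :
    ∃ q : T.Walk (g • u) (g • v), (∀ w, w ∈ q.support ↔ ∃ x ∈ p.support, g • x = w) ∧
      (p.IsPath → q.IsPath) := by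
  let f : T →g T := ⟨fun v => g • v, fun h => hT.adj g _ _ h⟩
  have hf : Function.Injective f := fun a b hab => smul_left_cancel g hab
  refine ⟨p.map f, fun w => ?_, fun hp => SimpleGraph.Walk.IsPath.map hf hp⟩
  rw [SimpleGraph.Walk.support_map, List.mem_map]
  rfl


theorem cvx_smul (hT : TreeAct Γ V T) (g : Γ) {Y : Set V} (hY : Cvx T Y) :
    Cvx T {v | ∃ y ∈ Y, g • y = v} := by
  rintro u v p ⟨y1, hy1, rfl⟩ ⟨y2, hy2, rfl⟩ hp w hw
  obtain ⟨q, hq, hqp⟩ := mapWalk hT g⁻¹ p
  have h1 := hY _ _ q (by rw [inv_smul_smul]; exact hy1) (by rw [inv_smul_smul]; exact hy2)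
    (hqp hp) (g⁻¹ • w) ((hq _).2 ⟨w, hw, rfl⟩)
  exact ⟨g⁻¹ • w, h1, smul_inv_smul g w⟩


end Pool.H87N
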