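import Pool.Agent.Lib.H87N.T01

/-!
# T02: disjoint convex sets

`Y`, `Z` nonempty disjoint convex sets of vertices of a tree. There is `y ∈ Y` which is fixed by
every group element preserving both `Y` and `Z`.

Proof. Let `δ` be the minimum of `T.dist y z` over `y ∈ Y`, `z ∈ Z` (`Nat.find`), attained at
`(y, z)`. Uniqueness of `y` (`bridge_unique`): let also `T.dist y' z' = δ`, `y' ∈ Y`, `z' ∈ Z`. Let
`p` be a path from `y` to `z` of length `δ` (`SimpleGraph.Connected.exists_path_of_dist` or
`exists_walk_length_eq_dist`). A vertex `w` of `p` different from `y` is not in `Y`: it is closer to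
`z`, `T.dist w z < δ` (`Walk.dropUntil` has smaller length); likewise a vertex different from `z`
is not in `Z`. Let `a` be the path from `y'` to `y`, it is contained in `Y` (convexity), and `b` the
path from `z` to `z'`, contained in `Z`. The walk `a.append (p.append b)` from `y'` to `z'` is a path,
because the supports are disjoint up to the joints (`Walk.support_append`, `List.nodup_append`).
By uniqueness of paths its length is `T.dist y' z' = δ` (a path in a tree is geodesic: the path of
length `dist` is the unique path). So `a.length + δ + b.length = δ`, `a.length = 0`, `y' = y`.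
If `g` preserves `Y` and `Z` then `T.dist (g • y) (g • z) = δ` (`dist_smul`: `mapWalk` for `g` and
`g⁻¹`), so `g • y = y`.
-/

set_option autoImplicit false

namespace Pool.H87N

variable {Γ V : Type} [Group Γ] [MulAction Γ V] {T : SimpleGraph V}

theorem dist_smul (hT : TreeAct Γ V T) (g : Γ) (u v : V) :
    T.dist (g • u) (g • v) = T.dist u v := by
  have key : ∀ (g : Γ) (u v : V), T.dist (g • u) (g • v) ≤ T.dist u v := by
    intro g u v
    obtain ⟨p, hp⟩ := hT.tree.1.exists_walk_length_eq_dist u v
    let f : T →g T := ⟨fun x => g • x, fun {a b} h => hT.adj g a b h⟩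
    rw [← hp, ← SimpleGraph.Walk.length_map f p]
    exact SimpleGraph.dist_le (p.map f)
  refine le_antisymm (key g u v) ?_
  have := key g⁻¹ (g • u) (g • v)
  rwa [inv_smul_smul, inv_smul_smul] at this

theorem t02_append {u v w : V} (p : T.Walk u v) (q : T.Walk v w) (hp : p.IsPath) (hq : q.IsPath)
    (h : ∀ x ∈ p.support, x ∈ q.support → x = v) : (p.append q).IsPath := by
  rw [SimpleGraph.Walk.isPath_def, SimpleGraph.Walk.support_append, List.nodup_append']
  have hq' := hq.support_nodup
  rw [SimpleGraph.Walk.support_eq_cons, List.nodup_cons] at hq'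
  refine ⟨hp.support_nodup, hq'.2, ?_⟩
  intro x hx hx'
  have h1 : x ∈ q.support := List.mem_of_mem_tail hx'
  have h2 := h x hx h1
  rw [h2] at hx'
  exact hq'.1 hx'

theorem bridge_unique (hT : T.IsTree) {Y Z : Set V} (hY : Cvx T Y) (hZ : Cvx T Z)
    (hd : Disjoint Y Z) (δ : ℕ) (hmin : ∀ y ∈ Y, ∀ z ∈ Z, δ ≤ T.dist y z) {y y' z z' : V}
    (hy : y ∈ Y) (hy' : y' ∈ Y) (hz : z ∈ Z) (hz' : z' ∈ Z) (h : T.dist y z = δ)
    (h' : T.dist y' z' = δ) : y' = y := by
  classical
  obtain ⟨a, ha, -⟩ := hT.1.exists_path_of_dist y' y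
  obtain ⟨p, hp, hpl⟩ := hT.1.exists_path_of_dist y z
  obtain ⟨b, hb, -⟩ := hT.1.exists_path_of_dist z z'
  obtain ⟨q, hq, hql⟩ := hT.1.exists_path_of_dist y' z'
  have haY : ∀ w ∈ a.support, w ∈ Y := hY y' y a hy' hy ha
  have hbZ : ∀ w ∈ b.support, w ∈ Z := hZ z z' b hz hz' hb
  have hYp : ∀ w ∈ p.support, w ∈ Y → w = y := by
    intro w hw hwY
    by_contra hne
    have h1 : T.dist w z ≤ (p.dropUntil w hw).length := SimpleGraph.dist_le _
    have h2 : (p.takeUntil w hw).length + (p.dropUntil w hw).length = p.length := by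
      rw [← SimpleGraph.Walk.length_append, SimpleGraph.Walk.take_spec]
    have h3 : 0 < (p.takeUntil w hw).length := by
      rw [Nat.pos_iff_ne_zero]
      intro h0
      exact hne (SimpleGraph.Walk.eq_of_length_eq_zero h0).symm
    have h4 := hmin w hwY z hz
    omega
  have hZp : ∀ w ∈ p.support, w ∈ Z → w = z := by
    intro w hw hwZ
    by_contra hne
    have h1 : T.dist y w ≤ (p.takeUntil w hw).length := SimpleGraph.dist_le _
    have h2 : (p.takeUntil w hw).length + (p.dropUntil w hw).length = p.length := by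
      rw [← SimpleGraph.Walk.length_append, SimpleGraph.Walk.take_spec]
    have h3 : 0 < (p.dropUntil w hw).length := by
      rw [Nat.pos_iff_ne_zero]
      intro h0
      exact hne (SimpleGraph.Walk.eq_of_length_eq_zero h0)
    have h4 := hmin y hy w hwZ
    omega
  have hap : (a.append p).IsPath :=
    t02_append a p ha hp fun x hx hx' => hYp x hx' (haY x hx)
  have hapb : ((a.append p).append b).IsPath := by
    refine t02_append _ b hap hb fun x hx hx' => ?_
    have hxZ := hbZ x hx'
    rw [SimpleGraph.Walk.mem_support_append_iff] at hx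
    rcases hx with hx | hx
    · exact absurd hxZ (Set.disjoint_left.1 hd (haY x hx))
    · exact hZp x hx hxZ
  have hu : (a.append p).append b = q :=
    congrArg Subtype.val (hT.IsAcyclic.path_unique ⟨_, hapb⟩ ⟨q, hq⟩)
  have hl := congrArg SimpleGraph.Walk.length hu
  rw [SimpleGraph.Walk.length_append, SimpleGraph.Walk.length_append, hql, hpl, h, h'] at hl
  exact SimpleGraph.Walk.eq_of_length_eq_zero (p := a) (by omega)

theorem exists_fixed (hT : TreeAct Γ V T) {Y Z : Set V} (hY : Cvx T Y) (hZ : Cvx T Z)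
    (hYn : Y.Nonempty) (hZn : Z.Nonempty) (hd : Disjoint Y Z) :
    ∃ y ∈ Y, ∀ g : Γ, (∀ x ∈ Y, g • x ∈ Y) → (∀ x ∈ Z, g • x ∈ Z) → g • y = y := by
  classical
  have hex : ∃ n, ∃ y ∈ Y, ∃ z ∈ Z, T.dist y z = n := by
    obtain ⟨y, hy⟩ := hYn
    obtain ⟨z, hz⟩ := hZn
    exact ⟨_, y, hy, z, hz, rfl⟩
  obtain ⟨y, hy, z, hz, h⟩ := Nat.find_spec hex
  refine ⟨y, hy, fun g hgY hgZ => ?_⟩
  refine bridge_unique hT.tree hY hZ hd (Nat.find hex) ?_ hy (hgY y hy) hz (hgZ z hz) h ?_
  · intro y' hy' z' hz'
    exact Nat.find_min' hex ⟨y', hy', z', hz', rfl⟩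
  · rw [dist_smul hT, h]

end Pool.H87N
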