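import Pool.Agent.Lib.H87N.X01

/-!
# X02: more on the rank

* `xile_succ`: `ξ(G) ≤ n → ξ(G) ≤ n + 1`, by induction on `n` (for all `G`); `xile_le`.
* `xile_of_res_bot`: if `Res G = ⊥` then `ξ(G) ≤ 2`: if `G` is compactly generated, `Res G` is a
  trivial group, so `ξ(Res G) ≤ 1`. Otherwise for open compactly generated `O` the group `Res O` is
  trivial by `res_eq_bot_of_injective` for the inclusion.
-/

set_option autoImplicit false

namespace Pool.H87N

open Topology Pointwise

theorem xile_succ (n : ℕ) {G : Type} [Group G] [TopologicalSpace G] (h : XiLE n G) :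
    XiLE (n + 1) G := by
  induction n generalizing G with
  | zero => exact absurd h (by simp [XiLE])
  | succ n ih =>
    rcases h with h | ⟨h1, h2⟩ | ⟨h1, h2⟩
    · exact Or.inl h
    · exact Or.inr (Or.inl ⟨h1, ih h2⟩)
    · exact Or.inr (Or.inr ⟨h1, fun O hO hcg => ih (h2 O hO hcg)⟩)

theorem xile_le {m n : ℕ} (hmn : m ≤ n) {G : Type} [Group G] [TopologicalSpace G]
    (h : XiLE m G) : XiLE n G := by
  induction hmn with
  | refl => exact h
  | step _ ih => exact xile_succ _ ih

theorem xile_of_res_bot {G : Type} [Group G] [TopologicalSpace G] (h : Res G = ⊥) :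
    XiLE 2 G := by
  by_cases hcg : CG G
  · refine Or.inr (Or.inl ⟨hcg, Or.inl ?_⟩)
    rw [h]
    infer_instance
  · refine Or.inr (Or.inr ⟨hcg, fun O _ _ => Or.inl ?_⟩)
    have h1 : Res O = ⊥ := res_eq_bot_of_injective O.subtype continuous_subtype_val
      O.subtype_injective h
    rw [h1]
    infer_instance

end Pool.H87N
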