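import Pool.Agent.Lib.H87N.F09
import Pool.Agent.Lib.H87N.A03
import Pool.Agent.Lib.H87N.P01

/-!
# Z01: the intersection of the kernels

`Core R` is the intersection of `R` with all kernels `N` (`SKer R N`).
* `core_closed`, `core_le`, `core_le_sker`: clear.
* `core_normalizer`: if `g` normalises `R`, then `g N g⁻¹` is a kernel for every kernel `N`
  (`SKer.conj`), so `g (Core R) g⁻¹ ≤ Core R`, and the same for `g⁻¹`.
* `core_cg`: for `R = Res^ω(H)` in a Noetherian group, `cg_of_noeth` with `U = H`.
* `core_eq_or`: if `R ≠ ⊥`, there is a kernel: `exists_sker` with `E = ⊥`; so `Core R` is the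
  intersection of the kernels.
-/

set_option autoImplicit false

namespace Pool.H87N

open Topology Pointwise

variable {G : Type} [Group G] [TopologicalSpace G]

/-- The intersection of `R` and all closed normal subgroups `N` of `R` with `R / N` in `𝒮`. -/
def Core (R : Subgroup G) : Subgroup G := R ⊓ sInf {N : Subgroup G | SKer R N}

theorem core_le (R : Subgroup G) : Core R ≤ R := inf_le_left

theorem core_le_sker {R N : Subgroup G} (h : SKer R N) : Core R ≤ N :=
  inf_le_right.trans (sInf_le h)

theorem core_closed (R : Subgroup G) (hR : IsClosed (R : Set G)) :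
    IsClosed (Core R : Set G) := by
  have h1 : (Core R : Set G) = (R : Set G) ∩ ⋂ N ∈ {N : Subgroup G | SKer R N}, (N : Set G) := by
    rw [Core, Subgroup.coe_inf, Subgroup.coe_sInf]
  rw [h1]
  exact hR.inter (isClosed_biInter (fun N hN => SKer.closed hN))

theorem core_normalizer (hG : Tdlcsc G) (R : Subgroup G) :
    Subgroup.normalizer (R : Set G) ≤ Subgroup.normalizer (Core R : Set G) := by
  have key : ∀ g ∈ Subgroup.normalizer (R : Set G), ∀ x ∈ Core R, g * x * g⁻¹ ∈ Core R := by
    intro g hg x hx
    refine Subgroup.mem_inf.mpr ⟨(Subgroup.mem_normalizer_iff.mp hg x).mp (core_le R hx), ?_⟩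
    rw [Subgroup.mem_sInf]
    intro N hN
    have hN' : SKer R (N.map (MulAut.conj g⁻¹).toMonoidHom) :=
      SKer.conj hG R N hN g⁻¹ (inv_mem hg)
    obtain ⟨y, hy, hyx⟩ := core_le_sker hN' hx
    have h1 : g⁻¹ * y * g⁻¹⁻¹ = x := hyx
    have h2 : g * x * g⁻¹ = y := by rw [← h1]; group
    rw [h2]
    exact hy
  intro g hg
  rw [Subgroup.mem_normalizer_iff]
  intro x
  constructor
  · exact key g hg x
  · intro hx
    have h1 := key g⁻¹ (inv_mem hg) _ hx
    have e : g⁻¹ * (g * x * g⁻¹) * g⁻¹⁻¹ = x := by group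
    rwa [e] at h1

theorem core_cg (hG : Tdlcsc G) (hN : Noeth G) (H R : Subgroup G) (hH : IsOpen (H : Set G))
    (h : IsResOmega H R) : CG (Core R) :=
  cg_of_noeth hG hN (Core R) H (core_closed R h.closed) hH (h.normalizer.trans
    (core_normalizer hG R))

theorem exists_sker_of_ne_bot (hG : Tdlcsc G) (hN : Noeth G) (H R : Subgroup G)
    (hH : IsOpen (H : Set G)) (h : IsResOmega H R) (hne : R ≠ ⊥) :
    ∃ N : Subgroup G, SKer R N := by
  have := hG.t2
  have hb : IsClosed ((⊥ : Subgroup G) : Set G) := by
    rw [Subgroup.coe_bot]; exact isClosed_singleton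
  obtain ⟨N, -, hN⟩ := exists_sker hG R h.closed (h.cg hG hN hH) (h.res hG hH) ⊥ bot_le hb
    (fun r _ => by
      rw [Subgroup.mem_normalizer_iff]
      intro x
      constructor
      · intro hx
        have hx1 : x = 1 := hx
        rw [hx1]; simp
      · intro hx
        have hx1 : r * x * r⁻¹ = 1 := hx
        have hx2 : x = 1 := by
          have := congrArg (fun z => r⁻¹ * z * r) hx1
          simpa [mul_assoc] using this
        rw [hx2]; exact Subgroup.one_mem _) (Ne.symm hne)
  exact ⟨N, hN⟩

end Pool.H87N
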