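import Pool.Agent.Lib.H87N.L03
import Pool.Agent.Lib.H87N.L06
import Pool.Agent.Lib.H87N.Z01

/-!
# Z02: commensurated subgroups contain `R`

`G` Noetherian, `H` open, `R = Res^ω(H)`, `P` an open subgroup such that `R ∩ P` is commensurated by
`R` and `Core(R) (R ∩ P)` has finite index in `R`. Then `R ≤ P`.

Proof. Let `L = R ⊓ P`. It is closed (`P` is open, so closed), normalised by the open subgroup
`H ⊓ P` (`H` normalises `R`), so compactly generated by `cg_of_noeth`, and open in `R`.
`D = Core R ⊔ L ≤ R` has finite index in `R` and `D.subgroupOf R` is open (it contains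
`L.subgroupOf R`), so `R ≤ D` by `IsResOmega.res` and `finiteIndex_eq_top` for `↥R`. Let
`E = FinRes L`; it is closed and `R` normalises `E` (`finRes_normalizer`). If `E ≠ R`, then
`E ≤ K` for some kernel `K` (`exists_sker`, F08), and `R ≤ Core R ⊔ L ≤ K ⊔ L`, against
`not_finRes_le_sker` (L06). So `R = E ≤ L ≤ P`.
-/

set_option autoImplicit false

namespace Pool.H87N

open Topology Pointwise

theorem le_of_comm {G : Type} [Group G] [TopologicalSpace G] (hG : Tdlcsc G) (hN : Noeth G)
    (H R P : Subgroup G) (hH : IsOpen (H : Set G)) (h : IsResOmega H R)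
    (hP : IsOpen (P : Set G)) (hi : (Core R ⊔ (R ⊓ P)).relIndex R ≠ 0)
    (hcomm : ∀ r ∈ R, ((R ⊓ P).map (MulAut.conj r).toMonoidHom).relIndex (R ⊓ P) ≠ 0) :
    R ≤ P := by
  have := hG.tg
  have hPc : IsClosed (P : Set G) := Subgroup.isClosed_of_isOpen P hP
  have hLc : IsClosed ((R ⊓ P : Subgroup G) : Set G) := h.closed.inter hPc
  have hLn : H ⊓ P ≤ Subgroup.normalizer ((R ⊓ P : Subgroup G) : Set G) := by
    rintro x ⟨hx1, hx2⟩
    have h1 := Subgroup.mem_normalizer_iff.1 (h.normalizer hx1)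
    have hxP : x ∈ P := hx2
    rw [Subgroup.mem_normalizer_iff]
    intro y
    have h2 : y ∈ P ↔ x * y * x⁻¹ ∈ P := by
      rw [P.mul_mem_cancel_right (P.inv_mem hxP), P.mul_mem_cancel_left hxP]
    rw [Subgroup.mem_inf, Subgroup.mem_inf, h1 y, h2]
  have hLcg : CG (R ⊓ P : Subgroup G) :=
    cg_of_noeth hG hN (R ⊓ P) (H ⊓ P) hLc (hH.inter hP) hLn
  have hLo : IsOpen (((R ⊓ P : Subgroup G).subgroupOf R : Subgroup R) : Set R) := by
    have h1 : IsOpen ((fun x : R => (x : G)) ⁻¹' (P : Set G)) := hP.preimage continuous_subtype_val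
    convert h1 using 1
    ext x
    simp [Subgroup.mem_subgroupOf]
  have htR : Tdlcsc R := hG.subgroup R h.closed
  have := htR.tg
  have hD : R ≤ Core R ⊔ (R ⊓ P) := by
    rw [← Subgroup.subgroupOf_eq_top]
    refine finiteIndex_eq_top (h.res hG hH) _ ?_ hi
    exact Subgroup.isOpen_mono (Subgroup.subgroupOf_mono R le_sup_right) hLo
  by_cases hE : FinRes (R ⊓ P) = R
  · calc R = FinRes (R ⊓ P) := hE.symm
      _ ≤ R ⊓ P := finRes_le _ hLc
      _ ≤ P := inf_le_right
  · exfalso
    obtain ⟨K, hEK, hK⟩ := exists_sker hG R h.closed (h.cg hG hN hH) (h.res hG hH)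
      (FinRes (R ⊓ P)) ((finRes_le _ hLc).trans inf_le_left) (finRes_closed _)
      (finRes_normalizer (R ⊓ P) R hLc hcomm) hE
    refine not_finRes_le_sker hG R (R ⊓ P) K h.closed inf_le_left hLo hLcg hK ?_ hEK
    exact hD.trans (sup_le_sup_right (core_le_sker hK) _)

/-- `Core R` has finite orbits on all locally finite trees on which `H` acts: otherwise
`exists_comm_of_tree` (L03) with `N = Core R` and `le_of_comm` give `Core R ≤ R ≤ P`, a
contradiction. -/
theorem core_orbits {G : Type} [Group G] [TopologicalSpace G] (hG : Tdlcsc G) (hN : Noeth G)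
    (H R : Subgroup G) (hH : IsOpen (H : Set G)) (h : IsResOmega H R)
    {V : Type} [MulAction H V] {T : SimpleGraph V} (hT : TreeAct H V T)
    (hst : ∀ v : V, IsOpen ((MulAction.stabilizer H v : Subgroup H) : Set H)) (v : V) :
    (Orb ((Core R).subgroupOf H) v).Finite := by
  by_contra hinf
  have := hG.tg
  obtain ⟨P, hP, hi, hcomm, hnot⟩ := exists_comm_of_tree H R (Core R) hH (core_le R) h.le
    (Subgroup.le_normalizer.trans (core_normalizer hG R)) (core_cg hG hN H R hH h) hT hst v hinf
  exact hnot ((core_le R).trans (le_of_comm hG hN H R P hH h hP hi hcomm))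

end Pool.H87N
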