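import Pool.Agent.Lib.H87N.Z01

/-!
# Z03: consequences of `H ≪ K` (`G` Noetherian, `K` open)

* `LL.le_sker`: if `RK = Res^ω(K)`, `RH = Res^ω(H)` then `RH ≤ N` for every kernel `N` of `RK`. By
  `SKer.relIndex` (F09) the normaliser of `N` has finite index in `K` (`K` normalises `RK`), and
  (b) (with `IsResOmega.unique`).
* `LL.le_core`: if moreover `RK ≠ ⊥` there is a kernel, `RH ≤ N ≤ RK` and `RH ≤ Core RK`.
* `LL.compact`: if `Res^ω(K) = ⊥`, then `H` is compact. By (a) the closure `Z` of the image of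
  `H.subgroupOf K` in `↥K ⧸ ⊥.subgroupOf K` is compact. The quotient map `q` is a homeomorphism
  (open, continuous, bijective), so `q ⁻¹' Z` is compact and contains the closed set
  `H.subgroupOf K` (`H` is open, so closed). So `H.subgroupOf K` is compact, and `H`, its image in
  `G`, too (`H ≤ K`).
* `LL.bot_or`: either `H` is compact, or `RH ≤ Core RK`. In the first case `RH ≤ H` is compact and
  `RH = ⊥` by `IsResOmega.eq_bot_of_compact`.
  So in all cases `RH ≤ Core RK` (`LL.le_core'`).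
-/

set_option autoImplicit false

namespace Pool.H87N

open Topology Pointwise

variable {G : Type} [Group G] [TopologicalSpace G] {H K RH RK : Subgroup G}

theorem LL.le_sker (h : LL H K) (hG : Tdlcsc G) (hN : Noeth G) (hK : IsOpen (K : Set G))
    (hRH : IsResOmega H RH) (hRK : IsResOmega K RK) (N : Subgroup G) (hs : SKer RK N) :
    RH ≤ N := by
  obtain ⟨RH', RK', h1, h2, -, hb⟩ := h.ab
  rw [h1.unique hRH, h2.unique hRK] at *
  exact hb N hs (SKer.relIndex hG RK N K hRK.closed (hRK.cg hG hN hK) hs hRK.normalizer)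

theorem LL.compact (h : LL H K) (hG : Tdlcsc G) (hH : IsOpen (H : Set G))
    (hRK : IsResOmega K RK) (hb : RK = ⊥) : IsCompact (H : Set G) := by
  have := hG.tg
  obtain ⟨RH', RK', h1, h2, hc, -⟩ := h.ab
  have e : RK' = ⊥ := (h2.unique hRK).trans hb
  subst e
  have hHo : IsOpen ((H.subgroupOf K : Subgroup ↥K) : Set ↥K) := hH.preimage continuous_subtype_val
  have hHc : IsClosed ((H.subgroupOf K : Subgroup ↥K) : Set ↥K) := Subgroup.isClosed_of_isOpen _ hHo
  have hinj : Function.Injective (fun x : ↥K => (x : ↥K ⧸ (⊥ : Subgroup G).subgroupOf K)) := by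
    intro x y hxy
    have h3 : x⁻¹ * y ∈ (⊥ : Subgroup G).subgroupOf K := QuotientGroup.eq.1 hxy
    rw [Subgroup.mem_subgroupOf, Subgroup.mem_bot] at h3
    have h4 : x⁻¹ * y = 1 := Subtype.ext h3
    exact (inv_mul_eq_one.1 h4)
  have hhom : IsHomeomorph (fun x : ↥K => (x : ↥K ⧸ (⊥ : Subgroup G).subgroupOf K)) := by
    constructor
    · exact QuotientGroup.continuous_mk
    · exact QuotientGroup.isOpenMap_coe
    · exact ⟨hinj,
      QuotientGroup.mk_surjective⟩
  have h5 : IsClosed ((fun x : ↥K => (x : ↥K ⧸ (⊥ : Subgroup G).subgroupOf K)) ''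
      ((H.subgroupOf K : Subgroup ↥K) : Set ↥K)) := hhom.isClosedMap _ hHc
  rw [h5.closure_eq] at hc
  have h6 : IsCompact ((H.subgroupOf K : Subgroup ↥K) : Set ↥K) :=
    hhom.isEmbedding.isCompact_iff.2 hc
  have h7 := h6.image continuous_subtype_val
  have e2 : (Subtype.val : ↥K → G) '' ((H.subgroupOf K : Subgroup ↥K) : Set ↥K) = (H : Set G) := by
    ext x
    constructor
    · rintro ⟨y, hy, rfl⟩
      exact hy
    · intro hx
      exact ⟨⟨x, h.le hx⟩, hx, rfl⟩
  rwa [e2] at h7

theorem LL.le_core (h : LL H K) (hG : Tdlcsc G) (hN : Noeth G) (hH : IsOpen (H : Set G))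
    (hK : IsOpen (K : Set G)) (hRH : IsResOmega H RH) (hRK : IsResOmega K RK) :
    RH ≤ Core RK := by
  by_cases hb : RK = ⊥
  · have h1 := h.compact hG hH hRK hb
    have h2 : IsCompact (RH : Set G) := h1.of_isClosed_subset hRH.closed hRH.le
    rw [hRH.eq_bot_of_compact hG hH h2]
    exact bot_le
  · obtain ⟨N, hs⟩ := exists_sker_of_ne_bot hG hN K RK hK hRK hb
    refine le_inf ((h.le_sker hG hN hK hRH hRK N hs).trans hs.le) (le_sInf ?_)
    intro N' hs'
    exact h.le_sker hG hN hK hRH hRK N' hs'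

end Pool.H87N
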