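import Pool.Agent.Lib.H87N.Z02
import Pool.Agent.Lib.H87N.Z03

/-!
# Z04: `Res^ω(H)` acts trivially on every locally finite tree on which `K ≫ H` acts

Let `H ≪ K`, `RH = Res^ω(H)`, `RK = Res^ω(K)`. By `LL.le_core` `RH ≤ Core RK`, and by `core_orbits`
the orbits of `Core RK`, hence those of `RH`, on `T` are finite. Let `v` be a vertex. The
stabiliser of `v` in `RH` is an open subgroup (of `↥RH`: preimage under the continuous map
`↥RH → ↥K` of the open stabiliser in `↥K`) and it has finite index because the orbit is finite. As
`Res ↥RH = ⊤` (`IsResOmega.res`), it is everything by `finiteIndex_eq_top` (B02).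
-/

set_option autoImplicit false

namespace Pool.H87N

open Topology Pointwise

theorem res_trivial {G : Type} [Group G] [TopologicalSpace G] (hG : Tdlcsc G) (hN : Noeth G)
    (H K RH : Subgroup G) (hH : IsOpen (H : Set G)) (hK : IsOpen (K : Set G)) (h : LL H K)
    (hRH : IsResOmega H RH) {V : Type} [MulAction K V] {T : SimpleGraph V} (hT : TreeAct K V T)
    (hst : ∀ v : V, IsOpen ((MulAction.stabilizer K v : Subgroup K) : Set K)) (g : K)
    (hg : (g : G) ∈ RH) (v : V) : g • v = v := by
  have := hG.tg; have := hG.t2
  obtain ⟨RH', RK, hRH', hRK, -, -⟩ := h.ab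
  have hle : RH ≤ Core RK := h.le_core hG hN hH hK hRH hRK
  have hfin := core_orbits hG hN K RK hK hRK hT hst v
  have hRHK : RH ≤ K := hRH.le.trans h.le
  -- the stabiliser of `v` in `RH`
  let j : RH →* K := RH.subtype.codRestrict K (fun x => hRHK x.2)
  have hj : Continuous j := continuous_subtype_val.subtype_mk _
  let D : Subgroup RH := (MulAction.stabilizer K v).comap j
  have hDo : IsOpen (D : Set RH) := (hst v).preimage hj
  have hDi : D.index ≠ 0 := by
    have hinj : ∃ φ : RH ⧸ D → Orb ((Core RK).subgroupOf K) v, Function.Injective φ := by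
      let φ₀ : RH → Orb ((Core RK).subgroupOf K) v := fun x =>
        ⟨j x • v, j x, hle x.2, rfl⟩
      refine ⟨Quotient.lift φ₀ ?_, ?_⟩
      · intro a b hab
        have h1 : a⁻¹ * b ∈ D := QuotientGroup.leftRel_apply.mp hab
        have h2 : (j (a⁻¹ * b)) • v = v := h1
        apply Subtype.ext
        change j a • v = j b • v
        rw [map_mul, map_inv, mul_smul] at h2
        rw [inv_smul_eq_iff] at h2
        exact h2.symm
      · intro a b
        refine Quotient.inductionOn₂ a b ?_
        intro a b hab
        apply Quotient.sound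
        apply QuotientGroup.leftRel_apply.mpr
        have h1 : j a • v = j b • v := congrArg Subtype.val hab
        change (j (a⁻¹ * b)) • v = v
        rw [map_mul, map_inv, mul_smul, inv_smul_eq_iff]
        exact h1.symm
    obtain ⟨φ, hφ⟩ := hinj
    have : Finite (Orb ((Core RK).subgroupOf K) v) := hfin
    have : Finite (RH ⧸ D) := Finite.of_injective φ hφ
    have : D.FiniteIndex := Subgroup.finiteIndex_of_finite_quotient
    exact this.index_ne_zero
  have hTR : Tdlcsc RH := hG.subgroup RH hRH.closed
  have := hTR.tg
  have hDt : D = ⊤ := finiteIndex_eq_top (hRH.res hG hH) D hDo hDi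
  have hx : (⟨(g : G), hg⟩ : RH) ∈ D := by rw [hDt]; exact Subgroup.mem_top _
  exact hx

end Pool.H87N
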