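import Pool.Agent.Lib.H87N.Z04
import Pool.Agent.Lib.H87N.R04

/-!
# Z05: chains when the common kernel of the actions is elementary

`G` acts on the locally finite trees `T i` (`i ∈ ι`) with open vertex stabilisers; `Z` is the common
kernel.
* `res_le_kernel`: `H ≪ K`, `RH = Res^ω(H)`, then `RH ≤ Z`: `res_trivial` for the restriction of the
  action to `↥K` (`MulAction ↥K V` is the instance for subgroups; `(g : K) • v = (g : G) • v`; the
  stabilisers in `↥K` are preimages of open subgroups); `RH ≤ H ≤ K`.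
* `res_bot`: if `Z` is elementary then `RH = ⊥`: the inclusion `RH → Z` is continuous and injective
  and `RH` is closed, so `RH` is elementary by `Elementary.mono` (E06); `H` normalises `RH`, so
  `FinRank RH` by `finRank_of_elementary` (R04), and `IsResOmega.eq_bot`.
* `no_chain`: `H₄ ≪ H₃ ≪ H₂ ≪ H₁` is impossible: `Res^ω(H₂) = ⊥` by `res_bot` (the relation
  `H₂ ≪ H₁` contains that `Res^ω(H₂)` exists), so `H₃` is compact by `LL.compact`, but
  `H₄ ≪ H₃` requires that `H₃` is not compact.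
* `swf_of_no_chain`: if there is no chain of length 4, the relation is well-founded: three times
  `Acc.intro`.
-/

set_option autoImplicit false

namespace Pool.H87N

open Topology Pointwise

variable {G : Type} [Group G] [TopologicalSpace G]

/-- The common kernel of a family of actions. -/
def JKer (G : Type) [Group G] {ι : Type} (V : ι → Type) [∀ i, MulAction G (V i)] : Subgroup G :=
  ⨅ i, ⨅ v : V i, MulAction.stabilizer G v

theorem res_le_kernel (hG : Tdlcsc G) (hN : Noeth G) (H K RH : Subgroup G)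
    (hH : IsOpen (H : Set G)) (hK : IsOpen (K : Set G)) (h : LL H K) (hRH : IsResOmega H RH)
    {ι : Type} (V : ι → Type) [∀ i, MulAction G (V i)] (T : ∀ i, SimpleGraph (V i))
    (hT : ∀ i, TreeAct G (V i) (T i))
    (hst : ∀ i, ∀ v : V i, IsOpen ((MulAction.stabilizer G v : Subgroup G) : Set G)) :
    RH ≤ JKer G V := by
  intro x hx
  have hxK : x ∈ K := h.le (hRH.le hx)
  unfold JKer
  simp only [Subgroup.mem_iInf, MulAction.mem_stabilizer_iff]
  intro i v
  have hTK : TreeAct K (V i) (T i) :=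
    ⟨(hT i).tree, (hT i).lf, fun g a b hab => (hT i).adj (g : G) a b hab⟩
  have hst' : ∀ w : V i, IsOpen ((MulAction.stabilizer K w : Subgroup K) : Set K) := by
    intro w
    have h1 : IsOpen ((fun y : K => (y : G)) ⁻¹' ((MulAction.stabilizer G w : Subgroup G) : Set G)) :=
      (hst i w).preimage continuous_subtype_val
    exact h1
  exact res_trivial hG hN H K RH hH hK h hRH hTK hst' ⟨x, hxK⟩ hx v

theorem res_bot (hG : Tdlcsc G) (hN : Noeth G) (H RH Z : Subgroup G) (hH : IsOpen (H : Set G))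
    (hRH : IsResOmega H RH) (hle : RH ≤ Z) (hZ : Elementary Z) : RH = ⊥ := by
  have htR : Tdlcsc RH := hG.subgroup RH hRH.closed
  have hel : Elementary RH := Elementary.mono hZ htR (Subgroup.inclusion hle)
    (continuous_subtype_val.subtype_mk _) (Subgroup.inclusion_injective hle)
  exact hRH.eq_bot hG hH (finRank_of_elementary hG hN H hH RH hRH.closed hRH.normalizer hel)

theorem no_chain (hG : Tdlcsc G) (hN : Noeth G)
    {ι : Type} (V : ι → Type) [∀ i, MulAction G (V i)] (T : ∀ i, SimpleGraph (V i))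
    (hT : ∀ i, TreeAct G (V i) (T i))
    (hst : ∀ i, ∀ v : V i, IsOpen ((MulAction.stabilizer G v : Subgroup G) : Set G))
    (hZ : Elementary (JKer G V)) (H₁ H₂ H₃ H₄ : Oc G) :
    ¬ (LL H₂.1 H₁.1 ∧ LL H₃.1 H₂.1 ∧ LL H₄.1 H₃.1) := by
  rintro ⟨h1, h2, h3⟩
  obtain ⟨RH, RK, hRH, -, -⟩ := h1.ab
  have hle := res_le_kernel hG hN H₂.1 H₁.1 RH H₂.2.1 H₁.2.1 h1 hRH V T hT hst
  have hb := res_bot hG hN H₂.1 RH _ H₂.2.1 hRH hle hZ
  exact h3.noncompact (h2.compact hG H₃.2.1 hRH hb)

theorem swf_of_no_chain (h : ∀ H₁ H₂ H₃ H₄ : Oc G,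
    ¬ (LL H₂.1 H₁.1 ∧ LL H₃.1 H₂.1 ∧ LL H₄.1 H₃.1)) : SWF G := by
  refine ⟨fun H₁ => Acc.intro _ fun H₂ h12 => Acc.intro _ fun H₃ h23 => Acc.intro _ fun H₄ h34 => ?_⟩
  exact absurd ⟨h12, h23, h34⟩ (h H₁ H₂ H₃ H₄)

end Pool.H87N
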