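import Pool.Agent.Lib.H87N.Z05

/-!
# Z06: chains when the common kernel satisfies a descending chain condition

`swf_of_dcc`. Suppose that the relation is not well-founded. Then there is a sequence `H n` in
`Oc G` with `H (n + 1) ≪ H n` (`RelEmbedding.wellFounded_iff_isEmpty`,
`wellFounded_iff_isEmpty_descending_chain` or similar). Let `R n = Res^ω(H n)` for `n ≥ 1` (existence
is contained in the relation). By `res_le_kernel` `R n ≤ Z` for `n ≥ 1`. Let
`C n = R (n + 1) ⊓ U`, closed and contained in `Z ⊓ U`. `R (n + 2) ≤ Core (R (n + 1)) ≤ R (n + 1)`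
(`LL.le_core`), so `C (n + 1) ≤ C n`. `R (n + 1) ≠ ⊥`, because otherwise `H (n + 2)` would be compact
(`LL.compact`), but `H (n + 3) ≪ H (n + 2)`. So there is a kernel `N` of `R (n + 1)`
(`exists_sker_of_ne_bot`) and `R (n + 2) ≤ N`. By `relIndex_open` the relative index of
`R (n + 2) ⊓ U` in `R (n + 1) ⊓ U` is `0`. This contradicts the hypothesis.

`relIndex_open`: `R` closed, `SKer R N`, `A ≤ N`, `U` open. If `A ⊓ U` has finite relative index in
`R ⊓ U`, so has `N ⊓ U`; it is closed, so `(N ⊓ U).subgroupOf (R ⊓ U)` is open, `R ⊓ U` is open in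
`R`, hence `N.subgroupOf R` is open in `↥R` and the quotient is discrete, a contradiction to
`ClassS.nondiscrete`.
-/

set_option autoImplicit false

namespace Pool.H87N

open Topology Pointwise

variable {G : Type} [Group G] [TopologicalSpace G]

theorem relIndex_open (hG : Tdlcsc G) (R N A U : Subgroup G) (hR : IsClosed (R : Set G))
    (hs : SKer R N) (hA : A ≤ N) (hU : IsOpen (U : Set G)) :
    (A ⊓ U).relIndex (R ⊓ U) = 0 := by
  have := hG.tg; have := hG.t2
  by_contra hne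
  have h1 : (N ⊓ U).relIndex (R ⊓ U) ≠ 0 := by
    intro h0
    apply hne
    have h2 : (N ⊓ U).relIndex (R ⊓ U) ∣ (A ⊓ U).relIndex (R ⊓ U) :=
      Subgroup.relIndex_dvd_of_le_left _ (inf_le_inf_right U hA)
    rw [h0] at h2
    exact Nat.eq_zero_of_zero_dvd h2
  have hUc : IsClosed (U : Set G) := U.isClosed_of_isOpen hU
  let D : Subgroup (R ⊓ U : Subgroup G) := (N ⊓ U).subgroupOf (R ⊓ U)
  have hDc : IsClosed (D : Set (R ⊓ U : Subgroup G)) := by
    have h3 : IsClosed ((N ⊓ U : Subgroup G) : Set G) := by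
      rw [Subgroup.coe_inf]; exact hs.closed.inter hUc
    exact h3.preimage continuous_subtype_val
  have hDfi : D.FiniteIndex := ⟨h1⟩
  have hDo : IsOpen (D : Set (R ⊓ U : Subgroup G)) := D.isOpen_of_isClosed_of_finiteIndex hDc
  obtain ⟨O, hO, hOD⟩ := isOpen_induced_iff.mp hDo
  have hNo : IsOpen ((N.subgroupOf R : Subgroup R) : Set R) := by
    refine Subgroup.isOpen_of_mem_nhds (g := 1) _ ?_
    have hop : IsOpen ((Subtype.val : R → G) ⁻¹' (O ∩ (U : Set G))) :=
      (hO.inter hU).preimage continuous_subtype_val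
    have h1O : (1 : G) ∈ O := by
      have h4 : (1 : (R ⊓ U : Subgroup G)) ∈ (D : Set (R ⊓ U : Subgroup G)) := D.one_mem
      rw [← hOD] at h4
      exact h4
    refine Filter.mem_of_superset (hop.mem_nhds ⟨h1O, U.one_mem⟩) ?_
    rintro x ⟨hxO, hxU⟩
    have hxRU : (x : G) ∈ R ⊓ U := ⟨x.2, hxU⟩
    have h5 : (⟨(x : G), hxRU⟩ : (R ⊓ U : Subgroup G)) ∈ (D : Set (R ⊓ U : Subgroup G)) := by
      rw [← hOD]; exact hxO
    exact h5.1
  obtain ⟨hn, hS⟩ := hs.quot
  exact hS.nondiscrete (QuotientGroup.discreteTopology hNo)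

theorem swf_of_dcc (hG : Tdlcsc G) (hN : Noeth G)
    {ι : Type} (V : ι → Type) [∀ i, MulAction G (V i)] (T : ∀ i, SimpleGraph (V i))
    (hT : ∀ i, TreeAct G (V i) (T i))
    (hst : ∀ i, ∀ v : V i, IsOpen ((MulAction.stabilizer G v : Subgroup G) : Set G))
    (U : Subgroup G) (hU : IsOpen (U : Set G))
    (hd : ¬ ∃ C : ℕ → Subgroup G, (∀ n, C n ≤ JKer G V ⊓ U) ∧ (∀ n, IsClosed (C n : Set G)) ∧
      (∀ n, C (n + 1) ≤ C n) ∧ ∀ n, (C (n + 1)).relIndex (C n) = 0) : SWF G := by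
  have := hG.tg; have := hG.t2
  by_contra hnot
  have h0 : ¬ IsEmpty {s : ℕ → Oc G // ∀ n, LL (s (n + 1)).1 (s n).1} := fun h =>
    hnot (wellFounded_iff_isEmpty_descending_chain.mpr h)
  rw [not_isEmpty_iff] at h0
  obtain ⟨s, hs⟩ := h0
  have hex : ∀ n, ∃ R : Subgroup G, IsResOmega (s n).1 R := by
    intro n
    obtain ⟨_, RK, -, hRK, -, -⟩ := (hs n).ab
    exact ⟨RK, hRK⟩
  choose R hR using hex
  have ho : ∀ n, IsOpen ((s n).1 : Set G) := fun n => (s n).2.1
  have hcore : ∀ n, R (n + 1) ≤ Core (R n) := fun n =>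
    (hs n).le_core hG hN (ho (n + 1)) (ho n) (hR (n + 1)) (hR n)
  have hker : ∀ n, R (n + 1) ≤ JKer G V := fun n =>
    res_le_kernel hG hN (s (n + 1)).1 (s n).1 (R (n + 1)) (ho (n + 1)) (ho n) (hs n) (hR (n + 1))
      V T hT hst
  have hne : ∀ n, R n ≠ ⊥ := fun n hb =>
    (hs (n + 1)).noncompact ((hs n).compact hG (ho (n + 1)) (hR n) hb)
  apply hd
  refine ⟨fun n => R (n + 1) ⊓ U, fun n => inf_le_inf_right U (hker n), fun n => ?_, fun n => ?_,
    fun n => ?_⟩
  · rw [Subgroup.coe_inf]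
    exact (hR (n + 1)).closed.inter (U.isClosed_of_isOpen hU)
  · exact inf_le_inf_right U ((hcore (n + 1)).trans (core_le _))
  · obtain ⟨N, hNs⟩ := exists_sker_of_ne_bot hG hN (s (n + 1)).1 (R (n + 1)) (ho (n + 1))
      (hR (n + 1)) (hne (n + 1))
    exact relIndex_open hG (R (n + 1)) N (R (n + 1 + 1)) U (hR (n + 1)).closed hNs
      ((hcore (n + 1)).trans (core_le_sker hNs)) hU

end Pool.H87N
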