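import Pool.Agent.Lib.H87N.Z06

/-!
# Z07: sequences of locally normal subgroups

`C` is *locally normal perfect* if it is closed and nontrivial, has an open normaliser and no proper
open normal subgroup. A Noetherian group is `𝒮`-well-founded if and only if there is no infinite
sequence `C 0 ≥ C 1 ≥ ...` of such subgroups with `C (n + 1)` in every `𝒮`-kernel of `C n`.
-/

set_option autoImplicit false

namespace Pool.H87N

open Topology Pointwise

variable {G : Type} [Group G] [TopologicalSpace G]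

/-- `C` is closed, nontrivial, with open normaliser and without proper open normal subgroups. -/
structure LocPerfect (C : Subgroup G) : Prop where
  closed : IsClosed (C : Set G)
  ne_bot : C ≠ ⊥
  norm : IsOpen ((Subgroup.normalizer (C : Set G) : Subgroup G) : Set G)
  perf : ∀ N : Subgroup ↥C, N.Normal → IsOpen (N : Set ↥C) → N = ⊤

theorem LocPerfect.res {C : Subgroup G} (h : LocPerfect C) : Res C = ⊤ := by
  rw [eq_top_iff]
  unfold Res
  refine le_sInf ?_
  rintro N ⟨hn, ho⟩
  rw [h.perf N hn ho]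

theorem subsingleton_of_finRank {Q : Type} [Group Q] [TopologicalSpace Q] (hQ : Tdlcsc Q)
    (hcg : CG Q) (hres : Res Q = ⊤) (h : FinRank Q) : Subsingleton Q := by
  have := hQ.tg
  obtain ⟨-, n, hn⟩ := h
  induction n with
  | zero => exact hn.elim
  | succ n ih =>
    rcases hn with hn | ⟨-, hn⟩ | ⟨hn, -⟩
    · exact hn
    · refine ih ?_
      let f : Q →* Res Q :=
        { toFun := fun x => ⟨x, by rw [hres]; exact Subgroup.mem_top x⟩
          map_one' := rfl
          map_mul' := fun _ _ => rfl }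
      have hf : Continuous f := by
        refine Continuous.subtype_mk ?_ _
        exact continuous_id
      have hi : Function.Injective f := by
        intro x y hxy
        have h1 : (f x : Q) = f y := by rw [hxy]
        exact h1
      exact xile_mono n (hQ.subgroup (Res Q) res_closed) f hf hi hn
    · exact absurd hcg hn

theorem le_of_frq (hG : Tdlcsc G) (C K R' : Subgroup G) (hC : IsClosed (C : Set G))
    (hK : IsClosed (K : Set G)) (hR' : IsClosed (R' : Set G)) (hCK : C ≤ K)
    (hcg : CG C) (hres : Res C = ⊤) (hf : FRQ R' K) : C ≤ R' := by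
  have := hG.tg
  obtain ⟨hn, hfr⟩ := hf
  have hCT : Tdlcsc C := hG.subgroup C hC
  have hKT : Tdlcsc K := hG.subgroup K hK
  have hn' : (R'.subgroupOf C).Normal := by
    refine ⟨fun x hx g => ?_⟩
    rw [Subgroup.mem_subgroupOf] at hx ⊢
    have h1 : (⟨(x : G), hCK x.2⟩ : K) ∈ R'.subgroupOf K := by
      rw [Subgroup.mem_subgroupOf]
      exact hx
    have h2 := hn.conj_mem _ h1 ⟨(g : G), hCK g.2⟩
    rw [Subgroup.mem_subgroupOf] at h2
    exact h2
  have hcC : IsClosed ((R'.subgroupOf C : Subgroup C) : Set C) := hR'.preimage continuous_subtype_val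
  have hcK : IsClosed ((R'.subgroupOf K : Subgroup K) : Set K) := hR'.preimage continuous_subtype_val
  have hQT : Tdlcsc (↥C ⧸ R'.subgroupOf C) := hCT.quotient _ hcC
  have hQK : Tdlcsc (↥K ⧸ R'.subgroupOf K) := hKT.quotient _ hcK
  let j : C →* K := Subgroup.inclusion hCK
  have hj : Continuous j := by
    refine Continuous.subtype_mk ?_ _
    exact continuous_subtype_val
  let f : ↥C ⧸ R'.subgroupOf C →* ↥K ⧸ R'.subgroupOf K :=
    QuotientGroup.lift _ ((QuotientGroup.mk' (R'.subgroupOf K)).comp j) (by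
      intro x hx
      have h1 : j x ∈ R'.subgroupOf K := by
        rw [Subgroup.mem_subgroupOf] at hx ⊢
        exact hx
      exact (QuotientGroup.eq_one_iff _).2 h1)
  have hfc : Continuous f := continuous_quot_lift _ (QuotientGroup.continuous_mk.comp hj)
  have hfi : Function.Injective f := by
    rw [injective_iff_map_eq_one]
    intro q hq
    obtain ⟨x, rfl⟩ := QuotientGroup.mk'_surjective (R'.subgroupOf C) q
    have h1 : (QuotientGroup.mk' (R'.subgroupOf K)) (j x) = 1 := hq
    have h2 : j x ∈ R'.subgroupOf K := (QuotientGroup.eq_one_iff _).1 h1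
    have h3 : x ∈ R'.subgroupOf C := by
      rw [Subgroup.mem_subgroupOf] at h2 ⊢
      exact h2
    exact (QuotientGroup.eq_one_iff _).2 h3
  have hfrC : FinRank (↥C ⧸ R'.subgroupOf C) := FinRank.mono hQK hQT f hfc hfi hfr
  have hcgQ : CG (↥C ⧸ R'.subgroupOf C) :=
    hcg.surj (QuotientGroup.mk' _) QuotientGroup.continuous_mk (QuotientGroup.mk'_surjective _)
  have hresQ : Res (↥C ⧸ R'.subgroupOf C) = ⊤ := by
    rw [eq_top_iff]
    intro q _
    obtain ⟨x, rfl⟩ := QuotientGroup.mk'_surjective (R'.subgroupOf C) q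
    refine map_mem_res (QuotientGroup.mk' _) QuotientGroup.continuous_mk x ?_
    rw [hres]
    exact Subgroup.mem_top x
  have hs := subsingleton_of_finRank hQT hcgQ hresQ hfrC
  intro x hx
  have h1 : ((⟨x, hx⟩ : C) : ↥C ⧸ R'.subgroupOf C) = ((1 : C) : ↥C ⧸ R'.subgroupOf C) :=
    Subsingleton.elim _ _
  have h2 := (QuotientGroup.eq_one_iff (N := R'.subgroupOf C) (⟨x, hx⟩ : C)).1 h1
  rw [Subgroup.mem_subgroupOf] at h2
  exact h2

/-- The quotient `C V / C` is compact. -/
theorem compact_sup_quot (hG : Tdlcsc G) (C V : Subgroup G)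
    (hV : IsCompact (V : Set G)) (hn : V ≤ Subgroup.normalizer (C : Set G)) :
    ∃ _ : (C.subgroupOf (C ⊔ V)).Normal, CompactSpace (↥(C ⊔ V) ⧸ C.subgroupOf (C ⊔ V)) := by
  have := hG.tg
  have hnn : (C.subgroupOf (C ⊔ V)).Normal := by
    rw [Subgroup.normal_subgroupOf_iff_le_normalizer le_sup_left]
    exact sup_le Subgroup.le_normalizer hn
  refine ⟨hnn, ?_⟩
  have hVc : CompactSpace V := isCompact_iff_compactSpace.1 hV
  let j : V → ↥(C ⊔ V) ⧸ C.subgroupOf (C ⊔ V) := fun v =>
    ((⟨(v : G), Subgroup.mem_sup_right v.2⟩ : ↥(C ⊔ V)) : ↥(C ⊔ V) ⧸ C.subgroupOf (C ⊔ V))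
  have hj : Continuous j := by
    refine QuotientGroup.continuous_mk.comp ?_
    refine Continuous.subtype_mk ?_ _
    exact continuous_subtype_val
  have hs : Function.Surjective j := by
    intro q
    obtain ⟨⟨x, hx⟩, rfl⟩ := QuotientGroup.mk_surjective q
    obtain ⟨c, hc, v, hv, hcv⟩ := a03_mem_sup C V hn x hx
    refine ⟨⟨v, hv⟩, ?_⟩
    refine QuotientGroup.eq.2 ?_
    rw [Subgroup.mem_subgroupOf]
    show v⁻¹ * x ∈ C
    rw [← hcv]
    have h1 := (Subgroup.mem_normalizer_iff.1 ((Subgroup.normalizer (C : Set G)).inv_mem (hn hv)) c).1 hc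
    have h2 : v⁻¹ * (c * v) = v⁻¹ * c * v⁻¹⁻¹ := by group
    rw [h2]
    exact h1
  exact hs.compactSpace hj

theorem isResOmega_sup (hG : Tdlcsc G) (hN : Noeth G) (C V : Subgroup G) (hC : LocPerfect C)
    (hVo : IsOpen (V : Set G)) (hVc : IsCompact (V : Set G))
    (hn : V ≤ Subgroup.normalizer (C : Set G)) : IsResOmega (C ⊔ V) C := by
  have := hG.tg
  have hcg : CG C := cg_of_noeth hG hN C V hC.closed hVo hn
  have hso : IsOpen ((C ⊔ V : Subgroup G) : Set G) := Subgroup.isOpen_mono le_sup_right hVo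
  have hsc : IsClosed ((C ⊔ V : Subgroup G) : Set G) := Subgroup.isClosed_of_isOpen _ hso
  obtain ⟨h1, h2⟩ := compact_sup_quot hG C V hVc hn
  have h3 : IsClosed ((C.subgroupOf (C ⊔ V) : Subgroup ↥(C ⊔ V)) : Set ↥(C ⊔ V)) :=
    hC.closed.preimage continuous_subtype_val
  exact ⟨le_sup_left, hC.closed,
    ⟨h1, finRank_of_compact ((hG.subgroup _ hsc).quotient _ h3) h2⟩,
    fun R' hle hR' hf => le_of_frq hG C (C ⊔ V) R' hC.closed hsc hR' le_sup_left hcg hC.res hf⟩

theorem LocPerfect.not_compact (hG : Tdlcsc G) {C : Subgroup G} (hC : LocPerfect C) :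
    ¬ IsCompact (C : Set G) := by
  intro hc
  have h1 := res_eq_bot_of_compact (hG.subgroup C hC.closed) (isCompact_iff_compactSpace.1 hc)
  rw [hC.res] at h1
  apply hC.ne_bot
  rw [eq_bot_iff]
  intro x hx
  have h2 : (⟨x, hx⟩ : C) ∈ (⊤ : Subgroup C) := Subgroup.mem_top _
  rw [h1, Subgroup.mem_bot] at h2
  rw [Subgroup.mem_bot]
  exact congrArg Subtype.val h2

theorem ll_sup (hG : Tdlcsc G) (hN : Noeth G) (C C' V V' : Subgroup G) (hC : LocPerfect C)
    (hC' : LocPerfect C') (hVo : IsOpen (V : Set G)) (hVc : IsCompact (V : Set G))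
    (hn : V ≤ Subgroup.normalizer (C : Set G)) (hVo' : IsOpen (V' : Set G))
    (hVc' : IsCompact (V' : Set G)) (hn' : V' ≤ Subgroup.normalizer (C' : Set G))
    (hVV : V' ≤ V) (hCC : C' ≤ C) (hs : ∀ N : Subgroup G, SKer C N → C' ≤ N) :
    LL (C' ⊔ V') (C ⊔ V) := by
  have := hG.tg
  have := hG.t2
  refine ⟨fun hc => hC.not_compact hG (hc.of_isClosed_subset hC.closed ?_), sup_le_sup hCC hVV,
    C', C, isResOmega_sup hG hN C' V' hC' hVo' hVc' hn', isResOmega_sup hG hN C V hC hVo hVc hn,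
    ?_, fun N hN _ => hs N hN⟩
  · exact fun x hx => Subgroup.mem_sup_left hx
  · obtain ⟨_, h2⟩ := compact_sup_quot hG C V hVc hn
    exact isClosed_closure.isCompact

/-- A strictly smaller member of a sequence gives a subgroup of infinite index. -/
theorem relIndex_sup (hG : Tdlcsc G) (hN : Noeth G) (C C' V V' : Subgroup G) (hC : LocPerfect C)
    (hC' : LocPerfect C') (hVo : IsOpen (V : Set G)) 
    (hn : V ≤ Subgroup.normalizer (C : Set G)) (hVo' : IsOpen (V' : Set G))
    (hVc' : IsCompact (V' : Set G)) (hn' : V' ≤ Subgroup.normalizer (C' : Set G))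
    (hCC : C' ≤ C) (hs : ∀ N : Subgroup G, SKer C N → C' ≤ N) :
    (C' ⊔ V').relIndex (C ⊔ V) = 0 := by
  have := hG.tg
  have := hG.t2
  by_contra hne
  have hcg : CG C := cg_of_noeth hG hN C V hC.closed hVo hn
  have hCT : Tdlcsc C := hG.subgroup C hC.closed
  have hCTg := hCT.tg
  have hso' : IsOpen ((C' ⊔ V' : Subgroup G) : Set G) := Subgroup.isOpen_mono le_sup_right hVo'
  have h1 : ((C' ⊔ V').subgroupOf C).index ≠ 0 := by
    have h2 : (C' ⊔ V').relIndex C ≠ 0 := fun h => hne (by
      have h3 := Subgroup.relIndex_eq_zero_of_le_right (H := C' ⊔ V') (le_sup_left : C ≤ C ⊔ V) h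
      exact h3)
    exact h2
  have h2 : (C' ⊔ V').subgroupOf C = ⊤ :=
    finiteIndex_eq_top hC.res _ (hso'.preimage continuous_subtype_val) h1
  have h3 : C ≤ C' ⊔ V' := Subgroup.subgroupOf_eq_top.1 h2
  have hsc' : IsClosed ((C' ⊔ V' : Subgroup G) : Set G) := Subgroup.isClosed_of_isOpen _ hso'
  have h4 : FRQ C' (C' ⊔ V') := (isResOmega_sup hG hN C' V' hC' hVo' hVc' hn').frq
  have h5 : C ≤ C' := le_of_frq hG C (C' ⊔ V') C' hC.closed hsc' hC'.closed h3 hcg hC.res h4
  have hEn : C ≤ Subgroup.normalizer ((⊥ : Subgroup G) : Set G) := by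
    rw [Subgroup.normalizer_eq_top_iff.2 inferInstance]
    exact le_top
  obtain ⟨N, -, hNs⟩ := exists_sker hG C hC.closed hcg hC.res ⊥ bot_le
    (by rw [Subgroup.coe_bot]; exact isClosed_singleton) hEn hC.ne_bot.symm
  exact sker_ne C N hNs (le_antisymm hNs.le (h5.trans (hs N hNs)))

end Pool.H87N
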