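import Pool.Agent.Lib.H87N.Z07

/-!
# Z08: the criterion for Noetherian groups
-/

set_option autoImplicit false

namespace Pool.H87N

open Topology Pointwise

variable {G : Type} [Group G] [TopologicalSpace G]

/-- A sequence `C 0 ≥ C 1 ≥ ...` of locally normal perfect subgroups of `Z`, each term in all
`𝒮`-kernels of the preceding one. -/
def BadSeq (Z : Subgroup G) (C : ℕ → Subgroup G) : Prop :=
  ∀ n, LocPerfect (C n) ∧ C n ≤ Z ∧ C (n + 1) ≤ C n ∧ ∀ N : Subgroup G, SKer (C n) N → C (n + 1) ≤ N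

/-- The compact open subgroups `V n` normalising `C 0, ..., C n`. -/
def vseq (V₀ : Subgroup G) (C : ℕ → Subgroup G) : ℕ → Subgroup G
  | 0 => V₀ ⊓ Subgroup.normalizer (C 0 : Set G)
  | n + 1 => vseq V₀ C n ⊓ Subgroup.normalizer (C (n + 1) : Set G)

theorem vseq_norm (V₀ : Subgroup G) (C : ℕ → Subgroup G) (n : ℕ) :
    vseq V₀ C n ≤ Subgroup.normalizer (C n : Set G) := by
  cases n with
  | zero => exact inf_le_right
  | succ n => exact inf_le_right

theorem vseq_succ (V₀ : Subgroup G) (C : ℕ → Subgroup G) (n : ℕ) :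
    vseq V₀ C (n + 1) ≤ vseq V₀ C n := inf_le_left

theorem vseq_le (V₀ : Subgroup G) (C : ℕ → Subgroup G) (n : ℕ) : vseq V₀ C n ≤ V₀ := by
  induction n with
  | zero => exact inf_le_left
  | succ n ih => exact (vseq_succ V₀ C n).trans ih

theorem vseq_open (V₀ : Subgroup G) (C : ℕ → Subgroup G) (h₀ : IsOpen (V₀ : Set G))
    (hC : ∀ n, LocPerfect (C n)) (n : ℕ) : IsOpen (vseq V₀ C n : Set G) := by
  induction n with
  | zero =>
    show IsOpen ((V₀ ⊓ Subgroup.normalizer (C 0 : Set G) : Subgroup G) : Set G)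
    rw [Subgroup.coe_inf]
    exact h₀.inter (hC 0).norm
  | succ n ih =>
    show IsOpen ((vseq V₀ C n ⊓ Subgroup.normalizer (C (n + 1) : Set G) : Subgroup G) : Set G)
    rw [Subgroup.coe_inf]
    exact ih.inter (hC (n + 1)).norm

theorem vseq_compact (hG : Tdlcsc G) (V₀ : Subgroup G) (C : ℕ → Subgroup G)
    (h₀ : IsOpen (V₀ : Set G)) (hc : IsCompact (V₀ : Set G)) (hC : ∀ n, LocPerfect (C n)) (n : ℕ) :
    IsCompact (vseq V₀ C n : Set G) := by
  have := hG.tg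
  exact hc.of_isClosed_subset (Subgroup.isClosed_of_isOpen _ (vseq_open V₀ C h₀ hC n)) (vseq_le V₀ C n)

theorem exists_V₀ (hG : Tdlcsc G) : ∃ V₀ : Subgroup G, IsOpen (V₀ : Set G) ∧ IsCompact (V₀ : Set G) := by
  obtain ⟨V, h1, h2, -⟩ := exists_cos hG (O := Set.univ) Filter.univ_mem
  exact ⟨V, h1, h2⟩

theorem BadSeq.ll (hG : Tdlcsc G) (hN : Noeth G) {Z V₀ : Subgroup G} {C : ℕ → Subgroup G}
    (h : BadSeq Z C) (h₀ : IsOpen (V₀ : Set G)) (hc : IsCompact (V₀ : Set G)) (n : ℕ) :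
    LL (C (n + 1) ⊔ vseq V₀ C (n + 1)) (C n ⊔ vseq V₀ C n) := by
  have hC : ∀ n, LocPerfect (C n) := fun n => (h n).1
  exact ll_sup hG hN (C n) (C (n + 1)) _ _ (hC n) (hC (n + 1)) (vseq_open V₀ C h₀ hC n)
    (vseq_compact hG V₀ C h₀ hc hC n) (vseq_norm V₀ C n) (vseq_open V₀ C h₀ hC (n + 1))
    (vseq_compact hG V₀ C h₀ hc hC (n + 1)) (vseq_norm V₀ C (n + 1)) (vseq_succ V₀ C n)
    (h n).2.2.1 (h n).2.2.2

theorem BadSeq.isOpen {Z V₀ : Subgroup G} {C : ℕ → Subgroup G} (hG : Tdlcsc G)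
    (h : BadSeq Z C) (h₀ : IsOpen (V₀ : Set G)) (n : ℕ) :
    IsOpen ((C n ⊔ vseq V₀ C n : Subgroup G) : Set G) := by
  have := hG.tg
  exact Subgroup.isOpen_mono le_sup_right (vseq_open V₀ C h₀ (fun n => (h n).1) n)

theorem BadSeq.not_swf (hG : Tdlcsc G) (hN : Noeth G) {Z : Subgroup G} {C : ℕ → Subgroup G}
    (h : BadSeq Z C) : ¬ SWF G := by
  obtain ⟨V₀, h₀, hc⟩ := exists_V₀ hG
  intro hs
  have h1 := wellFounded_iff_isEmpty_descending_chain.1 hs
  exact h1.false ⟨fun n => ⟨C n ⊔ vseq V₀ C n, h.isOpen hG h₀ n, hN _ (h.isOpen hG h₀ n)⟩,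
    fun n => h.ll hG hN h₀ hc n⟩

theorem exists_badSeq (hG : Tdlcsc G) (hN : Noeth G)
    {ι : Type} (V : ι → Type) [∀ i, MulAction G (V i)] (T : ∀ i, SimpleGraph (V i))
    (hT : ∀ i, TreeAct G (V i) (T i))
    (hst : ∀ i, ∀ v : V i, IsOpen ((MulAction.stabilizer G v : Subgroup G) : Set G))
    (hnot : ¬ SWF G) : ∃ C : ℕ → Subgroup G, BadSeq (JKer G V) C := by
  have := hG.tg; have := hG.t2
  have h0 : ¬ IsEmpty {s : ℕ → Oc G // ∀ n, LL (s (n + 1)).1 (s n).1} := fun h =>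
    hnot (wellFounded_iff_isEmpty_descending_chain.mpr h)
  rw [not_isEmpty_iff] at h0
  obtain ⟨s, hs⟩ := h0
  have hex : ∀ n, ∃ R : Subgroup G, IsResOmega (s n).1 R := by
    intro n
    obtain ⟨_, RK, -, hRK, -, -⟩ := (hs n).ab
    exact ⟨RK, hRK⟩
  choose R hR using hex
  have ho : ∀ n, IsOpen ((s n).1 : Set G) := fun n => (s n).2.1
  have hcore : ∀ n, R (n + 1) ≤ Core (R n) := fun n =>
    (hs n).le_core hG hN (ho (n + 1)) (ho n) (hR (n + 1)) (hR n)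
  have hker : ∀ n, R (n + 1) ≤ JKer G V := fun n =>
    res_le_kernel hG hN (s (n + 1)).1 (s n).1 (R (n + 1)) (ho (n + 1)) (ho n) (hs n) (hR (n + 1))
      V T hT hst
  have hne : ∀ n, R n ≠ ⊥ := fun n hb =>
    (hs (n + 1)).noncompact ((hs n).compact hG (ho (n + 1)) (hR n) hb)
  refine ⟨fun n => R (n + 1), fun n => ⟨⟨(hR (n + 1)).closed, hne (n + 1), ?_, ?_⟩, hker n,
    (hcore (n + 1)).trans (core_le _), fun N hNs => (hcore (n + 1)).trans (core_le_sker hNs)⟩⟩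
  · exact Subgroup.isOpen_mono (hR (n + 1)).normalizer (ho (n + 1))
  · intro N hNn hNo
    exact open_normal_eq_top ((hR (n + 1)).res hG (ho (n + 1))) N hNn hNo

theorem BadSeq.exists_sker (hG : Tdlcsc G) (hN : Noeth G) {Z : Subgroup G} {C : ℕ → Subgroup G}
    (h : BadSeq Z C) (n : ℕ) : ∃ N : Subgroup G, SKer (C n) N := by
  have := hG.tg; have := hG.t2
  have hC := (h n).1
  have hcg : CG (C n) := cg_of_noeth hG hN (C n) _ hC.closed hC.norm le_rfl
  have hEn : C n ≤ Subgroup.normalizer ((⊥ : Subgroup G) : Set G) := by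
    rw [Subgroup.normalizer_eq_top_iff.2 inferInstance]
    exact le_top
  obtain ⟨N, -, hNs⟩ := Pool.H87N.exists_sker hG (C n) hC.closed hcg hC.res ⊥ bot_le
    (by rw [Subgroup.coe_bot]; exact isClosed_singleton) hEn hC.ne_bot.symm
  exact ⟨N, hNs⟩

/-- The descending sequence of locally normal subgroups inside `Z ∩ U`. -/
theorem BadSeq.local (hG : Tdlcsc G) (hN : Noeth G) {Z : Subgroup G} {C : ℕ → Subgroup G}
    (h : BadSeq Z C) (U : Subgroup G) (hU : IsOpen (U : Set G)) :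
    ∃ D : ℕ → Subgroup G, ∀ n, IsClosed (D n : Set G) ∧
      IsOpen ((Subgroup.normalizer (D n : Set G) : Subgroup G) : Set G) ∧ D n ≤ Z ⊓ U ∧
      D (n + 1) ≤ D n ∧ (D (n + 1)).relIndex (D n) = 0 := by
  have := hG.tg; have := hG.t2
  refine ⟨fun n => C n ⊓ U, fun n => ⟨?_, ?_, inf_le_inf_right U (h n).2.1,
    inf_le_inf_right U (h n).2.2.1, ?_⟩⟩
  · rw [Subgroup.coe_inf]
    exact (h n).1.closed.inter (U.isClosed_of_isOpen hU)
  · have h1 : IsOpen ((Subgroup.normalizer (C n : Set G) ⊓ U : Subgroup G) : Set G) := by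
      rw [Subgroup.coe_inf]
      exact (h n).1.norm.inter hU
    refine Subgroup.isOpen_mono ?_ h1
    intro g hg
    obtain ⟨hg1, hg2⟩ := Subgroup.mem_inf.1 hg
    rw [Subgroup.mem_normalizer_iff]
    intro x
    have h2 := Subgroup.mem_normalizer_iff.1 hg1 x
    constructor
    · rintro ⟨hx1, hx2⟩
      exact ⟨h2.1 hx1, U.mul_mem (U.mul_mem hg2 hx2) (U.inv_mem hg2)⟩
    · rintro ⟨hx1, hx2⟩
      refine ⟨h2.2 hx1, ?_⟩
      have h3 := U.mul_mem (U.mul_mem (U.inv_mem hg2) hx2) hg2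
      have h4 : g⁻¹ * (g * x * g⁻¹) * g = x := by group
      rwa [h4] at h3
  · obtain ⟨N, hNs⟩ := h.exists_sker hG hN n
    exact relIndex_open hG (C n) N (C (n + 1)) U (h n).1.closed hNs ((h n).2.2.2 N hNs) hU

/-- The descending sequence of open subgroups. -/
theorem BadSeq.opens (hG : Tdlcsc G) (hN : Noeth G) {Z : Subgroup G} {C : ℕ → Subgroup G}
    (h : BadSeq Z C) :
    ∃ H : ℕ → Subgroup G, ∀ n, IsOpen (H n : Set G) ∧ ¬ IsCompact (H n : Set G) ∧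
      H (n + 1) ≤ H n ∧ (H (n + 1)).relIndex (H n) = 0 := by
  obtain ⟨V₀, h₀, hc⟩ := exists_V₀ hG
  have hC : ∀ n, LocPerfect (C n) := fun n => (h n).1
  refine ⟨fun n => C n ⊔ vseq V₀ C n, fun n => ⟨h.isOpen hG h₀ n, ?_, ?_, ?_⟩⟩
  · exact (h.ll hG hN h₀ hc n).noncompact
  · exact (h.ll hG hN h₀ hc n).le
  · exact relIndex_sup hG hN (C n) (C (n + 1)) _ _ (hC n) (hC (n + 1)) (vseq_open V₀ C h₀ hC n)
      (vseq_norm V₀ C n) (vseq_open V₀ C h₀ hC (n + 1))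
      (vseq_compact hG V₀ C h₀ hc hC (n + 1)) (vseq_norm V₀ C (n + 1)) (h n).2.2.1 (h n).2.2.2

end Pool.H87N
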